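import Pool.Agent.helper30.LR.Sumset

noncomputable section

namespace Pool.Agent.helper30.LR

open Complex MeasureTheory Set Filter Topology ArithmeticFunction

/-- positive ordinates up to `T` -/
def ords (T : ℝ) : Set ℝ := {γ : ℝ | 0 < γ ∧ γ ≤ T ∧ riemannZeta (1 / 2 + γ * I) = 0}

/-- their number, with multiplicity -/
def NN (T : ℝ) : ℝ := ∑ᶠ γ ∈ ords T, (mult γ : ℝ)

theorem mult_zero_of_ne {γ : ℝ} (h : riemannZeta (1 / 2 + γ * I) ≠ 0) : mult γ = 0 := by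
  have h1 : 1 / 2 + (γ * I : ℂ) ≠ 1 := fun h => by
    have := congrArg Complex.re h
    norm_num at this
  have ha : AnalyticAt ℂ riemannZeta (1 / 2 + γ * I) := by
    rw [Complex.analyticAt_iff_eventually_differentiableAt]
    filter_upwards [isOpen_ne.mem_nhds h1] with s hs using differentiableAt_riemannZeta hs
  unfold mult analyticOrderNatAt
  rw [ha.analyticOrderAt_eq_zero.2 h]
  rfl

theorem ords_finite (hRH : RiemannHypothesis) (T : ℝ) : (ords T).Finite := by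
  obtain ⟨hfin, -, -⟩ := hadXi hRH
  refine (hfin T).subset fun γ hγ => ⟨?_, ?_⟩
  · rw [abs_of_pos hγ.1]; exact hγ.2.1
  · have := mult_pos hγ.2.2
    omega

theorem NN_lower (hRH : RiemannHypothesis) : ∃ c : ℝ, 0 < c ∧ ∃ T0 : ℝ, ∀ T : ℝ, T0 ≤ T →
    c * (T * Real.log T) ≤ NN T := by
  obtain ⟨-, c, hc, T0, h⟩ := mass hRH
  refine ⟨c, hc, T0, fun T hT => ?_⟩
  obtain ⟨G, hG, hm⟩ := h T hT
  refine hm.trans ?_
  have hf := ords_finite hRH T
  unfold NN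
  rw [finsum_mem_eq_finite_toFinset_sum _ hf]
  have h1 : ∑ γ ∈ G, (mult γ : ℝ) =
      ∑ γ ∈ G.filter (fun γ => γ ∈ hf.toFinset), (mult γ : ℝ) := by
    refine (Finset.sum_subset (Finset.filter_subset _ _) fun γ hγ hn => ?_).symm
    rw [Finset.mem_filter, not_and, Set.Finite.mem_toFinset] at hn
    have h2 := hn hγ
    have h3 : riemannZeta (1 / 2 + γ * I) ≠ 0 := fun h0 =>
      h2 ⟨(hG γ hγ).1, (hG γ hγ).2, h0⟩
    rw [mult_zero_of_ne h3]; simp
  rw [h1]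
  refine Finset.sum_le_sum_of_subset_of_nonneg (fun γ hγ => (Finset.mem_filter.1 hγ).2)
    fun _ _ _ => Nat.cast_nonneg _

theorem final (hRH : RiemannHypothesis) :
    (∀ T : ℝ, (ords T).Finite) ∧
    (∀ k : ℕ, 2 ≤ k → ∀ a : Fin k → ℝ, (∀ j, a j ≠ 0) → ∀ K ε : ℝ, 0 < ε →
      ∃ T0 : ℝ, ∀ T : ℝ, T0 ≤ T → ∀ α : ℝ, |α| ≤ K * T → ∀ G : Fin k → Finset ℝ,
        (∀ j, ∀ γ ∈ G j, |γ| ≤ K * T) →
        ∑ g ∈ Fintype.piFinset G, (∏ j, (mult (g j) : ℝ)) * (mult (∑ j, a j * g j + α) : ℝ) ≤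
          1 / 2 * ∏ j, ∑ γ ∈ G j, (mult γ : ℝ) + ε * NN T ^ k) ∧
    (∀ a b : ℝ, a ≠ 0 → b ≠ 0 → ∀ K η ε : ℝ, 0 < η → 0 < ε →
      ∃ T0 : ℝ, ∀ T : ℝ, T0 ≤ T → ∀ A B : Finset ℝ,
        (∀ γ ∈ A, |γ| ≤ K * T) → (∀ γ ∈ B, |γ| ≤ K * T) →
        η * NN T ≤ ∑ γ ∈ A, (mult γ : ℝ) → η * NN T ≤ ∑ γ ∈ B, (mult γ : ℝ) →
        2 * ∑ γ ∈ A, (mult γ : ℝ) + 2 * ∑ γ ∈ B, (mult γ : ℝ) - ε * NN T ≤
          (((A ×ˢ B).image fun p => a * p.1 + b * p.2).card : ℝ)) := by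
  obtain ⟨c, hc, T1, hN⟩ := NN_lower hRH
  refine ⟨ords_finite hRH, fun k hk a ha K ε hε => ?_, fun a b ha hb K η ε hη hε => ?_⟩
  · obtain ⟨n, rfl⟩ : ∃ n, k = n + 2 := ⟨k - 2, by omega⟩
    obtain ⟨T0, hT0, h⟩ := main1 hRH a ha (K := max K 1) (ε := ε * c ^ (n + 2))
      (le_max_right _ _) (by positivity)
    refine ⟨max T0 T1, fun T hT α hα G hG => ?_⟩
    have hT4 : 4 ≤ T := hT0.trans ((le_max_left _ _).trans hT)
    have hKT : K * T ≤ max K 1 * T := by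
      have : K ≤ max K 1 := le_max_left _ _
      gcongr
    have hL : 0 < Real.log T := Real.log_pos (by linarith)
    refine (h T ((le_max_left _ _).trans hT) α (hα.trans hKT) G
      (fun j γ hγ => (hG j γ hγ).trans hKT)).trans ?_
    have h1 := hN T ((le_max_right _ _).trans hT)
    have h2 : ε * c ^ (n + 2) * (T * Real.log T) ^ (n + 2) ≤ ε * NN T ^ (n + 2) := by
      rw [mul_assoc, ← mul_pow]
      gcongr
    linarith
  · obtain ⟨T0, hT0, h⟩ := sumset1 hRH ha hb (K := max K 1) (η := η * c) (ε := ε * c)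
      (le_max_right _ _) (by positivity) (by positivity)
    refine ⟨max T0 T1, fun T hT A B hA hB hAm hBm => ?_⟩
    have hT4 : 4 ≤ T := hT0.trans ((le_max_left _ _).trans hT)
    have hKT : K * T ≤ max K 1 * T := by
      have : K ≤ max K 1 := le_max_left _ _
      gcongr
    have hL : 0 < Real.log T := Real.log_pos (by linarith)
    have h1 := hN T ((le_max_right _ _).trans hT)
    have h2 : η * c * (T * Real.log T) ≤ η * NN T := by
      rw [mul_assoc]; gcongr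
    have h3 : ε * c * (T * Real.log T) ≤ ε * NN T := by
      rw [mul_assoc]; gcongr
    have h4 := h T ((le_max_left _ _).trans hT) A B (fun γ hγ => (hA γ hγ).trans hKT)
      (fun γ hγ => (hB γ hγ).trans hKT) (h2.trans hAm) (h2.trans hBm)
    unfold mass' vals at h4
    linarith

end Pool.Agent.helper30.LR
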