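import Pool.Agent.helper30.LR.Parts

noncomputable section

namespace Pool.Agent.helper30.LR

open Complex MeasureTheory Set Filter Topology ArithmeticFunction
open Pool.Agent.helper4.LRL (AA continuous_AA l2_integrable l2_bound)

theorem norm_AA_le (m : ℝ → ℕ) (G : Finset ℝ) (y : ℝ) : ‖AA m G y‖ ≤ ∑ γ ∈ G, (m γ : ℝ) := by
  unfold AA
  refine (norm_sum_le _ _).trans (Finset.sum_le_sum fun γ _ => ?_)
  rw [norm_mul, Complex.norm_natCast, ← ofReal_mul, Complex.norm_exp_ofReal_mul_I, mul_one]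

theorem trig_sum {k : ℕ} (a : Fin k → ℝ) (α : ℝ) (m : ℝ → ℕ) (G : Fin k → Finset ℝ) (x : ℝ) :
    |∑ g ∈ Fintype.piFinset G, (∏ j, (m (g j) : ℝ)) * Real.cos (x * (∑ j, a j * g j + α))| ≤
      ∏ j, ‖AA m (G j) (a j * x)‖ := by
  have h1 : cexp ((α * x : ℝ) * I) * ∏ j, AA m (G j) (a j * x) =
      ∑ g ∈ Fintype.piFinset G, ((∏ j, (m (g j) : ℝ) : ℝ) : ℂ) *
        cexp ((x * (∑ j, a j * g j + α) : ℝ) * I) := by
    unfold AA
    rw [Finset.prod_univ_sum, Finset.mul_sum]
    refine Finset.sum_congr rfl fun g _ => ?_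
    rw [Finset.prod_mul_distrib, ← Complex.exp_sum, mul_left_comm, ← Complex.exp_add]
    push_cast
    congr 2
    rw [mul_add, Finset.mul_sum, add_mul, Finset.sum_mul, add_comm]
    congr 1
    · refine Finset.sum_congr rfl fun j _ => ?_
      ring
    · ring
  have h2 : (∑ g ∈ Fintype.piFinset G, (∏ j, (m (g j) : ℝ)) *
      Real.cos (x * (∑ j, a j * g j + α))) =
      (cexp ((α * x : ℝ) * I) * ∏ j, AA m (G j) (a j * x)).re := by
    rw [h1, Complex.re_sum]
    refine Finset.sum_congr rfl fun g _ => ?_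
    rw [re_ofReal_mul, Complex.exp_ofReal_mul_I_re]
  rw [h2]
  refine (abs_re_le_norm _).trans ?_
  rw [norm_mul, Complex.norm_exp_ofReal_mul_I, one_mul, norm_prod]

/-- the core inequality -/
theorem core (hRH : RiemannHypothesis) : ∃ CA : ℝ, ∀ H : ℝ, 4 ≤ H → ∀ X : ℝ, 0 < X →
    ∀ (k : ℕ) (a : Fin k → ℝ) (α : ℝ) (G : Fin k → Finset ℝ) (ρ : ℝ), 0 ≤ ρ →
    (∀ g ∈ Fintype.piFinset G, |∑ j, a j * g j + α| ≤ ρ * H) →
    X * Real.exp (-ρ ^ 2) * ∑ g ∈ Fintype.piFinset G,
        (∏ j, (mult (g j) : ℝ)) * (mult (∑ j, a j * g j + α) : ℝ) ≤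
      (Real.log H + CA) * ∏ j, ∑ γ ∈ G j, (mult γ : ℝ) +
        ∫ x in (-X)..X, |EE H x| * ∏ j, ‖AA mult (G j) (a j * x)‖ := by
  obtain ⟨CA, hCA⟩ := arch_bound gg gg_continuous gg_log
  refine ⟨CA, fun H hH X hX k a α G ρ hρ hs => ?_⟩
  have hH0 : 0 < H := by linarith
  set s : (Fin k → ℝ) → ℝ := fun g => ∑ j, a j * g j + α with hsd
  set P : (Fin k → ℝ) → ℝ := fun g => ∏ j, (mult (g j) : ℝ) with hPd
  have hP0 : ∀ g, 0 ≤ P g := fun g => Finset.prod_nonneg fun j _ => Nat.cast_nonneg _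
  have hEc := EE_continuous hRH hH0
  have hAc := Ar_continuous hH0
  have hBc := BB_continuous hRH hH0
  have hpi := Real.pi_pos
  -- the inequality for one `g`
  have h1 : ∀ g ∈ Fintype.piFinset G,
      X * Real.exp (-ρ ^ 2) * (P g * (mult (s g) : ℝ)) ≤
        P g * (Real.log H + CA) +
          ∫ x in (-X)..X, P g * ((1 - |x| / X) * Real.cos (x * s g) * EE H x) := by
    intro g hg
    have h2 := Pool.Agent.helper26.LRS.series_pos mult mult_neg hH0 (mass_summable hRH hH0) hX (s g)
    have h3 := hCA H (by linarith) X hX (s g)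
    have hdec : (∫ x in (-X)..X, (1 - |x| / X) * Real.cos (x * s g) *
        ∑' γ : ℝ, (mult γ : ℝ) * (Real.exp (-(γ ^ 2 / H ^ 2)) * Real.cos (x * γ))) =
        (∫ x in (-X)..X, (1 - |x| / X) * Real.cos (x * s g) * EE H x) +
        1 / (2 * Real.pi) * ∫ x in (-X)..X, (1 - |x| / X) * Real.cos (x * s g) *
        (∫ t : ℝ, Real.exp (-(t ^ 2 / H ^ 2)) * Real.cos (x * t) * gg t) := by
      rw [← intervalIntegral.integral_const_mul, ← intervalIntegral.integral_add]
      · refine intervalIntegral.integral_congr fun x _ => ?_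
        simp only [EE, BB, Ar]
        ring
      · exact Continuous.intervalIntegrable (by fun_prop) _ _
      · have : Continuous fun x => ∫ t : ℝ, Real.exp (-(t ^ 2 / H ^ 2)) * Real.cos (x * t) * gg t :=
          hAc
        exact Continuous.intervalIntegrable (by fun_prop) _ _
    rw [hdec] at h2
    have h4 : 1 / (2 * Real.pi) * ∫ x in (-X)..X, (1 - |x| / X) * Real.cos (x * s g) *
        (∫ t : ℝ, Real.exp (-(t ^ 2 / H ^ 2)) * Real.cos (x * t) * gg t) ≤ Real.log H + CA := by
      rw [one_div, inv_mul_le_iff₀ (by positivity)]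
      exact h3
    have h5 : X * ((mult (s g) : ℝ) * Real.exp (-(s g ^ 2 / H ^ 2))) ≤
        (∫ x in (-X)..X, (1 - |x| / X) * Real.cos (x * s g) * EE H x) + (Real.log H + CA) := by
      linarith
    have h6 : Real.exp (-ρ ^ 2) ≤ Real.exp (-(s g ^ 2 / H ^ 2)) := by
      refine Real.exp_le_exp.2 (neg_le_neg ?_)
      rw [div_le_iff₀ (by positivity), ← mul_pow, ← sq_abs (s g)]
      have := hs g hg
      gcongr
    rw [intervalIntegral.integral_const_mul]
    have h8 : X * Real.exp (-ρ ^ 2) * (mult (s g) : ℝ) ≤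
        X * ((mult (s g) : ℝ) * Real.exp (-(s g ^ 2 / H ^ 2))) := by
      have h9 : Real.exp (-ρ ^ 2) * (mult (s g) : ℝ) ≤
          (mult (s g) : ℝ) * Real.exp (-(s g ^ 2 / H ^ 2)) := by
        rw [mul_comm]
        gcongr
      have := mul_le_mul_of_nonneg_left h9 hX.le
      linarith
    have h9 := mul_le_mul_of_nonneg_left (h8.trans h5) (hP0 g)
    linarith
  have h2 := Finset.sum_le_sum h1
  rw [← Finset.mul_sum, Finset.sum_add_distrib, ← Finset.sum_mul] at h2
  have h3 : ∑ g ∈ Fintype.piFinset G, P g = ∏ j, ∑ γ ∈ G j, (mult γ : ℝ) := by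
    rw [Finset.prod_univ_sum]
  rw [h3] at h2
  have h4 : ∑ g ∈ Fintype.piFinset G,
      ∫ x in (-X)..X, P g * ((1 - |x| / X) * Real.cos (x * s g) * EE H x) ≤
      ∫ x in (-X)..X, |EE H x| * ∏ j, ‖AA mult (G j) (a j * x)‖ := by
    rw [← intervalIntegral.integral_finsetSum]
    · refine intervalIntegral.integral_mono_on (by linarith) ?_ ?_ fun x hx => ?_
      · exact Continuous.intervalIntegrable (by fun_prop) _ _
      · have hAA : ∀ j, Continuous fun x : ℝ => AA mult (G j) (a j * x) := fun j => by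
          have := continuous_AA mult (G j) (a j)
          exact this
        refine Continuous.intervalIntegrable ?_ _ _
        refine hEc.abs.mul ?_
        exact continuous_finsetProd _ fun j _ => (hAA j).norm
      · have h5 : ∑ g ∈ Fintype.piFinset G, P g * ((1 - |x| / X) * Real.cos (x * s g) * EE H x) =
            ((1 - |x| / X) * EE H x) *
              ∑ g ∈ Fintype.piFinset G, P g * Real.cos (x * s g) := by
          rw [Finset.mul_sum]
          exact Finset.sum_congr rfl fun g _ => by ring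
        rw [h5]
        refine (le_abs_self _).trans ?_
        rw [abs_mul, abs_mul]
        have h6 : |1 - |x| / X| ≤ 1 := by
          have h7 : |x| ≤ X := abs_le.2 ⟨hx.1, hx.2⟩
          have h8 : |x| / X ≤ 1 := (div_le_one hX).2 h7
          have h9 : 0 ≤ |x| / X := by positivity
          rw [abs_le]; constructor <;> linarith
        have h7 := trig_sum a α mult G x
        calc |1 - |x| / X| * |EE H x| * |∑ g ∈ Fintype.piFinset G, P g * Real.cos (x * s g)| ≤
            1 * |EE H x| * ∏ j, ‖AA mult (G j) (a j * x)‖ := by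
              gcongr
          _ = _ := by rw [one_mul]
    · intro g _
      exact Continuous.intervalIntegrable (by fun_prop) _ _
  calc _ ≤ _ := h2
    _ ≤ _ := by linarith

end Pool.Agent.helper30.LR
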