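import Mathlib

/-!
# The digamma function: series and logarithmic asymptotics
-/

noncomputable section

namespace Pool.Agent.helper30.LR

open Complex Metric Filter Topology Set

/-- real digamma -/
def psiR (x : ℝ) : ℝ := deriv (Real.log ∘ Real.Gamma) x

theorem differentiableAt_logGamma {x : ℝ} (hx : 0 < x) :
    DifferentiableAt ℝ (Real.log ∘ Real.Gamma) x := by
  have h1 : DifferentiableAt ℝ Real.Gamma x :=
    Real.differentiableAt_Gamma fun m => by
      have : (0 : ℝ) ≤ m := Nat.cast_nonneg m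
      linarith
  exact (Real.differentiableAt_log (Real.Gamma_pos_of_pos hx).ne').comp x h1

theorem digamma_ofReal {x : ℝ} (hx : 0 < x) : digamma (x : ℂ) = (psiR x : ℂ) := by
  have hG : DifferentiableAt ℝ Real.Gamma x :=
    Real.differentiableAt_Gamma fun m => by
      have : (0 : ℝ) ≤ m := Nat.cast_nonneg m
      linarith
  have hC : DifferentiableAt ℂ Complex.Gamma (x : ℂ) :=
    Complex.differentiableAt_Gamma _ fun m h => by
      have h1 := congrArg Complex.re h
      simp at h1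
      have : (0 : ℝ) ≤ m := Nat.cast_nonneg m
      linarith
  have h1 : HasDerivAt (fun y : ℝ => ((Real.Gamma y : ℝ) : ℂ)) ((deriv Real.Gamma x : ℝ) : ℂ) x :=
    hG.hasDerivAt.ofReal_comp
  have h2 : HasDerivAt (fun y : ℝ => Complex.Gamma (y : ℂ)) (deriv Complex.Gamma (x : ℂ)) x :=
    hC.hasDerivAt.comp_ofReal
  have h3 : (fun y : ℝ => Complex.Gamma (y : ℂ)) = fun y : ℝ => ((Real.Gamma y : ℝ) : ℂ) := by
    funext y; exact Complex.Gamma_ofReal y
  rw [h3] at h2
  have h4 := h1.unique h2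
  have hpos := Real.Gamma_pos_of_pos hx
  rw [digamma_def, logDeriv_apply, ← h4, Complex.Gamma_ofReal, psiR]
  have h5 : deriv (Real.log ∘ Real.Gamma) x = deriv Real.Gamma x / Real.Gamma x := by
    have := (Real.hasDerivAt_log hpos.ne').comp x hG.hasDerivAt
    rw [this.deriv]; field_simp
  rw [h5]; push_cast; rfl

theorem psiR_mono : MonotoneOn psiR (Ioi 0) :=
  Real.convexOn_log_Gamma.monotoneOn_deriv fun _ hx => differentiableAt_logGamma hx

theorem psiR_add_one {x : ℝ} (hx : 0 < x) : psiR (x + 1) = psiR x + x⁻¹ := by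
  have h1 := Complex.digamma_apply_add_one (x : ℂ) fun m h => by
    have h1 := congrArg Complex.re h
    simp at h1
    have : (0 : ℝ) ≤ m := Nat.cast_nonneg m
    linarith
  rw [digamma_ofReal hx] at h1
  have h2 : ((x : ℂ) + 1) = ((x + 1 : ℝ) : ℂ) := by push_cast; rfl
  rw [h2, digamma_ofReal (by linarith)] at h1
  exact_mod_cast h1

theorem psiR_bounds {x : ℝ} (hx : 0 < x) : Real.log x - x⁻¹ ≤ psiR x ∧ psiR x ≤ Real.log x := by
  -- mean value theorem for log Γ on [x, x+1]
  have hd : ∀ y ∈ Icc x (x + 1), DifferentiableAt ℝ (Real.log ∘ Real.Gamma) y := fun y hy =>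
    differentiableAt_logGamma (hx.trans_le hy.1)
  obtain ⟨c, hc, hceq⟩ := exists_deriv_eq_slope (Real.log ∘ Real.Gamma) (a := x) (b := x + 1)
    (by linarith) (fun y hy => (hd y hy).continuousAt.continuousWithinAt)
    (fun y hy => (hd y (Ioo_subset_Icc_self hy)).differentiableWithinAt)
  have h1 : (Real.log ∘ Real.Gamma) (x + 1) - (Real.log ∘ Real.Gamma) x = Real.log x := by
    simp only [Function.comp_apply]
    rw [Real.Gamma_add_one hx.ne', Real.log_mul hx.ne' (Real.Gamma_pos_of_pos hx).ne']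
    ring
  rw [h1] at hceq
  have h2 : psiR c = Real.log x := by
    unfold psiR; rw [hceq]; simp
  have h3 : psiR x ≤ psiR c := psiR_mono hx (hx.trans hc.1) hc.1.le
  have h4 : psiR c ≤ psiR (x + 1) := psiR_mono (hx.trans hc.1) (by simp; linarith) hc.2.le
  rw [psiR_add_one hx] at h4
  constructor <;> linarith

/-- terms of the digamma series -/
def dt (s : ℂ) (n : ℕ) : ℂ := 1 / ((n : ℂ) + 1) - 1 / ((n : ℂ) + s)

theorem norm_nat_add (s : ℂ) (n : ℕ) :
    min s.re 1 * ((n : ℝ) + 1) ≤ ‖(n : ℂ) + s‖ := by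
  have h1 : (n : ℝ) + s.re ≤ ‖(n : ℂ) + s‖ := by
    have := re_le_norm ((n : ℂ) + s)
    simpa using this
  have h2 : min s.re 1 * ((n : ℝ) + 1) ≤ n + s.re := by
    have h3 := min_le_left s.re 1
    have h4 := min_le_right s.re 1
    have h5 : (0 : ℝ) ≤ n := Nat.cast_nonneg n
    nlinarith
  exact h2.trans h1

theorem norm_dt_le {s : ℂ} (hs : 0 < s.re) (n : ℕ) :
    ‖dt s n‖ ≤ ‖s - 1‖ / min s.re 1 * (1 / ((n : ℝ) + 1) ^ 2) := by
  have hm : 0 < min s.re 1 := lt_min hs one_pos
  have hn : (0 : ℝ) < (n : ℝ) + 1 := by positivity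
  have h1 := norm_nat_add s n
  have h2 : 0 < ‖(n : ℂ) + s‖ := lt_of_lt_of_le (by positivity) h1
  have h3 : (n : ℂ) + s ≠ 0 := norm_pos_iff.1 h2
  have h4 : (n : ℂ) + 1 ≠ 0 := by exact_mod_cast Nat.succ_ne_zero n
  have h5 : dt s n = (s - 1) / (((n : ℂ) + 1) * ((n : ℂ) + s)) := by
    unfold dt; field_simp; ring
  have h6 : ‖(n : ℂ) + 1‖ = (n : ℝ) + 1 := by
    have : ((n : ℂ) + 1) = (((n : ℝ) + 1 : ℝ) : ℂ) := by push_cast; rfl
    rw [this, norm_real, Real.norm_of_nonneg hn.le]
  rw [h5, norm_div, norm_mul, h6]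
  rw [div_mul_div_comm, mul_one]
  apply div_le_div_of_nonneg_left (norm_nonneg _) (by positivity)
  nlinarith

theorem summable_sq : Summable fun n : ℕ => 1 / ((n : ℝ) + 1) ^ 2 := by
  have := (summable_nat_add_iff 1).2 (Real.summable_one_div_nat_pow.2 (by norm_num : 1 < 2))
  simpa using this

theorem summable_dt {s : ℂ} (hs : 0 < s.re) : Summable (dt s) :=
  Summable.of_norm_bounded (summable_sq.mul_left _) (norm_dt_le hs)

theorem dt_diff {s : ℂ} (hs : 0 < s.re) (n : ℕ) : DifferentiableAt ℂ (fun s => dt s n) s := by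
  have h3 : (n : ℂ) + s ≠ 0 := by
    apply norm_pos_iff.1
    exact lt_of_lt_of_le (mul_pos (lt_min hs one_pos) (by positivity)) (norm_nat_add s n)
  unfold dt
  fun_prop (disch := exact h3)

theorem Dfun_diff {s : ℂ} (hs : 0 < s.re) : DifferentiableAt ℂ (fun s => ∑' n, dt s n) s := by
  set δ := s.re / 2 with hδ
  have hδ0 : 0 < δ := by positivity
  set U : Set ℂ := {w | δ < w.re} ∩ ball 0 (‖s‖ + 1) with hU
  have hUo : IsOpen U := (isOpen_lt continuous_const continuous_re).inter isOpen_ball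
  have hsU : s ∈ U := ⟨by simp only [mem_ofPred_eq]; linarith, by
    rw [mem_ball_zero_iff]; linarith⟩
  have hm : 0 < min δ 1 := lt_min hδ0 one_pos
  have := differentiableOn_tsum_of_summable_norm (u := fun n : ℕ =>
    (‖s‖ + 2) / min δ 1 * (1 / ((n : ℝ) + 1) ^ 2)) (F := fun n w => dt w n) (U := U)
    (summable_sq.mul_left _)
    (fun n w hw => (dt_diff (hδ0.trans hw.1) n).differentiableWithinAt) hUo ?_
  · exact this.differentiableAt (hUo.mem_nhds hsU)
  · intro n w hw
    refine (norm_dt_le (hδ0.trans hw.1) n).trans ?_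
    refine mul_le_mul_of_nonneg_right ?_ (by positivity)
    have h1 : ‖w - 1‖ ≤ ‖s‖ + 2 := by
      have h2 := norm_sub_le w 1
      have h3 := mem_ball_zero_iff.1 hw.2
      rw [norm_one] at h2
      linarith
    have h2 : min δ 1 ≤ min w.re 1 := min_le_min_right _ (le_of_lt hw.1)
    exact div_le_div₀ (by positivity) h1 hm h2

/-- real version of the series -/
theorem dt_ofReal (x : ℝ) (n : ℕ) : dt (x : ℂ) n = ((1 / ((n : ℝ) + 1) - 1 / ((n : ℝ) + x) : ℝ) : ℂ) := by
  unfold dt; push_cast; rfl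

def DR (x : ℝ) : ℝ := ∑' n : ℕ, (1 / ((n : ℝ) + 1) - 1 / ((n : ℝ) + x))

theorem summable_DR {x : ℝ} (hx : 0 < x) :
    Summable fun n : ℕ => (1 / ((n : ℝ) + 1) - 1 / ((n : ℝ) + x)) := by
  have h := summable_dt (s := (x : ℂ)) (by simpa using hx)
  rw [funext (dt_ofReal x)] at h
  exact Complex.summable_ofReal.1 h

theorem DR_mono {x y : ℝ} (hx : 0 < x) (hxy : x ≤ y) : DR x ≤ DR y := by
  refine (summable_DR hx).tsum_le_tsum (fun n => ?_) (summable_DR (hx.trans_le hxy))
  have h1 : (0 : ℝ) ≤ n := Nat.cast_nonneg n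
  have : 1 / ((n : ℝ) + y) ≤ 1 / ((n : ℝ) + x) :=
    one_div_le_one_div_of_le (by linarith) (by linarith)
  linarith

theorem DR_add_one {x : ℝ} (hx : 0 < x) : DR (x + 1) = DR x + x⁻¹ := by
  have h1 : HasSum (fun n : ℕ => (1 / ((n : ℝ) + x) - 1 / ((n : ℝ) + (x + 1)))) (x⁻¹) := by
    have h2 : Summable (fun n : ℕ => (1 / ((n : ℝ) + x) - 1 / ((n : ℝ) + (x + 1)))) := by
      refine ((summable_DR (by linarith : 0 < x + 1)).sub (summable_DR hx)).congr fun n => ?_
      ring
    have h3 : Tendsto (fun N : ℕ => ∑ n ∈ Finset.range N,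
        (1 / ((n : ℝ) + x) - 1 / ((n : ℝ) + (x + 1)))) atTop (𝓝 (x⁻¹)) := by
      have h4 : ∀ N : ℕ, ∑ n ∈ Finset.range N, (1 / ((n : ℝ) + x) - 1 / ((n : ℝ) + (x + 1))) =
          x⁻¹ - 1 / ((N : ℝ) + x) := by
        intro N
        have := Finset.sum_range_sub' (fun n : ℕ => 1 / ((n : ℝ) + x)) N
        simp only [Nat.cast_zero, zero_add] at this
        rw [← one_div, ← this]
        refine Finset.sum_congr rfl fun n _ => ?_
        push_cast
        rw [add_assoc, add_comm 1 x]
      simp_rw [h4]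
      have h5 : Tendsto (fun N : ℕ => 1 / ((N : ℝ) + x)) atTop (𝓝 0) := by
        have : Tendsto (fun N : ℕ => (N : ℝ) + x) atTop atTop :=
          tendsto_atTop_add_const_right _ _ tendsto_natCast_atTop_atTop
        have h6 := this.inv_tendsto_atTop
        refine h6.congr fun N => ?_
        simp
      simpa using h5.const_sub (x⁻¹)
    have := h2.hasSum.tendsto_sum_nat
    rw [← tendsto_nhds_unique this h3]
    exact h2.hasSum
  have h2 := (summable_DR hx).hasSum.add h1
  unfold DR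
  rw [← h2.tsum_eq]
  refine tsum_congr fun n => ?_
  ring

theorem psi_eq_real {x : ℝ} (hx : 0 < x) : psiR x = DR x - Real.eulerMascheroniConstant := by
  set p : ℝ → ℝ := fun x => psiR x - DR x with hp
  have hper : ∀ x, 0 < x → p (x + 1) = p x := by
    intro x hx
    simp only [hp]; rw [psiR_add_one hx, DR_add_one hx]; ring
  have hpern : ∀ (n : ℕ) x, 0 < x → p (x + n) = p x := by
    intro n
    induction n with
    | zero => intro x _; simp
    | succ n ih =>
      intro x hx
      rw [← ih x hx, ← hper (x + n) (by positivity)]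
      congr 1; push_cast; ring
  have h1 : p 1 = -Real.eulerMascheroniConstant := by
    have h2 : DR 1 = 0 := by
      unfold DR
      have : (fun n : ℕ => (1 / ((n : ℝ) + 1) - 1 / ((n : ℝ) + 1))) = fun _ => 0 := by
        funext n; ring
      rw [this]; exact tsum_zero
    have h3 := digamma_ofReal one_pos
    rw [ofReal_one, Complex.digamma_one] at h3
    simp only [hp]
    rw [h2, sub_zero]
    have h4 : ((-Real.eulerMascheroniConstant : ℝ) : ℂ) = (psiR 1 : ℂ) := by
      push_cast; exact h3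
    exact_mod_cast h4.symm
  have hN : ∀ N : ℕ, 1 ≤ N → p N = p 1 := by
    intro N hN
    have := hpern (N - 1) 1 one_pos
    rw [← this]
    congr 1
    rw [Nat.cast_sub hN]; push_cast; ring
  have hclose : ∀ N : ℕ, 1 ≤ N → ∀ y : ℝ, (N : ℝ) ≤ y → y ≤ N + 1 → |p y - p N| ≤ 2 / N := by
    intro N hN1 y h2 h3
    have hN0 : (0 : ℝ) < N := by exact_mod_cast hN1
    have hy0 : 0 < y := hN0.trans_le h2
    have a1 : psiR N ≤ psiR y := psiR_mono hN0 hy0 h2
    have a2 : psiR y ≤ psiR (N + 1) := psiR_mono hy0 (by simp; linarith) h3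
    rw [psiR_add_one hN0] at a2
    have b1 : DR N ≤ DR y := DR_mono hN0 h2
    have b2 : DR y ≤ DR (N + 1) := DR_mono hy0 h3
    rw [DR_add_one hN0] at b2
    rw [abs_le, div_eq_mul_inv]
    simp only [hp]
    have hinv : 0 < (N : ℝ)⁻¹ := by positivity
    constructor <;> nlinarith
  have hlim : |p x - p 1| ≤ 0 := by
    refine le_of_forall_pos_le_add fun ε hε => ?_
    obtain ⟨n, hn⟩ := exists_nat_gt (2 / ε)
    have hn0 : (0 : ℝ) < n := (by positivity : (0 : ℝ) < 2 / ε).trans hn
    set N : ℕ := ⌊x + n + 1⌋₊ with hNd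
    have hxn : 0 ≤ x + n + 1 := by positivity
    have c1 : (N : ℝ) ≤ x + n + 1 := Nat.floor_le hxn
    have c2 : x + n + 1 ≤ N + 1 := (Nat.lt_floor_add_one _).le
    have c3 : (n : ℝ) < N := by linarith
    have c4 : 1 ≤ N := by
      have : (0 : ℝ) < N := hn0.trans c3
      exact_mod_cast this
    have c5 := hclose N c4 (x + n + 1) c1 c2
    have c6 : p (x + n + 1) = p x := by
      rw [hper _ (by positivity), hpern n x hx]
    rw [c6, hN N c4] at c5
    refine c5.trans ?_
    rw [zero_add, div_le_iff₀ (hn0.trans c3)]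
    have : 2 < ε * n := by rwa [div_lt_iff₀ hε, mul_comm] at hn
    nlinarith
  have h5 : p x = p 1 := by
    have := abs_nonpos_iff.1 hlim
    linarith
  rw [h1] at h5
  simp only [hp] at h5
  linarith

theorem digamma_series {s : ℂ} (hs : 0 < s.re) :
    digamma s = (∑' n, dt s n) - Real.eulerMascheroniConstant := by
  set q : ℂ → ℂ := fun s => digamma s - ((∑' n, dt s n) - Real.eulerMascheroniConstant) with hq
  set U : Set ℂ := {w | 0 < w.re} with hU
  have hUo : IsOpen U := isOpen_lt continuous_const continuous_re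
  have hUc : IsPreconnected U := (convex_halfSpace_re_gt 0).isPreconnected
  have hdig : DifferentiableOn ℂ digamma U := by
    intro w hw
    have hw' : ∀ m : ℕ, w ≠ -m := fun m h => by
      have h1 := congrArg Complex.re h
      simp at h1
      have : (0 : ℝ) ≤ m := Nat.cast_nonneg m
      have hw2 : 0 < w.re := hw
      linarith
    have h1 : AnalyticAt ℂ Complex.Gamma w := by
      rw [Complex.analyticAt_iff_eventually_differentiableAt]
      filter_upwards [hUo.mem_nhds hw] with v hv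
      refine Complex.differentiableAt_Gamma _ fun m h => ?_
      have h1 := congrArg Complex.re h
      simp at h1
      have : (0 : ℝ) ≤ m := Nat.cast_nonneg m
      have hv2 : 0 < v.re := hv
      linarith
    exact (h1.deriv.differentiableAt.div h1.differentiableAt
      (Complex.Gamma_ne_zero hw')).differentiableWithinAt
  have hqd : DifferentiableOn ℂ q U := fun w hw =>
    ((hdig w hw).sub ((Dfun_diff hw).sub_const _).differentiableWithinAt)
  have hqa : AnalyticOnNhd ℂ q U := hqd.analyticOnNhd hUo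
  have h1U : (1 : ℂ) ∈ U := by simp [hU]
  have hfreq : ∃ᶠ z in 𝓝[≠] (1 : ℂ), q z = 0 := by
    have hreal : ∀ x : ℝ, 0 < x → q x = 0 := by
      intro x hx
      simp only [hq]
      rw [digamma_ofReal hx, psi_eq_real hx, DR]
      push_cast
      have : ∑' n : ℕ, dt (x : ℂ) n = ∑' n : ℕ, (1 / ((n : ℂ) + 1) - 1 / ((n : ℂ) + x)) := rfl
      rw [this]; ring
    have ht : Tendsto (fun n : ℕ => (((1 + 1 / ((n : ℝ) + 1) : ℝ)) : ℂ)) atTop (𝓝[≠] (1 : ℂ)) := by
      refine tendsto_nhdsWithin_iff.2 ⟨?_, Eventually.of_forall fun n => ?_⟩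
      · have h1 : Tendsto (fun n : ℕ => (1 + 1 / ((n : ℝ) + 1) : ℝ)) atTop (𝓝 (1 + 0)) :=
          tendsto_const_nhds.add tendsto_one_div_add_atTop_nhds_zero_nat
        rw [add_zero] at h1
        have h2 := (Complex.continuous_ofReal.tendsto 1).comp h1
        rw [ofReal_one] at h2
        exact h2
      · simp only [mem_compl_iff, mem_singleton_iff]
        intro h
        have h2 : (1 + 1 / ((n : ℝ) + 1) : ℝ) = 1 := by exact_mod_cast h
        have h3 : (0 : ℝ) < 1 / ((n : ℝ) + 1) := by positivity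
        linarith
    refine ht.frequently (Frequently.of_forall fun n => ?_)
    exact hreal _ (by positivity)
  have := hqa.eqOn_zero_of_preconnected_of_frequently_eq_zero hUc h1U hfreq hs
  simp only [hq, Pi.zero_apply] at this
  exact sub_eq_zero.1 this

theorem summable_inv_sq {x : ℝ} (hx : 1 ≤ x) :
    (Summable fun n : ℕ => 1 / ((n : ℝ) + x) ^ 2) ∧ ∑' n : ℕ, 1 / ((n : ℝ) + x) ^ 2 ≤ 2 / x := by
  have hpart : ∀ N : ℕ, ∑ n ∈ Finset.range N, 1 / ((n : ℝ) + x) ^ 2 ≤ 2 / x := by
    intro N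
    have h1 : ∑ n ∈ Finset.range N, 1 / ((n : ℝ) + x) ^ 2 ≤
        ∑ n ∈ Finset.range N, (2 / ((n : ℝ) + x) - 2 / (((n + 1 : ℕ) : ℝ) + x)) := by
      refine Finset.sum_le_sum fun n _ => ?_
      have hn : (0 : ℝ) ≤ n := Nat.cast_nonneg n
      push_cast
      have h2 : 0 < (n : ℝ) + x := by linarith
      have h3 : 0 < (n : ℝ) + 1 + x := by linarith
      rw [div_sub_div _ _ h2.ne' h3.ne', div_le_div_iff₀ (by positivity) (by positivity)]
      nlinarith
    refine h1.trans ?_
    rw [Finset.sum_range_sub' (fun n : ℕ => 2 / ((n : ℝ) + x)) N]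
    have : 0 ≤ 2 / ((N : ℝ) + x) := by positivity
    simp only [Nat.cast_zero, zero_add]
    linarith
  have hnn : ∀ n : ℕ, 0 ≤ 1 / ((n : ℝ) + x) ^ 2 := fun n => by positivity
  exact ⟨summable_of_sum_range_le hnn hpart, Real.tsum_le_of_sum_range_le hnn hpart⟩

theorem digamma_log {s : ℂ} (h1 : 1 / 4 ≤ s.re) (h2 : s.re ≤ 1) :
    ‖digamma s - Real.log (|s.im| + 1)‖ ≤ 33 := by
  set x := |s.im| + 1 with hx
  have hx1 : 1 ≤ x := by rw [hx]; linarith [abs_nonneg s.im]
  have hx0 : 0 < x := by linarith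
  have hs : 0 < s.re := by linarith
  have hbd : ∀ n : ℕ, ‖dt s n - dt (x : ℂ) n‖ ≤ 16 * x * (1 / ((n : ℝ) + x) ^ 2) := by
    intro n
    have hn : (0 : ℝ) ≤ n := Nat.cast_nonneg n
    have c1 : ‖(n : ℂ) + x‖ = n + x := by
      have : ((n : ℂ) + x) = (((n : ℝ) + x : ℝ) : ℂ) := by push_cast; rfl
      rw [this, norm_real, Real.norm_of_nonneg (by positivity)]
    have c2 : ((n : ℝ) + x) / 8 ≤ ‖(n : ℂ) + s‖ := by
      have d1 : (n : ℝ) + 1 / 4 ≤ ‖(n : ℂ) + s‖ := by
        have := re_le_norm ((n : ℂ) + s)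
        simp at this; linarith
      have d2 : |s.im| ≤ ‖(n : ℂ) + s‖ := by
        have := abs_im_le_norm ((n : ℂ) + s)
        simpa using this
      linarith [abs_nonneg s.im]
    have c3 : 0 < (n : ℝ) + x := by positivity
    have c4 : (n : ℂ) + x ≠ 0 := by rw [← norm_pos_iff, c1]; exact c3
    have c5 : (n : ℂ) + s ≠ 0 := by rw [← norm_pos_iff]; linarith
    have c6 : dt s n - dt (x : ℂ) n = (s - x) / (((n : ℂ) + x) * ((n : ℂ) + s)) := by
      unfold dt; field_simp; ring
    have c7 : ‖s - x‖ ≤ 2 * x := by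
      have d1 := norm_le_abs_re_add_abs_im (s - x)
      have d2 : |(s - x).re| ≤ x := by
        simp only [sub_re, ofReal_re]
        rw [abs_le]; constructor <;> linarith
      have d3 : |(s - x).im| ≤ x := by
        simp only [sub_im, ofReal_im, sub_zero]; linarith
      linarith
    rw [c6, norm_div, norm_mul, c1, div_le_iff₀ (by positivity)]
    calc ‖s - x‖ ≤ 2 * x := c7
      _ = 16 * x * (1 / ((n : ℝ) + x) ^ 2) * (((n : ℝ) + x) * (((n : ℝ) + x) / 8)) := by
          field_simp; ring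
      _ ≤ _ := by gcongr
  have h3 : digamma s - digamma x = ∑' n, (dt s n - dt (x : ℂ) n) := by
    rw [digamma_series hs, digamma_series (s := (x : ℂ)) (by simpa using hx0),
      (summable_dt hs).tsum_sub (summable_dt (by simpa using hx0))]
    ring
  obtain ⟨h4, h5⟩ := summable_inv_sq hx1
  have h6 : ‖digamma s - digamma x‖ ≤ 32 := by
    rw [h3]
    refine (tsum_of_norm_bounded (h4.mul_left (16 * x)).hasSum hbd).trans ?_
    rw [tsum_mul_left]
    calc 16 * x * ∑' n : ℕ, 1 / ((n : ℝ) + x) ^ 2 ≤ 16 * x * (2 / x) := by gcongr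
      _ = 32 := by field_simp; norm_num
  have h7 : ‖digamma (x : ℂ) - Real.log x‖ ≤ 1 := by
    rw [digamma_ofReal hx0, ← ofReal_sub, norm_real, Real.norm_eq_abs, abs_le]
    obtain ⟨a, b⟩ := psiR_bounds hx0
    have : x⁻¹ ≤ 1 := inv_le_one_of_one_le₀ hx1
    constructor <;> linarith
  calc ‖digamma s - Real.log x‖ = ‖(digamma s - digamma x) + (digamma (x : ℂ) - Real.log x)‖ := by
        ring_nf
    _ ≤ 32 + 1 := (norm_add_le _ _).trans (add_le_add h6 h7)
    _ = 33 := by norm_num

end Pool.Agent.helper30.LR
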