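import Pool.Agent.helper30.LR.Shift

noncomputable section

namespace Pool.Agent.helper30.LR

open Complex MeasureTheory Set Filter Topology ArithmeticFunction

theorem digamma_diff {s : ℂ} (hs : 0 < s.re) : DifferentiableAt ℂ digamma s := by
  have hd : ∀ s : ℂ, 0 < s.re → DifferentiableAt ℂ Complex.Gamma s := fun s hs =>
    Complex.differentiableAt_Gamma _ fun m h => by
      have h1 := congrArg Complex.re h
      simp at h1
      have : (0 : ℝ) ≤ m := Nat.cast_nonneg m
      linarith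
  have ha : AnalyticAt ℂ Complex.Gamma s := by
    rw [Complex.analyticAt_iff_eventually_differentiableAt]
    filter_upwards [(isOpen_lt continuous_const continuous_re).mem_nhds hs] with w hw using hd w hw
  rw [digamma_def]
  exact ha.deriv.differentiableAt.div ha.differentiableAt (Complex.Gamma_ne_zero_of_re_pos hs)

/-- the archimedean density -/
def gg (t : ℝ) : ℝ := -Real.log Real.pi + (digamma (1 / 4 + t / 2 * I)).re

theorem gg_continuous : Continuous gg := by
  unfold gg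
  refine continuous_const.add (continuous_re.comp ?_)
  rw [continuous_iff_continuousAt]
  intro t
  have : ContinuousAt digamma (1 / 4 + t / 2 * I) := (digamma_diff (by simp)).continuousAt
  exact ContinuousAt.comp (f := fun t : ℝ => (1 / 4 + t / 2 * I : ℂ)) this (by fun_prop)

theorem log_pi_le : |Real.log Real.pi| ≤ 2 := by
  have h1 : 0 ≤ Real.log Real.pi := Real.log_nonneg (by linarith [Real.pi_gt_three])
  rw [abs_of_nonneg h1]
  have h2 : Real.log Real.pi ≤ Real.log (Real.exp 2) := by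
    refine Real.log_le_log Real.pi_pos ?_
    have h3 := Real.add_one_le_exp (1 : ℝ)
    have h4 : Real.exp 2 = Real.exp 1 * Real.exp 1 := by rw [← Real.exp_add]; norm_num
    have h5 := Real.pi_lt_four
    nlinarith
  rwa [Real.log_exp] at h2

theorem log_half (t : ℝ) : |Real.log (|t / 2| + 1) - Real.log (|t| + 1)| ≤ 1 := by
  have h0 : 0 ≤ |t| := abs_nonneg t
  have e : |t / 2| = |t| / 2 := by rw [abs_div, abs_two]
  rw [e, ← Real.log_div (by positivity) (by positivity), abs_le]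
  have hpos : 0 < (|t| / 2 + 1) / (|t| + 1) := by positivity
  constructor
  · have h1 : (1 : ℝ) / 2 ≤ (|t| / 2 + 1) / (|t| + 1) := by
      rw [div_le_div_iff₀ two_pos (by positivity)]; linarith
    have h2 := Real.log_le_log (by norm_num) h1
    have h3 : Real.log (1 / 2) = - Real.log 2 := by rw [one_div, Real.log_inv]
    have h4 := Real.log_two_lt_d9
    linarith
  · have h1 : (|t| / 2 + 1) / (|t| + 1) ≤ 1 := by
      rw [div_le_one (by positivity)]; linarith
    have h2 := Real.log_nonpos hpos.le h1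
    linarith

theorem gg_log (t : ℝ) : |gg t - Real.log (|t| + 1)| ≤ 36 := by
  have h1 := digamma_log (s := 1 / 4 + t / 2 * I) (by simp) (by simp; norm_num)
  have him : (1 / 4 + t / 2 * I : ℂ).im = t / 2 := by simp
  rw [him] at h1
  have h2 := (abs_re_le_norm _).trans h1
  rw [sub_re, ofReal_re] at h2
  have h3 := log_pi_le
  have h4 := log_half t
  unfold gg
  rw [abs_le] at *
  constructor <;> linarith [h2.1, h2.2, h3.1, h3.2, h4.1, h4.2]

theorem GG_bound {z : ℂ} (h0 : 0 ≤ z.re) (h1 : z.re ≤ 1) :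
    ‖GG (1 / 2 + z)‖ ≤ 19 * (1 + z.im ^ 2) ^ 2 := by
  have hre : ((1 / 2 + z) / 2).re = (1 / 2 + z.re) / 2 := by simp
  have him : ((1 / 2 + z) / 2).im = z.im / 2 := by simp
  have h2 := digamma_log (s := (1 / 2 + z) / 2) (by rw [hre]; linarith) (by rw [hre]; linarith)
  rw [him] at h2
  have h3 := log_pi_le
  have h4 : ‖digamma ((1 / 2 + z) / 2)‖ ≤ 33 + |z.im / 2| := by
    have h5 := norm_le_norm_add_norm_sub' (digamma ((1 / 2 + z) / 2))
      ((Real.log (|z.im / 2| + 1) : ℝ) : ℂ)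
    rw [Complex.norm_real, Real.norm_eq_abs] at h5
    have h6 : Real.log (|z.im / 2| + 1) ≤ |z.im / 2| := by
      have := Real.log_le_sub_one_of_pos (x := |z.im / 2| + 1) (by positivity)
      linarith
    have h7 : 0 ≤ Real.log (|z.im / 2| + 1) := Real.log_nonneg (by linarith [abs_nonneg (z.im / 2)])
    rw [abs_of_nonneg h7] at h5
    linarith
  unfold GG
  have h5 := norm_add_le (-(Real.log Real.pi : ℂ) / 2) (digamma ((1 / 2 + z) / 2) / 2)
  have h6 : ‖(-(Real.log Real.pi : ℂ) / 2)‖ ≤ 1 := by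
    rw [norm_div, norm_neg, Complex.norm_real, Real.norm_eq_abs, Complex.norm_ofNat]
    linarith
  have h7 : ‖digamma ((1 / 2 + z) / 2) / 2‖ ≤ (33 + |z.im / 2|) / 2 := by
    rw [norm_div, Complex.norm_ofNat]
    linarith
  have h8 : |z.im / 2| ≤ 1 + z.im ^ 2 := by
    rw [abs_div, abs_two, ← sq_abs z.im]
    nlinarith [sq_nonneg (|z.im| - 1), abs_nonneg z.im]
  nlinarith [sq_nonneg z.im, sq_nonneg (z.im ^ 2)]

theorem GG_diff {z : ℂ} (h0 : 0 ≤ z.re) : DifferentiableAt ℂ (fun z => GG (1 / 2 + z)) z := by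
  unfold GG
  have h1 : DifferentiableAt ℂ digamma ((1 / 2 + z) / 2) :=
    digamma_diff (by simp; linarith)
  have h2 : DifferentiableAt ℂ (fun z : ℂ => digamma ((1 / 2 + z) / 2)) z :=
    DifferentiableAt.comp (f := fun z : ℂ => (1 / 2 + z) / 2) z h1 (by fun_prop)
  exact (h2.div_const 2).const_add _

theorem ph_I (H x t : ℝ) : ph H x (t * I) =
    ((Real.exp (-(t ^ 2 / H ^ 2)) * Real.cos (x * t) : ℝ) : ℂ) := by
  rw [ph, ← mul_assoc, Complex.cosh_mul_I]
  push_cast
  rw [mul_pow, I_sq]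
  congr 2
  ring

theorem G_shift {H : ℝ} (hH : 0 < H) (x : ℝ) :
    Integrable (fun t : ℝ => GG (1 / 2 + (1 + t * I)) * ph H x (1 + t * I)) ∧
    Integrable (fun t : ℝ => GG (1 / 2 + t * I) * ph H x (t * I)) ∧
    ∫ t : ℝ, GG (1 / 2 + (1 + t * I)) * ph H x (1 + t * I) =
      ∫ t : ℝ, GG (1 / 2 + t * I) * ph H x (t * I) := by
  refine shift (F := fun z => GG (1 / 2 + z) * ph H x z)
    (C := 19 * ((1 + 2 / (1 / (2 * H ^ 2))) ^ 2 * Real.exp (1 / H ^ 2 + |x|)))
    (c := 1 / (2 * H ^ 2)) ?_ (by positivity) ?_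
  · intro z h0 h1
    refine (GG_diff h0).mul ?_
    unfold ph
    fun_prop
  · intro z h0 h1
    rw [norm_mul]
    have h2 := GG_bound h0 h1
    have h3 := ph_poly hH x (z := z) (by rw [abs_of_nonneg h0]; exact h1)
    calc _ ≤ (19 * (1 + z.im ^ 2) ^ 2) * ‖ph H x z‖ := by gcongr
      _ = 19 * ((1 + z.im ^ 2) ^ 2 * ‖ph H x z‖) := by ring
      _ ≤ 19 * ((1 + 2 / (1 / (2 * H ^ 2))) ^ 2 * Real.exp (1 / H ^ 2 + |x|) *
        Real.exp (-(1 / (2 * H ^ 2) * z.im ^ 2))) := by gcongr
      _ = _ := by ring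

theorem GG_re (t : ℝ) : (GG (1 / 2 + t * I)).re = gg t / 2 := by
  unfold GG gg
  rw [show ((1 / 2 + t * I) / 2 : ℂ) = 1 / 4 + t / 2 * I by ring, add_re, div_ofNat_re,
    div_ofNat_re, neg_re, ofReal_re]
  ring

theorem L_continuous : Continuous fun t : ℝ =>
    LSeries (fun n => (vonMangoldt n : ℂ)) (1 / 2 + (1 + t * I)) := by
  unfold LSeries
  simp_rw [term_eq]
  refine continuous_tsum (u := fun n : ℕ => vonMangoldt n / Real.sqrt n *
    Real.exp (-Real.log n)) (fun n => by fun_prop) summable_mangoldt fun n t => ?_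
  rw [norm_mul, Complex.norm_real, Complex.norm_exp, ← ofReal_neg, re_ofReal_mul]
  have h2 : 0 ≤ vonMangoldt n / Real.sqrt n := by
    have := vonMangoldt_nonneg (n := n)
    positivity
  rw [Real.norm_of_nonneg h2]
  simp

theorem L_bound {z : ℂ} (hz : z.re = 1) :
    ‖LSeries (fun n => (vonMangoldt n : ℂ)) (1 / 2 + z)‖ ≤
      ∑' n : ℕ, vonMangoldt n / Real.sqrt n * Real.exp (-Real.log n) := by
  unfold LSeries
  simp_rw [term_eq]
  refine tsum_of_norm_bounded summable_mangoldt.hasSum fun n => ?_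
  rw [norm_mul, Complex.norm_real, Complex.norm_exp, ← ofReal_neg, re_ofReal_mul, hz, mul_one]
  have h2 : 0 ≤ vonMangoldt n / Real.sqrt n := by
    have := vonMangoldt_nonneg (n := n)
    positivity
  rw [Real.norm_of_nonneg h2]

theorem L_integrable {H : ℝ} (hH : 0 < H) (x : ℝ) :
    Integrable fun t : ℝ => LSeries (fun n => (vonMangoldt n : ℂ)) (1 / 2 + (1 + t * I)) *
      ph H x (1 + t * I) := by
  refine ((ph_line_integrable hH x).norm.const_mul
    (∑' n : ℕ, vonMangoldt n / Real.sqrt n * Real.exp (-Real.log n))).mono' ?_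
    (Eventually.of_forall fun t => ?_)
  · refine (L_continuous.mul ?_).aestronglyMeasurable
    have := ph_continuous H x
    fun_prop
  · rw [norm_mul]
    have := L_bound (z := 1 + t * I) (by simp)
    gcongr

/-- **explicit formula** -/
theorem explicit (hRH : RiemannHypothesis) {H : ℝ} (hH : 0 < H) (x : ℝ) :
    HasSum (fun γ : ℝ => (mult γ : ℝ) * (Real.exp (-(γ ^ 2 / H ^ 2)) * Real.cos (x * γ)))
      (2 * Real.exp (1 / (4 * H ^ 2)) * Real.cosh (x / 2) +
        1 / (2 * Real.pi) * (∫ t : ℝ, Real.exp (-(t ^ 2 / H ^ 2)) * Real.cos (x * t) * gg t) -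
        ∑' n : ℕ, vonMangoldt n / Real.sqrt n * (2 * kk H x (Real.log n))) := by
  have h1 := hasSum_zeros hRH hH x
  obtain ⟨iG1, iG0, hG⟩ := G_shift hH x
  obtain ⟨iP, hP⟩ := J_pf hH x (b := 1 / 2) (by norm_num)
  have iL := L_integrable hH x
  have hsp := hasSum_primes hH x
  have hdec : ∀ t : ℝ, logDeriv xi (1 + t * I) * ph H x (1 + t * I) =
      2 * (((1 + t * I) / ((1 + t * I) ^ 2 - (1 / 2) ^ 2)) * ph H x (1 + t * I)) +
      GG (1 / 2 + (1 + t * I)) * ph H x (1 + t * I) -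
      LSeries (fun n => (vonMangoldt n : ℂ)) (1 / 2 + (1 + t * I)) * ph H x (1 + t * I) := by
    intro t
    rw [logDeriv_xi (z := 1 + t * I) (by norm_num)]
    have h2 : (1 : ℂ) / (1 / 2 + (1 + t * I)) + 1 / ((1 + t * I) - 1 / 2) =
        2 * ((1 + t * I) / ((1 + t * I) ^ 2 - (1 / 2) ^ 2)) := by
      have h3 : (1 / 2 + (1 + t * I) : ℂ) ≠ 0 := fun h => by
        have := congrArg Complex.re h
        norm_num at this
      have h4 : ((1 + t * I) - 1 / 2 : ℂ) ≠ 0 := fun h => by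
        have := congrArg Complex.re h
        norm_num at this
      have h5 : ((1 + t * I) ^ 2 - (1 / 2) ^ 2 : ℂ) =
          (1 / 2 + (1 + t * I)) * ((1 + t * I) - 1 / 2) := by ring
      rw [h5]
      generalize hu : (1 / 2 + (1 + t * I) : ℂ) = u at h3 ⊢
      generalize hv : ((1 + t * I) - 1 / 2 : ℂ) = v at h4 ⊢
      have h6 : (1 + t * I : ℂ) = (u + v) / 2 := by rw [← hu, ← hv]; ring
      rw [h6]
      field_simp
      ring
    rw [h2]; ring
  simp_rw [hdec] at h1
  have j1 : Integrable (fun t : ℝ =>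
      2 * (((1 + t * I) / ((1 + t * I) ^ 2 - (1 / 2) ^ 2)) * ph H x (1 + t * I)) +
      GG (1 / 2 + (1 + t * I)) * ph H x (1 + t * I)) := (iP.const_mul 2).add iG1
  rw [integral_sub j1 iL, integral_add (iP.const_mul 2) iG1, integral_const_mul, hP, hG,
    ← hsp.tsum_eq] at h1
  have h2 := (Complex.reCLM.hasSum h1).mul_left (1 / Real.pi)
  have hpi := Real.pi_ne_zero
  have e1 : (fun i : ℝ => 1 / Real.pi * reCLM ((mult i : ℂ) * (Real.pi * ph H x (i * I)))) =
      fun γ : ℝ => (mult γ : ℝ) * (Real.exp (-(γ ^ 2 / H ^ 2)) * Real.cos (x * γ)) := by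
    funext γ
    have e : (mult γ : ℂ) * (Real.pi * ph H x (γ * I)) =
        ((mult γ * (Real.pi * (Real.exp (-(γ ^ 2 / H ^ 2)) * Real.cos (x * γ))) : ℝ) : ℂ) := by
      rw [ph_I]; push_cast; ring
    rw [e, reCLM_apply, ofReal_re]
    field_simp
  have e2 : (1 / Real.pi * reCLM
        ((2 * (Real.pi * ph H x (1 / 2)) + ∫ t : ℝ, GG (1 / 2 + t * I) * ph H x (t * I)) -
          ∑' n : ℕ, ((vonMangoldt n / Real.sqrt n : ℝ) : ℂ) *
            ((2 * Real.pi * kk H x (Real.log n) : ℝ) : ℂ))) =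
      (2 * Real.exp (1 / (4 * H ^ 2)) * Real.cosh (x / 2) +
        1 / (2 * Real.pi) * (∫ t : ℝ, Real.exp (-(t ^ 2 / H ^ 2)) * Real.cos (x * t) * gg t) -
        ∑' n : ℕ, vonMangoldt n / Real.sqrt n * (2 * kk H x (Real.log n))) := by
    have a1 : (2 * (Real.pi * ph H x (1 / 2)) : ℂ) =
        ((2 * (Real.pi * (Real.exp (1 / (4 * H ^ 2)) * Real.cosh (x / 2))) : ℝ) : ℂ) := by
      rw [ph]
      push_cast
      congr 3
      · congr 1; ring
      · congr 1; ring
    have a2 : reCLM (∫ t : ℝ, GG (1 / 2 + t * I) * ph H x (t * I)) =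
        1 / 2 * ∫ t : ℝ, Real.exp (-(t ^ 2 / H ^ 2)) * Real.cos (x * t) * gg t := by
      rw [← reCLM.integral_comp_comm iG0, ← integral_const_mul]
      refine integral_congr_ae (Eventually.of_forall fun t => ?_)
      simp only
      rw [ph_I, reCLM_apply, mul_comm (GG _), re_ofReal_mul, GG_re]
      ring
    have a3 : (∑' n : ℕ, ((vonMangoldt n / Real.sqrt n : ℝ) : ℂ) *
            ((2 * Real.pi * kk H x (Real.log n) : ℝ) : ℂ)) =
        ((Real.pi * ∑' n : ℕ, vonMangoldt n / Real.sqrt n * (2 * kk H x (Real.log n)) : ℝ) : ℂ) := by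
      rw [← tsum_mul_left, Complex.ofReal_tsum]
      refine tsum_congr fun n => ?_
      push_cast
      ring
    rw [map_sub, map_add, a1, a3, a2, reCLM_apply, reCLM_apply, ofReal_re, ofReal_re]
    field_simp
  rw [e1, e2] at h2
  exact h2

end Pool.Agent.helper30.LR
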