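import Mathlib

/-!
# Extracting zeros of an entire function
-/

noncomputable section

namespace Pool.Agent.helper30.LR

open Complex Metric Filter Topology Set

/-- `f = ∏_{a ∈ S} (1 - z/a) * E` with `E` entire -/
def Fac (f : ℂ → ℂ) (S : Multiset ℂ) (E : ℂ → ℂ) : Prop :=
  Differentiable ℂ E ∧ ∀ z, f z = (S.map (fun a => 1 - z / a)).prod * E z

theorem Fac.step {f E : ℂ → ℂ} {S : Multiset ℂ} (h : Fac f S E) {a : ℂ} (ha : a ≠ 0)
    (hE : E a = 0) : ∃ E', Fac f (a ::ₘ S) E' := by
  refine ⟨fun z => -a * dslope E a z, ?_, fun z => ?_⟩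
  · have : DifferentiableOn ℂ (dslope E a) univ :=
      (Complex.differentiableOn_dslope univ_mem).2 h.1.differentiableOn
    exact (differentiable_const _).mul (differentiableOn_univ.1 this)
  · rw [h.2 z, Multiset.map_cons, Multiset.prod_cons]
    have h1 : (z - a) * dslope E a z = E z := by
      have := sub_smul_dslope E a z
      rw [hE, sub_zero] at this
      exact this
    rw [← h1]
    field_simp
    ring

theorem prod_norm_ge (S : Multiset ℂ) (R : ℝ) (hS : ∀ a ∈ S, ‖a‖ ≤ R ∧ a ≠ 0)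
    (z : ℂ) (hz : ‖z‖ = 3 * R) : (2 : ℝ) ^ S.card ≤ ‖(S.map (fun a => 1 - z / a)).prod‖ := by
  induction S using Multiset.induction_on with
  | empty => simp
  | cons a S ih =>
    rw [Multiset.map_cons, Multiset.prod_cons, norm_mul, Multiset.card_cons, pow_succ, mul_comm]
    obtain ⟨h1, h2⟩ := hS a (Multiset.mem_cons_self a S)
    have h3 : 0 < ‖a‖ := norm_pos_iff.2 h2
    have h4 : 2 ≤ ‖1 - z / a‖ := by
      have h5 : 3 ≤ ‖z / a‖ := by
        rw [norm_div, hz, le_div_iff₀ h3]; nlinarith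
      have h6 := norm_sub_norm_le (z / a) 1
      rw [norm_one, norm_sub_rev] at h6
      linarith
    exact mul_le_mul h4 (ih fun b hb => hS b (Multiset.mem_cons_of_mem hb)) (by positivity)
      (norm_nonneg _)

theorem Fac.bound {f E : ℂ → ℂ} {S : Multiset ℂ} (h : Fac f S E) {R M : ℝ} (hR : 0 < R)
    (hS : ∀ a ∈ S, ‖a‖ ≤ R ∧ a ≠ 0) (hM : ∀ z, ‖z‖ = 3 * R → ‖f z‖ ≤ M) {z : ℂ}
    (hz : ‖z‖ ≤ 3 * R) : ‖E z‖ ≤ M / 2 ^ S.card := by
  refine Complex.norm_le_of_forall_mem_frontier_norm_le (U := ball 0 (3 * R)) isBounded_ball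
    h.1.diffContOnCl (fun w hw => ?_) (z := z) ?_
  · rw [frontier_ball _ (by positivity), mem_sphere_zero_iff_norm] at hw
    have h1 := prod_norm_ge S R hS w hw
    have h2 := hM w hw
    rw [h.2 w, norm_mul] at h2
    rw [le_div_iff₀ (by positivity)]
    calc ‖E w‖ * 2 ^ S.card ≤ ‖E w‖ * ‖(S.map (fun a => 1 - w / a)).prod‖ :=
          mul_le_mul_of_nonneg_left h1 (norm_nonneg _)
      _ ≤ M := by rw [mul_comm]; exact h2
  · rw [closure_ball _ (by positivity)]
    exact mem_closedBall_zero_iff.2 hz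

theorem Fac.at_zero {f E : ℂ → ℂ} {S : Multiset ℂ} (h : Fac f S E) : E 0 = f 0 := by
  rw [h.2 0]; simp

theorem Fac.card_bound {f E : ℂ → ℂ} {S : Multiset ℂ} (h : Fac f S E) {R M : ℝ} (hR : 0 < R)
    (hS : ∀ a ∈ S, ‖a‖ ≤ R ∧ a ≠ 0) (hM : ∀ z, ‖z‖ = 3 * R → ‖f z‖ ≤ M) :
    2 ^ S.card * ‖f 0‖ ≤ M := by
  have := h.bound hR hS hM (z := 0) (by simp; positivity)
  rw [h.at_zero, le_div_iff₀ (by positivity)] at this
  rw [mul_comm]; exact this

theorem exists_fac {f : ℂ → ℂ} (hf : Differentiable ℂ f) (h0 : f 0 ≠ 0) {R : ℝ} (hR : 0 < R) :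
    ∃ S E, Fac f S E ∧ (∀ a ∈ S, ‖a‖ ≤ R ∧ a ≠ 0) ∧ ∀ z, ‖z‖ ≤ R → E z ≠ 0 := by
  by_contra hcon
  push Not at hcon
  have key : ∀ n : ℕ, ∃ S E, Fac f S E ∧ (∀ a ∈ S, ‖a‖ ≤ R ∧ a ≠ 0) ∧ S.card = n := by
    intro n
    induction n with
    | zero => exact ⟨0, f, ⟨hf, fun z => by simp⟩, by simp, rfl⟩
    | succ n ih =>
      obtain ⟨S, E, h1, h2, h3⟩ := ih
      obtain ⟨z, hz, hEz⟩ := hcon S E h1 h2
      have hz0 : z ≠ 0 := by
        rintro rfl
        rw [h1.at_zero] at hEz
        exact h0 hEz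
      obtain ⟨E', hE'⟩ := h1.step hz0 hEz
      refine ⟨z ::ₘ S, E', hE', fun a ha => ?_, by rw [Multiset.card_cons, h3]⟩
      rcases Multiset.mem_cons.1 ha with rfl | ha
      · exact ⟨hz, hz0⟩
      · exact h2 a ha
  obtain ⟨M, hM⟩ : ∃ M, ∀ z, ‖z‖ = 3 * R → ‖f z‖ ≤ M := by
    obtain ⟨M, hM⟩ := (isCompact_sphere (0 : ℂ) (3 * R)).exists_bound_of_continuousOn
      hf.continuous.continuousOn
    exact ⟨M, fun z hz => hM z (by simpa using hz)⟩
  have hpos : 0 < ‖f 0‖ := norm_pos_iff.2 h0
  obtain ⟨n, hn⟩ := pow_unbounded_of_one_lt (M / ‖f 0‖) (one_lt_two)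
  obtain ⟨S, E, h1, h2, h3⟩ := key n
  have := h1.card_bound hR h2 hM
  rw [h3] at this
  rw [div_lt_iff₀ hpos] at hn
  linarith

theorem order_linear (a b : ℂ) (hb : b ≠ 0) :
    analyticOrderAt (fun z => 1 - z / b) a = if a = b then 1 else 0 := by
  split_ifs with h
  · subst h
    have han : AnalyticAt ℂ (fun z : ℂ => 1 - z / a) a := by fun_prop
    have : ((1 : ℕ) : ℕ∞) = 1 := rfl
    rw [← this, han.analyticOrderAt_eq_natCast]
    refine ⟨fun _ => -1 / a, by fun_prop, by simpa using hb, Eventually.of_forall fun z => ?_⟩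
    change 1 - z / a = (z - a) ^ 1 • (-1 / a)
    rw [pow_one, smul_eq_mul]
    field_simp
    ring
  · have han : AnalyticAt ℂ (fun z : ℂ => 1 - z / b) a := by fun_prop
    rw [han.analyticOrderAt_eq_zero, sub_ne_zero, ne_comm, Ne, div_eq_one_iff_eq hb]
    exact h

theorem order_prod (S : Multiset ℂ) (hS : ∀ b ∈ S, b ≠ 0) (a : ℂ) :
    analyticOrderAt (fun z => (S.map (fun b => 1 - z / b)).prod) a = S.count a := by
  induction S using Multiset.induction_on with
  | empty =>
    simp only [Multiset.map_zero, Multiset.prod_zero, Multiset.count_zero, Nat.cast_zero]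
    rw [(analyticAt_const).analyticOrderAt_eq_zero]
    exact one_ne_zero
  | cons b S ih =>
    have e : (fun z : ℂ => ((b ::ₘ S).map (fun b => 1 - z / b)).prod) =
        (fun z => 1 - z / b) * fun z => (S.map (fun b => 1 - z / b)).prod := by
      funext z; simp
    have han : AnalyticAt ℂ (fun z => (S.map (fun b => 1 - z / b)).prod) a := by
      have : Differentiable ℂ fun z => (S.map (fun b => 1 - z / b)).prod := by
        clear ih e hS
        induction S using Multiset.induction_on with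
        | empty => simp
        | cons c S ih =>
          simp only [Multiset.map_cons, Multiset.prod_cons]
          exact (by fun_prop : Differentiable ℂ fun z : ℂ => 1 - z / c).mul ih
      exact this.analyticAt a
    rw [e, analyticOrderAt_mul (by fun_prop) han, order_linear a b (hS b (by simp)),
      ih fun c hc => hS c (by simp [hc]), Multiset.count_cons]
    split_ifs <;> simp [add_comm]

theorem Fac.order {f E : ℂ → ℂ} {S : Multiset ℂ} (h : Fac f S E) {a : ℂ}
    (hS : ∀ b ∈ S, b ≠ 0) (hE : E a ≠ 0) : analyticOrderNatAt f a = S.count a := by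
  have e : f = (fun z => (S.map (fun b => 1 - z / b)).prod) * E := by
    funext z; exact h.2 z
  have hprod : Differentiable ℂ fun z => (S.map (fun b => 1 - z / b)).prod := by
    clear e hE hS h
    induction S using Multiset.induction_on with
    | empty => simp
    | cons c S ih =>
      simp only [Multiset.map_cons, Multiset.prod_cons]
      exact (by fun_prop : Differentiable ℂ fun z : ℂ => 1 - z / c).mul ih
  have h1 : analyticOrderAt f a = S.count a := by
    rw [e, analyticOrderAt_mul (hprod.analyticAt a) (h.1.analyticAt a), order_prod S hS,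
      ((h.1.analyticAt a).analyticOrderAt_eq_zero).2 hE, add_zero]
  rw [analyticOrderNatAt, h1]
  simp


theorem diff_prod (S : Multiset ℂ) :
    Differentiable ℂ fun z => (S.map (fun b => 1 - z / b)).prod := by
  induction S using Multiset.induction_on with
  | empty => simp
  | cons c S ih =>
    simp only [Multiset.map_cons, Multiset.prod_cons]
    exact (by fun_prop : Differentiable ℂ fun z : ℂ => 1 - z / c).mul ih

theorem logDeriv_fprod (S : Multiset ℂ) (hS : ∀ b ∈ S, b ≠ 0) (z : ℂ) (hz : z ∉ S) :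
    logDeriv (fun z => (S.map (fun b => 1 - z / b)).prod) z = (S.map (fun b => 1 / (z - b))).sum := by
  induction S using Multiset.induction_on with
  | empty => simp [logDeriv_const]
  | cons c S ih =>
    have hc : c ≠ 0 := hS c (by simp)
    have hzc : z ≠ c := fun h => hz (by simp [h])
    have hzS : z ∉ S := fun h => hz (by simp [h])
    have e : (fun z : ℂ => ((c ::ₘ S).map (fun b => 1 - z / b)).prod) =
        (fun z => 1 - z / c) * fun z => (S.map (fun b => 1 - z / b)).prod := by
      funext z; simp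
    have h1 : (1 - z / c) ≠ 0 := by
      rw [sub_ne_zero, ne_comm, Ne, div_eq_one_iff_eq hc]; exact hzc
    have h2 : (S.map (fun b => 1 - z / b)).prod ≠ 0 := by
      refine Multiset.prod_ne_zero fun h => ?_
      obtain ⟨b, hb, hb0⟩ := Multiset.mem_map.1 h
      rw [sub_eq_zero, eq_comm, div_eq_one_iff_eq (hS b (by simp [hb]))] at hb0
      exact hzS (hb0 ▸ hb)
    rw [e]
    have h3 := logDeriv_mul (f := fun z => 1 - z / c)
      (g := fun z => (S.map (fun b => 1 - z / b)).prod) z h1 h2 (by fun_prop) (diff_prod S z)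
    have h4 : logDeriv (fun z => 1 - z / c) z = 1 / (z - c) := by
      rw [logDeriv_apply]
      have : deriv (fun z => 1 - z / c) z = -(1 / c) := by
        rw [deriv_const_sub, deriv_div_const, deriv_id'']
      rw [this]
      have h5 : z - c ≠ 0 := sub_ne_zero.2 hzc
      have h6 : c - z ≠ 0 := sub_ne_zero.2 (Ne.symm hzc)
      field_simp
      ring
    rw [Multiset.map_cons, Multiset.sum_cons, ← ih (fun b hb => hS b (by simp [hb])) hzS, ← h4]
    exact h3

/-- Borel–Carathéodory for the zero-free part -/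
theorem logDeriv_close {E : ℂ → ℂ} (hE : Differentiable ℂ E) {R A : ℝ} (hR : 0 < R) (hA : 0 < A)
    (hne : ∀ z, ‖z‖ ≤ R → E z ≠ 0) (hbd : ∀ z, ‖z‖ ≤ R → ‖E z‖ ≤ Real.exp A * ‖E 0‖)
    {z : ℂ} (hz : ‖z‖ ≤ R / 4) :
    ‖logDeriv E z - logDeriv E 0‖ ≤ 128 * A / R ^ 2 * ‖z‖ := by
  -- logarithm
  have hd : DifferentiableOn ℂ (logDeriv E) (ball 0 R) := by
    intro w hw
    have hw' : ‖w‖ ≤ R := (mem_ball_zero_iff.1 hw).le
    have h1 : DifferentiableAt ℂ (deriv E) w :=
      ((hE.analyticAt w).deriv).differentiableAt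
    exact (h1.div (hE w) (hne w hw')).differentiableWithinAt
  obtain ⟨g, hg0, hg⟩ := (hd.isExactOn_ball).with_val_at 0 0
  have hgd : DifferentiableOn ℂ g (ball 0 R) := fun w hw =>
    (hg w hw).differentiableAt.differentiableWithinAt
  have hexp : ∀ w ∈ ball (0 : ℂ) R, E w = E 0 * exp (g w) := by
    -- derivative of `E w * exp (- g w)` vanishes
    have hconst : ∀ w ∈ ball (0 : ℂ) R, E w * exp (-g w) = E 0 * exp (-g 0) := by
      intro w hw
      refine IsOpen.is_const_of_deriv_eq_zero isOpen_ball (convex_ball _ _).isPreconnected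
        (f := fun w => E w * exp (-g w)) ?_ ?_ hw (mem_ball_self hR)
      · exact hE.differentiableOn.mul hgd.neg.cexp
      · intro v hv
        have h1 := (hE v).hasDerivAt.mul (hg v hv).neg.cexp
        have h2 := h1.deriv
        change deriv (fun w => E w * exp (-g w)) v = 0
        rw [show (fun w => E w * exp (-g w)) = E * fun y => exp ((-g) y) from rfl, h2]
        have h3 := hne v (mem_ball_zero_iff.1 hv).le
        rw [logDeriv_apply]
        field_simp
        simp
    intro w hw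
    have h1 := hconst w hw
    rw [hg0, neg_zero, exp_zero, mul_one] at h1
    rw [← h1, mul_assoc, ← exp_add]
    simp
  have hE0 : E 0 ≠ 0 := hne 0 (by simp; exact hR.le)
  have hre : MapsTo g (ball 0 R) {z | z.re ≤ A} := by
    intro w hw
    have h1 := hbd w (mem_ball_zero_iff.1 hw).le
    rw [hexp w hw, norm_mul, mul_comm, norm_exp] at h1
    have h2 := le_of_mul_le_mul_right h1 (norm_pos_iff.2 hE0)
    exact Real.exp_le_exp.1 h2
  have hgb : ∀ w, ‖w‖ ≤ R / 2 → ‖g w‖ ≤ 2 * A := by
    intro w hw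
    have h1 := Complex.borelCaratheodory_zero hA hgd hre hR
      (mem_ball_zero_iff.2 (by linarith : ‖w‖ < R)) hg0
    refine h1.trans ?_
    rw [div_le_iff₀ (by linarith)]
    nlinarith
  -- first derivative
  have h1d : ∀ w, ‖w‖ ≤ 3 * R / 8 → ‖logDeriv E w‖ ≤ 16 * A / R := by
    intro w hw
    have hwb : w ∈ ball (0 : ℂ) R := mem_ball_zero_iff.2 (by linarith)
    rw [← (hg w hwb).deriv]
    have h2 : ∀ v ∈ closedBall w (R / 8), ‖v‖ ≤ R / 2 := by
      intro v hv
      rw [mem_closedBall, dist_eq_norm] at hv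
      calc ‖v‖ = ‖(v - w) + w‖ := by ring_nf
        _ ≤ ‖v - w‖ + ‖w‖ := norm_add_le _ _
        _ ≤ R / 2 := by linarith
    have h3 := Complex.norm_deriv_le_of_forall_mem_sphere_norm_le (c := w) (R := R / 8)
      (C := 2 * A) (f := g) (by positivity) ?_ (fun v hv => hgb v (h2 v (sphere_subset_closedBall hv)))
    · refine h3.trans (le_of_eq ?_)
      field_simp; norm_num
    · apply DifferentiableOn.diffContOnCl
      rw [closure_ball _ (by positivity)]
      exact hgd.mono fun v hv => mem_ball_zero_iff.2 (by linarith [h2 v hv])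
  have h2d : ∀ w, ‖w‖ ≤ R / 4 → ‖deriv (logDeriv E) w‖ ≤ 128 * A / R ^ 2 := by
    intro w hw
    have h2 : ∀ v ∈ closedBall w (R / 8), ‖v‖ ≤ 3 * R / 8 := by
      intro v hv
      rw [mem_closedBall, dist_eq_norm] at hv
      calc ‖v‖ = ‖(v - w) + w‖ := by ring_nf
        _ ≤ ‖v - w‖ + ‖w‖ := norm_add_le _ _
        _ ≤ 3 * R / 8 := by linarith
    have h3 := Complex.norm_deriv_le_of_forall_mem_sphere_norm_le (c := w) (R := R / 8)
      (C := 16 * A / R) (f := logDeriv E) (by positivity) ?_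
      (fun v hv => h1d v (h2 v (sphere_subset_closedBall hv)))
    · refine h3.trans (le_of_eq ?_)
      field_simp; norm_num
    · apply DifferentiableOn.diffContOnCl
      rw [closure_ball _ (by positivity)]
      exact hd.mono fun v hv => mem_ball_zero_iff.2 (by linarith [h2 v hv])
  have h4 := Convex.norm_image_sub_le_of_norm_deriv_le (f := logDeriv E) (s := closedBall 0 (R / 4))
    (C := 128 * A / R ^ 2) (x := 0) (y := z) ?_ ?_ (convex_closedBall _ _) ?_ ?_
  · simpa using h4
  · intro w hw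
    have hw' := mem_closedBall_zero_iff.1 hw
    exact hd.differentiableAt (isOpen_ball.mem_nhds (mem_ball_zero_iff.2 (by linarith)))
  · intro w hw
    exact h2d w (mem_closedBall_zero_iff.1 hw)
  · simp; positivity
  · simpa using hz

end Pool.Agent.helper30.LR
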