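import Mathlib

noncomputable section

namespace Pool.Agent.helper30.LR

open Complex MeasureTheory Set Filter Topology ArithmeticFunction

/-- the test function `e^{z²/H²} cosh(xz)` -/
def ph (H x : ℝ) (z : ℂ) : ℂ := cexp (z ^ 2 / (H : ℂ) ^ 2) * Complex.cosh (x * z)

theorem ph_expand (H x : ℝ) (z : ℂ) :
    ph H x z = (cexp (z ^ 2 / (H : ℂ) ^ 2 + (x : ℝ) * z) +
      cexp (z ^ 2 / (H : ℂ) ^ 2 + ((-x : ℝ) : ℂ) * z)) / 2 := by
  rw [ph, Complex.cosh, Complex.exp_add, Complex.exp_add]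
  push_cast
  rw [neg_mul]
  ring

/-- general Gaussian integral with real leading coefficient -/
theorem gauss_aux {H : ℝ} (hH : 0 < H) (c d : ℂ) :
    ∫ t : ℝ, cexp (-(1 / (H : ℂ) ^ 2) * t ^ 2 + c * t + d) =
      (Real.sqrt Real.pi * H : ℝ) * cexp (d + c ^ 2 * (H : ℂ) ^ 2 / 4) := by
  have hH' : (H : ℂ) ≠ 0 := by exact_mod_cast hH.ne'
  have hb : (-(1 / (H : ℂ) ^ 2)).re < 0 := by
    have : (-(1 / (H : ℂ) ^ 2)) = ((-(1 / H ^ 2) : ℝ) : ℂ) := by push_cast; ring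
    rw [this, ofReal_re]
    have : 0 < 1 / H ^ 2 := by positivity
    linarith
  rw [integral_cexp_quadratic hb]
  have h1 : ((Real.pi : ℂ) / -(-(1 / (H : ℂ) ^ 2))) ^ (1 / 2 : ℂ) = (Real.sqrt Real.pi * H : ℝ) := by
    have e : (Real.pi : ℂ) / -(-(1 / (H : ℂ) ^ 2)) = ((Real.pi * H ^ 2 : ℝ) : ℂ) := by
      push_cast
      field_simp
    rw [e]
    have : ((1 / 2 : ℂ)) = ((1 / 2 : ℝ) : ℂ) := by push_cast; ring
    rw [this, ← Complex.ofReal_cpow (by positivity), ← Real.sqrt_eq_rpow,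
      Real.sqrt_mul Real.pi_pos.le, Real.sqrt_sq hH.le]
  rw [h1]
  congr 2
  field_simp
  ring

/-- the kernel -/
def kk (H x l : ℝ) : ℝ := H / (4 * Real.sqrt Real.pi) *
  (Real.exp (-(H ^ 2 * (l - x) ^ 2 / 4)) + Real.exp (-(H ^ 2 * (l + x) ^ 2 / 4)))

theorem line_expand {H : ℝ} (hH : 0 < H) (y t : ℝ) :
    cexp ((1 + t * I) ^ 2 / (H : ℂ) ^ 2 + (y : ℂ) * (1 + t * I)) =
    cexp (-(1 / (H : ℂ) ^ 2) * t ^ 2 + (2 * I / (H : ℂ) ^ 2 + I * y) * t +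
      (1 / (H : ℂ) ^ 2 + y)) := by
  have hH' : (H : ℂ) ≠ 0 := by exact_mod_cast hH.ne'
  congr 1
  field_simp
  linear_combination (-(H : ℂ) ^ 2 * 0 + t ^ 2) * I_sq

theorem integrable_line {H : ℝ} (hH : 0 < H) (y : ℝ) :
    Integrable fun t : ℝ => cexp ((1 + t * I) ^ 2 / (H : ℂ) ^ 2 + (y : ℂ) * (1 + t * I)) := by
  simp_rw [line_expand hH]
  refine integrable_cexp_quadratic' ?_ _ _
  have : (-(1 / (H : ℂ) ^ 2)) = ((-(1 / H ^ 2) : ℝ) : ℂ) := by push_cast; ring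
  rw [this, ofReal_re]
  have : 0 < 1 / H ^ 2 := by positivity
  linarith

theorem integral_line {H : ℝ} (hH : 0 < H) (y : ℝ) :
    ∫ t : ℝ, cexp ((1 + t * I) ^ 2 / (H : ℂ) ^ 2 + (y : ℂ) * (1 + t * I)) =
      (Real.sqrt Real.pi * H * Real.exp (-(H ^ 2 * y ^ 2 / 4)) : ℝ) := by
  have hH' : (H : ℂ) ≠ 0 := by exact_mod_cast hH.ne'
  simp_rw [line_expand hH]
  rw [gauss_aux hH]
  push_cast
  congr 2
  field_simp
  linear_combination (4 + 4 * (H : ℂ) ^ 2 * y + (H : ℂ) ^ 4 * y ^ 2) * I_sq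

/-- `L2` -/
theorem integral_ph_exp {H : ℝ} (hH : 0 < H) (x l : ℝ) :
    ∫ t : ℝ, ph H x (1 + t * I) * cexp (-(l : ℂ) * (1 + t * I)) =
      ((2 * Real.pi * kk H x l : ℝ) : ℂ) := by
  have e : ∀ t : ℝ, ph H x (1 + t * I) * cexp (-(l : ℂ) * (1 + t * I)) =
      (cexp ((1 + t * I) ^ 2 / (H : ℂ) ^ 2 + ((x - l : ℝ) : ℂ) * (1 + t * I)) +
        cexp ((1 + t * I) ^ 2 / (H : ℂ) ^ 2 + ((-x - l : ℝ) : ℂ) * (1 + t * I))) / 2 := by
    intro t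
    rw [ph_expand, div_mul_eq_mul_div, add_mul, ← Complex.exp_add, ← Complex.exp_add]
    congr 2
    · congr 1; push_cast; ring
    · congr 1; push_cast; ring
  simp_rw [e]
  rw [integral_div, integral_add (integrable_line hH _) (integrable_line hH _),
    integral_line hH, integral_line hH, ← ofReal_add, kk]
  have h1 : Real.sqrt Real.pi * Real.sqrt Real.pi = Real.pi := Real.mul_self_sqrt Real.pi_pos.le
  have h2 : Real.sqrt Real.pi ≠ 0 := (Real.sqrt_pos.2 Real.pi_pos).ne'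
  have e1 : (x - l) ^ 2 = (l - x) ^ 2 := by ring
  have e2 : (-x - l) ^ 2 = (l + x) ^ 2 := by ring
  rw [e1, e2]
  rw [show ((2 : ℂ)) = ((2 : ℝ) : ℂ) by push_cast; rfl, ← ofReal_div]
  congr 1
  nth_rewrite 3 [← h1]
  field_simp
  ring

/-- `L3` -/
theorem integral_cosh_kk {H : ℝ} (hH : 0 < H) (x : ℝ) (b : ℂ) :
    Integrable (fun l : ℝ => Complex.cosh (b * l) * (kk H x l : ℂ)) ∧
    ∫ l : ℝ, Complex.cosh (b * l) * (kk H x l : ℂ) = ph H x b := by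
  have hH' : (H : ℂ) ≠ 0 := by exact_mod_cast hH.ne'
  have hsp : (Real.sqrt Real.pi : ℂ) ≠ 0 := by
    exact_mod_cast (Real.sqrt_pos.2 Real.pi_pos).ne'
  -- basic integral
  have hneg : (-(1 / ((2 / H : ℝ) : ℂ) ^ 2)).re < 0 := by
    have : (-(1 / ((2 / H : ℝ) : ℂ) ^ 2)) = ((-(1 / (2 / H) ^ 2) : ℝ) : ℂ) := by push_cast; ring
    rw [this, ofReal_re]
    have : 0 < 1 / (2 / H) ^ 2 := by positivity
    linarith
  have hb1 : ∀ (β : ℂ) (y l : ℝ), cexp (β * l) * (Real.exp (-(H ^ 2 * (l - y) ^ 2 / 4)) : ℂ) =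
      cexp (-(1 / ((2 / H : ℝ) : ℂ) ^ 2) * l ^ 2 + (β + (H : ℂ) ^ 2 * y / 2) * l +
        (-(H : ℂ) ^ 2 * y ^ 2 / 4)) := by
    intro β y l
    push_cast
    rw [← Complex.exp_add]
    congr 1
    field_simp
    ring
  have hI : ∀ (β : ℂ) (y : ℝ), Integrable fun l : ℝ =>
      cexp (β * l) * (Real.exp (-(H ^ 2 * (l - y) ^ 2 / 4)) : ℂ) := by
    intro β y
    simp_rw [hb1]
    exact integrable_cexp_quadratic' hneg _ _
  have hV : ∀ (β : ℂ) (y : ℝ), ∫ l : ℝ,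
      cexp (β * l) * (Real.exp (-(H ^ 2 * (l - y) ^ 2 / 4)) : ℂ) =
        (Real.sqrt Real.pi * (2 / H) : ℝ) * cexp (β ^ 2 / (H : ℂ) ^ 2 + β * y) := by
    intro β y
    simp_rw [hb1]
    rw [gauss_aux (by positivity : (0:ℝ) < 2 / H)]
    congr 2
    push_cast
    field_simp
    ring
  have e : ∀ l : ℝ, Complex.cosh (b * l) * (kk H x l : ℂ) =
      (H / (8 * Real.sqrt Real.pi) : ℂ) *
        ((cexp (b * l) * (Real.exp (-(H ^ 2 * (l - x) ^ 2 / 4)) : ℂ) +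
          cexp (b * l) * (Real.exp (-(H ^ 2 * (l - (-x)) ^ 2 / 4)) : ℂ)) +
        (cexp (-b * l) * (Real.exp (-(H ^ 2 * (l - x) ^ 2 / 4)) : ℂ) +
          cexp (-b * l) * (Real.exp (-(H ^ 2 * (l - (-x)) ^ 2 / 4)) : ℂ))) := by
    intro l
    rw [Complex.cosh, kk, sub_neg_eq_add, ofReal_mul, ofReal_add, ofReal_div, ofReal_mul]
    generalize (Real.exp (-(H ^ 2 * (l - x) ^ 2 / 4)) : ℂ) = A
    generalize (Real.exp (-(H ^ 2 * (l + x) ^ 2 / 4)) : ℂ) = B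
    rw [neg_mul]
    generalize cexp (b * l) = P
    generalize cexp (-(b * l)) = Q
    push_cast
    field_simp
    ring
  simp_rw [e]
  have i1 := hI b x
  have i2 := hI b (-x)
  have i3 := hI (-b) x
  have i4 := hI (-b) (-x)
  have j1 : Integrable (fun l : ℝ => cexp (b * l) * (Real.exp (-(H ^ 2 * (l - x) ^ 2 / 4)) : ℂ) +
          cexp (b * l) * (Real.exp (-(H ^ 2 * (l - (-x)) ^ 2 / 4)) : ℂ)) := i1.add i2
  have j2 : Integrable (fun l : ℝ => cexp (-b * l) * (Real.exp (-(H ^ 2 * (l - x) ^ 2 / 4)) : ℂ) +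
          cexp (-b * l) * (Real.exp (-(H ^ 2 * (l - (-x)) ^ 2 / 4)) : ℂ)) := i3.add i4
  refine ⟨(j1.add j2).const_mul _, ?_⟩
  rw [integral_const_mul, integral_add j1 j2, integral_add i1 i2,
    integral_add i3 i4, hV, hV, hV, hV, ph_expand]
  have e1 : (-b) ^ 2 / (H : ℂ) ^ 2 + -b * (x : ℂ) = b ^ 2 / (H : ℂ) ^ 2 + ((-x : ℝ) : ℂ) * b := by
    push_cast; ring
  have e2 : (-b) ^ 2 / (H : ℂ) ^ 2 + -b * ((-x : ℝ) : ℂ) = b ^ 2 / (H : ℂ) ^ 2 + (x : ℂ) * b := by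
    push_cast; ring
  have e3 : b ^ 2 / (H : ℂ) ^ 2 + b * ((-x : ℝ) : ℂ) = b ^ 2 / (H : ℂ) ^ 2 + ((-x : ℝ) : ℂ) * b := by
    ring
  have e4 : b ^ 2 / (H : ℂ) ^ 2 + b * (x : ℂ) = b ^ 2 / (H : ℂ) ^ 2 + (x : ℂ) * b := by
    ring
  rw [e1, e2, e3, e4]
  generalize cexp (b ^ 2 / (H : ℂ) ^ 2 + (x : ℂ) * b) = P
  generalize cexp (b ^ 2 / (H : ℂ) ^ 2 + ((-x : ℝ) : ℂ) * b) = Q
  push_cast
  field_simp
  ring

end Pool.Agent.helper30.LR
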