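import Pool.Agent.helper30.LR.Fac

/-!
# Partial fractions of the logarithmic derivative of an even entire function of order < 2
whose zeros are purely imaginary
-/

noncomputable section

namespace Pool.Agent.helper30.LR

open Complex Metric Filter Topology Set

/-- order of `f` at `iγ` -/
def om (f : ℂ → ℂ) (γ : ℝ) : ℕ := analyticOrderNatAt f (γ * I)

theorem norm_sq_add_sq {z : ℂ} (hz : 0 < z.re) (g : ℝ) :
    1 + g ^ 2 ≤ (4 + (2 + 4 * z.im ^ 2) / z.re ^ 2) * ‖z ^ 2 + (g : ℂ) ^ 2‖ := by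
  have e : z ^ 2 + (g : ℂ) ^ 2 = (z - g * I) * (z + g * I) := by
    ring_nf; rw [I_sq]; ring
  have n1 : ‖z - g * I‖ ^ 2 = z.re ^ 2 + (z.im - g) ^ 2 := by
    rw [Complex.sq_norm, normSq_apply]; simp; ring
  have n2 : ‖z + g * I‖ ^ 2 = z.re ^ 2 + (z.im + g) ^ 2 := by
    rw [Complex.sq_norm, normSq_apply]; simp; ring
  rw [e, norm_mul]
  set p := ‖z - g * I‖
  set q := ‖z + g * I‖
  have hp : 0 ≤ p := norm_nonneg _
  have hq : 0 ≤ q := norm_nonneg _
  set a := z.re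
  set y := z.im
  have hpa : a ≤ p := by nlinarith [sq_nonneg (y - g)]
  have hqa : a ≤ q := by nlinarith [sq_nonneg (y + g)]
  have hpq : a ^ 2 ≤ p * q := by nlinarith
  have ha2 : 0 < a ^ 2 := by positivity
  rcases le_or_gt (4 * y ^ 2) (g ^ 2) with h | h
  · -- |g| ≥ 2|y|
    have h1 : a ^ 2 + g ^ 2 / 4 ≤ p * q := by
      have h2 : (a ^ 2 + g ^ 2 / 4) ^ 2 ≤ (p * q) ^ 2 := by
        rw [mul_pow, n1, n2]
        have h3 : g ^ 2 / 4 ≤ (y - g) ^ 2 := by nlinarith [sq_nonneg (2 * y - g)]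
        have h4 : g ^ 2 / 4 ≤ (y + g) ^ 2 := by nlinarith [sq_nonneg (2 * y + g)]
        rw [sq (a ^ 2 + g ^ 2 / 4)]
        exact mul_le_mul (by linarith) (by linarith) (by positivity) (by positivity)
      exact (sq_le_sq₀ (by positivity) (by positivity)).1 h2
    have h5 : (2 + 4 * y ^ 2) / a ^ 2 * (p * q) ≥ 1 := by
      rw [ge_iff_le, div_mul_eq_mul_div, le_div_iff₀ ha2]
      nlinarith [sq_nonneg y]
    nlinarith
  · have h5 : (2 + 4 * y ^ 2) / a ^ 2 * (p * q) ≥ 2 + 4 * y ^ 2 := by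
      rw [ge_iff_le, div_mul_eq_mul_div, le_div_iff₀ ha2]
      nlinarith [sq_nonneg y]
    nlinarith

theorem norm_pf {z : ℂ} (hz : 0 < z.re) (g : ℝ) :
    ‖z / (z ^ 2 + (g : ℂ) ^ 2)‖ ≤ ‖z‖ * (4 + (2 + 4 * z.im ^ 2) / z.re ^ 2) / (1 + g ^ 2) := by
  have h := norm_sq_add_sq hz g
  have hpos : 0 < ‖z ^ 2 + (g : ℂ) ^ 2‖ := by
    by_contra hcon
    have h0 : ‖z ^ 2 + (g : ℂ) ^ 2‖ = 0 := le_antisymm (not_lt.1 hcon) (norm_nonneg _)
    rw [h0, mul_zero] at h
    nlinarith [sq_nonneg g]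
  rw [norm_div, div_le_div_iff₀ hpos (by positivity)]
  nlinarith [norm_nonneg z, mul_le_mul_of_nonneg_left h (norm_nonneg z)]

theorem om_neg {f : ℂ → ℂ} (he : ∀ z, f (-z) = f z) (γ : ℝ) :
    om f (-γ) = om f γ := by
  have h1 : f ∘ (fun z => -z) = f := funext he
  have h2 := analyticOrderAt_comp_of_deriv_ne_zero (f := f) (g := fun z : ℂ => -z)
    (z₀ := (γ * I : ℂ)) (by fun_prop) (by simp)
  rw [h1] at h2
  unfold om analyticOrderNatAt
  rw [h2]
  congr 3
  push_cast; ring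


section
variable {f : ℂ → ℂ} (hf : Differentiable ℂ f) (h0 : f 0 ≠ 0) (him : ∀ a, f a = 0 → a.re = 0)
include hf h0 him

theorem exists_Fset (R : ℝ) (hR : 0 < R) : ∃ F : Finset ℝ, (∀ γ, γ ∈ F ↔ |γ| ≤ R ∧ om f γ ≠ 0) ∧
    ∃ S E, Fac f S E ∧ (∀ a ∈ S, ‖a‖ ≤ R ∧ a ≠ 0) ∧ (∀ z, ‖z‖ ≤ R → E z ≠ 0) ∧
      ∀ φ : ℂ → ℂ, (S.map φ).sum = ∑ γ ∈ F, (om f γ : ℂ) * φ (γ * I) := by
  classical
  obtain ⟨S, E, h1, h2, h3⟩ := exists_fac hf h0 hR
  have hS0 : ∀ b ∈ S, b ≠ 0 := fun b hb => (h2 b hb).2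
  have hzero : ∀ b ∈ S, f b = 0 := by
    intro b hb
    rw [h1.2 b]
    have : (S.map (fun a => 1 - b / a)).prod = 0 := by
      apply Multiset.prod_eq_zero
      rw [Multiset.mem_map]
      exact ⟨b, hb, by rw [div_self (hS0 b hb), sub_self]⟩
    rw [this, zero_mul]
  have hbI : ∀ b ∈ S, (b.im : ℂ) * I = b := by
    intro b hb
    apply Complex.ext
    · simp [him b (hzero b hb)]
    · simp
  have hom : ∀ γ : ℝ, |γ| ≤ R → om f γ = S.count (γ * I : ℂ) := by
    intro γ hγ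
    exact h1.order hS0 (h3 _ (by simpa using hγ))
  refine ⟨S.toFinset.image Complex.im, fun γ => ?_, S, E, h1, h2, h3, fun φ => ?_⟩
  · rw [Finset.mem_image]
    constructor
    · rintro ⟨b, hb, rfl⟩
      rw [Multiset.mem_toFinset] at hb
      have h4 : |b.im| ≤ R := by
        have := (h2 b hb).1
        exact (abs_im_le_norm b).trans this
      refine ⟨h4, ?_⟩
      rw [hom _ h4, hbI b hb]
      have := Multiset.one_le_count_iff_mem.2 hb
      omega
    · rintro ⟨h4, h5⟩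
      rw [hom _ h4] at h5
      have h6 : (γ * I : ℂ) ∈ S := Multiset.count_pos.1 (Nat.pos_of_ne_zero h5)
      exact ⟨γ * I, Multiset.mem_toFinset.2 h6, by simp⟩
  · rw [Finset.sum_image]
    · rw [Finset.sum_multiset_map_count]
      refine Finset.sum_congr rfl fun b hb => ?_
      rw [Multiset.mem_toFinset] at hb
      have h4 : |b.im| ≤ R := (abs_im_le_norm b).trans (h2 b hb).1
      rw [hom _ h4, hbI b hb, nsmul_eq_mul]
    · intro b hb c hc hbc
      rw [Finset.mem_coe, Multiset.mem_toFinset] at hb hc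
      rw [← hbI b hb, ← hbI c hc, hbc]

end

theorem deriv_even_zero {f : ℂ → ℂ} (he : ∀ z, f (-z) = f z) :
    deriv f 0 = 0 := by
  have h1 : deriv (fun z => f (-z)) 0 = -deriv f (-0) := deriv_comp_neg f 0
  rw [funext he, neg_zero] at h1
  have h2 : (2 : ℂ) * deriv f 0 = 0 := by linear_combination h1
  simpa using h2

theorem sum_symm {F : Finset ℝ} {m : ℝ → ℂ} (hF : ∀ γ, γ ∈ F ↔ -γ ∈ F) (hm : ∀ γ, m (-γ) = m γ)
    (u : ℝ → ℂ) : ∑ γ ∈ F, m γ * u γ = ∑ γ ∈ F, m γ * u (-γ) := by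
  refine Finset.sum_bij' (fun γ _ => -γ) (fun γ _ => -γ) (fun γ h => (hF γ).1 h)
    (fun γ h => (hF γ).1 h) (by simp) (by simp) fun γ _ => ?_
  rw [hm, neg_neg]

section
variable {f : ℂ → ℂ} (hf : Differentiable ℂ f) (he : ∀ z, f (-z) = f z) (h0 : f 0 ≠ 0)
  (him : ∀ a, f a = 0 → a.re = 0) {C : ℝ}
  (hgrow : ∀ z, ‖f z‖ ≤ Real.exp (C * (1 + ‖z‖) ^ (3 / 2 : ℝ)))
include hf he h0 him hgrow

theorem had_est (R : ℝ) (hR : 1 ≤ R) : ∃ F : Finset ℝ, (∀ γ, γ ∈ F ↔ |γ| ≤ R ∧ om f γ ≠ 0) ∧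
    ∀ z : ℂ, 0 < z.re → ‖z‖ ≤ R / 4 →
      ‖logDeriv f z - ∑ γ ∈ F, (om f γ : ℂ) * (z / (z ^ 2 + (γ : ℂ) ^ 2))‖ ≤
        128 * (|C| * (4 * R) ^ (3 / 2 : ℝ) + |Real.log ‖f 0‖| + 1) / R ^ 2 * ‖z‖ := by
  have hR0 : 0 < R := by linarith
  obtain ⟨F, hF, S, E, h1, h2, h3, h4⟩ := exists_Fset hf h0 him R hR0
  refine ⟨F, hF, fun z hz hzR => ?_⟩
  have hS0 : ∀ b ∈ S, b ≠ 0 := fun b hb => (h2 b hb).2
  have hsym : ∀ γ, γ ∈ F ↔ -γ ∈ F := fun γ => by rw [hF, hF, abs_neg, om_neg he]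
  have homs : ∀ γ : ℝ, ((om f (-γ) : ℕ) : ℂ) = om f γ := fun γ => by rw [om_neg he]
  set A := |C| * (4 * R) ^ (3 / 2 : ℝ) + |Real.log ‖f 0‖| + 1 with hA
  have hA0 : 0 < A := by positivity
  have hf0 : 0 < ‖f 0‖ := norm_pos_iff.2 h0
  have hbd : ∀ w, ‖w‖ ≤ R → ‖E w‖ ≤ Real.exp A * ‖E 0‖ := by
    intro w hw
    have hM : ∀ v, ‖v‖ = 3 * R → ‖f v‖ ≤ Real.exp (|C| * (4 * R) ^ (3 / 2 : ℝ)) := by
      intro v hv
      refine (hgrow v).trans (Real.exp_le_exp.2 ?_)
      rw [hv]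
      have h5 : (1 + 3 * R) ^ (3 / 2 : ℝ) ≤ (4 * R) ^ (3 / 2 : ℝ) :=
        Real.rpow_le_rpow (by linarith) (by linarith) (by norm_num)
      calc C * (1 + 3 * R) ^ (3 / 2 : ℝ) ≤ |C| * (1 + 3 * R) ^ (3 / 2 : ℝ) :=
            mul_le_mul_of_nonneg_right (le_abs_self C) (by positivity)
        _ ≤ _ := mul_le_mul_of_nonneg_left h5 (abs_nonneg C)
    have h5 := h1.bound hR0 h2 hM (z := w) (by linarith)
    have h6 : Real.exp (|C| * (4 * R) ^ (3 / 2 : ℝ)) / 2 ^ S.card ≤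
        Real.exp (|C| * (4 * R) ^ (3 / 2 : ℝ)) :=
      div_le_self (by positivity) (one_le_pow₀ (by norm_num))
    rw [h1.at_zero]
    refine (h5.trans h6).trans ?_
    have h7 : ‖f 0‖ = Real.exp (Real.log ‖f 0‖) := (Real.exp_log hf0).symm
    rw [h7, ← Real.exp_add]
    refine Real.exp_le_exp.2 ?_
    rw [hA]
    have := neg_abs_le (Real.log ‖f 0‖)
    linarith
  have h5 := logDeriv_close h1.1 hR0 hA0 h3 hbd hzR
  -- logDeriv of f
  have hfz : ∀ z : ℂ, z ∉ S → ‖z‖ ≤ R →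
      logDeriv f z = (S.map (fun b => 1 / (z - b))).sum + logDeriv E z := by
    intro w hw hwR
    have e : f = (fun z => (S.map (fun b => 1 - z / b)).prod) * E := by
      funext z; exact h1.2 z
    have h6 : (S.map (fun b => 1 - w / b)).prod ≠ 0 := by
      refine Multiset.prod_ne_zero fun h => ?_
      obtain ⟨b, hb, hb0⟩ := Multiset.mem_map.1 h
      rw [sub_eq_zero, eq_comm, div_eq_one_iff_eq (hS0 b hb)] at hb0
      exact hw (hb0 ▸ hb)
    have h7 := logDeriv_mul (f := fun z => (S.map (fun b => 1 - z / b)).prod)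
      (g := E) w h6 (h3 w hwR) (diff_prod S w) (h1.1 w)
    rw [← logDeriv_fprod S hS0 w hw, ← h7, e]
    rfl
  have h00 : (0 : ℂ) ∉ S := fun h => hS0 0 h rfl
  have hE0 : logDeriv E 0 = 0 := by
    have h6 := hfz 0 h00 (by simp; linarith)
    rw [logDeriv_apply, deriv_even_zero he, zero_div, h4] at h6
    have h7 : ∑ γ ∈ F, (om f γ : ℂ) * (1 / (0 - γ * I)) = 0 := by
      have h8 := sum_symm (m := fun γ => (om f γ : ℂ)) hsym homs (fun γ => 1 / (0 - γ * I))
      have h9 : ∑ γ ∈ F, (om f γ : ℂ) * (1 / (0 - ((-γ : ℝ) : ℂ) * I)) =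
          -∑ γ ∈ F, (om f γ : ℂ) * (1 / (0 - γ * I)) := by
        rw [← Finset.sum_neg_distrib]
        refine Finset.sum_congr rfl fun γ _ => ?_
        push_cast
        rw [zero_sub, zero_sub, neg_mul, one_div, one_div, inv_neg, inv_neg]
        ring
      rw [h9] at h8
      have h10 : (2 : ℂ) * ∑ γ ∈ F, (om f γ : ℂ) * (1 / (0 - γ * I)) = 0 := by
        linear_combination h8
      simpa using h10
    rw [h7, zero_add] at h6
    exact h6.symm
  have hzS : z ∉ S := by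
    intro h
    have h6 : f z = 0 := by
      rw [h1.2 z]
      have : (S.map (fun a => 1 - z / a)).prod = 0 := by
        apply Multiset.prod_eq_zero
        rw [Multiset.mem_map]
        exact ⟨z, h, by rw [div_self (hS0 z h), sub_self]⟩
      rw [this, zero_mul]
    have := him z h6
    linarith
  have hsum : (S.map (fun b => 1 / (z - b))).sum =
      ∑ γ ∈ F, (om f γ : ℂ) * (z / (z ^ 2 + (γ : ℂ) ^ 2)) := by
    rw [h4]
    have h8 := sum_symm (m := fun γ => (om f γ : ℂ)) hsym homs (fun γ => 1 / (z - γ * I))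
    have h9 : (2 : ℂ) * ∑ γ ∈ F, (om f γ : ℂ) * (1 / (z - γ * I)) =
        2 * ∑ γ ∈ F, (om f γ : ℂ) * (z / (z ^ 2 + (γ : ℂ) ^ 2)) := by
      rw [two_mul]
      nth_rewrite 2 [h8]
      rw [← Finset.sum_add_distrib, Finset.mul_sum]
      refine Finset.sum_congr rfl fun γ _ => ?_
      have h10 : z - γ * I ≠ 0 := by
        intro h
        have := congrArg Complex.re h
        simp at this; linarith
      have h11 : z + γ * I ≠ 0 := by
        intro h
        have := congrArg Complex.re h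
        simp at this; linarith
      have h12 : z ^ 2 + (γ : ℂ) ^ 2 = (z - γ * I) * (z + γ * I) := by
        ring_nf; rw [I_sq]; ring
      rw [h12]
      push_cast
      have h13 : z - -(γ : ℂ) * I = z + γ * I := by ring
      rw [h13]
      field_simp
      ring
    exact mul_left_cancel₀ two_ne_zero h9
  rw [hfz z hzS (by linarith), hsum, add_sub_cancel_left]
  rw [hE0, sub_zero] at h5
  exact h5

theorem had_tendsto (z : ℂ) (hz : 0 < z.re) (Fs : ℕ → Finset ℝ)
    (hFs : ∀ n γ, γ ∈ Fs n ↔ |γ| ≤ n ∧ om f γ ≠ 0) :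
    Tendsto (fun n : ℕ => ∑ γ ∈ Fs n, (om f γ : ℂ) * (z / (z ^ 2 + (γ : ℂ) ^ 2))) atTop
      (𝓝 (logDeriv f z)) := by
  rw [tendsto_iff_norm_sub_tendsto_zero]
  have hlim : Tendsto (fun n : ℕ => 128 * (|C| * (4 * (n : ℝ)) ^ (3 / 2 : ℝ) +
      |Real.log ‖f 0‖| + 1) / (n : ℝ) ^ 2 * ‖z‖) atTop (𝓝 0) := by
    have h1 : Tendsto (fun n : ℕ => (n : ℝ) ^ (-(1 / 2 : ℝ))) atTop (𝓝 0) :=
      (tendsto_rpow_neg_atTop (by norm_num)).comp tendsto_natCast_atTop_atTop
    have h2 : Tendsto (fun n : ℕ => 1 / (n : ℝ) ^ 2) atTop (𝓝 0) := by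
      have := tendsto_one_div_atTop_nhds_zero_nat (𝕜 := ℝ)
      have h3 := this.pow 2
      simpa using h3
    have h3 : Tendsto (fun n : ℕ => 128 * ‖z‖ * (|C| * 4 ^ (3 / 2 : ℝ) * (n : ℝ) ^ (-(1 / 2 : ℝ)) +
        (|Real.log ‖f 0‖| + 1) * (1 / (n : ℝ) ^ 2))) atTop (𝓝 (128 * ‖z‖ *
          (|C| * 4 ^ (3 / 2 : ℝ) * 0 + (|Real.log ‖f 0‖| + 1) * 0))) :=
      ((h1.const_mul _).add (h2.const_mul _)).const_mul _
    rw [mul_zero, mul_zero, add_zero, mul_zero] at h3
    refine h3.congr' ?_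
    filter_upwards [eventually_ge_atTop 1] with n hn
    have hn0 : (0 : ℝ) < n := by exact_mod_cast hn
    rw [Real.mul_rpow (by norm_num) hn0.le]
    have h4 : (n : ℝ) ^ (-(1 / 2 : ℝ)) = (n : ℝ) ^ (3 / 2 : ℝ) / (n : ℝ) ^ 2 := by
      rw [eq_div_iff (by positivity), ← Real.rpow_natCast, ← Real.rpow_add hn0]
      norm_num
    rw [h4]
    field_simp
    ring
  refine squeeze_zero' (Eventually.of_forall fun _ => norm_nonneg _) ?_ hlim
  obtain ⟨N, hN⟩ := exists_nat_ge (4 * ‖z‖)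
  filter_upwards [eventually_ge_atTop (N + 1)] with n hn
  have hn1 : (1 : ℝ) ≤ n := by exact_mod_cast (by omega : 1 ≤ n)
  have hnN : (N : ℝ) ≤ n := by exact_mod_cast (by omega : N ≤ n)
  obtain ⟨F, hF, h5⟩ := had_est hf he h0 him hgrow n hn1
  have : F = Fs n := by
    ext γ; rw [hF, hFs]
  rw [← this, norm_sub_rev]
  exact h5 z hz (by linarith)

/-- main theorem when `f 0 ≠ 0` -/
theorem had_main0 : (∀ R : ℝ, {γ : ℝ | |γ| ≤ R ∧ om f γ ≠ 0}.Finite) ∧
    (Summable fun γ : ℝ => (om f γ : ℝ) / (1 + γ ^ 2)) ∧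
    ∀ z : ℂ, 0 < z.re → HasSum (fun γ : ℝ => (om f γ : ℂ) * (z / (z ^ 2 + (γ : ℂ) ^ 2)))
      (logDeriv f z) := by
  have hfin : ∀ R : ℝ, {γ : ℝ | |γ| ≤ R ∧ om f γ ≠ 0}.Finite := by
    intro R
    obtain ⟨F, hF, -⟩ := exists_Fset hf h0 him (max R 1) (by positivity)
    refine F.finite_toSet.subset fun γ hγ => ?_
    rw [Finset.mem_coe, hF]
    exact ⟨hγ.1.trans (le_max_left _ _), hγ.2⟩
  set Fs : ℕ → Finset ℝ := fun n => (hfin n).toFinset with hFsd
  have hFs : ∀ n γ, γ ∈ Fs n ↔ |γ| ≤ n ∧ om f γ ≠ 0 := fun n γ => by simp [hFsd]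
  have hsum : Summable fun γ : ℝ => (om f γ : ℝ) / (1 + γ ^ 2) := by
    have h1 := had_tendsto hf he h0 him hgrow 1 (by simp) Fs hFs
    have h2 : Tendsto (fun n : ℕ => ∑ γ ∈ Fs n, (om f γ : ℝ) / (1 + γ ^ 2)) atTop
        (𝓝 (logDeriv f 1).re) := by
      have h3 := (Complex.continuous_re.tendsto _).comp h1
      refine h3.congr fun n => ?_
      simp only [Function.comp_apply, re_sum]
      refine Finset.sum_congr rfl fun γ _ => ?_
      have : ((om f γ : ℂ) * (1 / (1 ^ 2 + (γ : ℂ) ^ 2))) =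
          (((om f γ : ℝ) / (1 + γ ^ 2) : ℝ) : ℂ) := by push_cast; ring
      rw [this, ofReal_re]
    have hmono : Monotone fun n : ℕ => ∑ γ ∈ Fs n, (om f γ : ℝ) / (1 + γ ^ 2) := by
      intro n m hnm
      refine Finset.sum_le_sum_of_subset_of_nonneg (fun γ hγ => ?_) fun γ _ _ => by positivity
      rw [hFs] at hγ ⊢
      exact ⟨hγ.1.trans (by exact_mod_cast hnm), hγ.2⟩
    refine summable_of_sum_le (c := (logDeriv f 1).re) (fun γ => by positivity) fun u => ?_
    obtain ⟨N, hN⟩ : ∃ N : ℕ, ∀ γ ∈ u, |γ| ≤ N := by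
      obtain ⟨N, hN⟩ := exists_nat_ge (∑ γ ∈ u, |γ|)
      exact ⟨N, fun γ hγ => (Finset.single_le_sum (f := fun γ => |γ|)
        (fun _ _ => abs_nonneg _) hγ).trans hN⟩
    have h3 : ∑ γ ∈ u, (om f γ : ℝ) / (1 + γ ^ 2) ≤
        ∑ γ ∈ Fs N, (om f γ : ℝ) / (1 + γ ^ 2) := by
      rw [← Finset.sum_filter_add_sum_filter_not u (fun γ => om f γ ≠ 0)]
      have h4 : ∑ γ ∈ u.filter (fun γ => ¬ om f γ ≠ 0), (om f γ : ℝ) / (1 + γ ^ 2) = 0 := by
        refine Finset.sum_eq_zero fun γ hγ => ?_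
        have := (Finset.mem_filter.1 hγ).2
        rw [not_not] at this
        rw [this]; simp
      rw [h4, add_zero]
      refine Finset.sum_le_sum_of_subset_of_nonneg (fun γ hγ => ?_) fun γ _ _ => by positivity
      rw [Finset.mem_filter] at hγ
      rw [hFs]
      exact ⟨hN γ hγ.1, hγ.2⟩
    exact h3.trans (hmono.ge_of_tendsto h2 N)
  refine ⟨hfin, hsum, fun z hz => ?_⟩
  set u : ℝ → ℂ := fun γ => (om f γ : ℂ) * (z / (z ^ 2 + (γ : ℂ) ^ 2)) with hu
  set B : ℝ := ‖z‖ * (4 + (2 + 4 * z.im ^ 2) / z.re ^ 2) with hB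
  have hbound : ∀ γ, ‖u γ‖ ≤ B * ((om f γ : ℝ) / (1 + γ ^ 2)) := by
    intro γ
    rw [hu]
    simp only [norm_mul, Complex.norm_natCast]
    have := mul_le_mul_of_nonneg_left (norm_pf hz γ) (Nat.cast_nonneg (α := ℝ) (om f γ))
    refine this.trans (le_of_eq ?_)
    rw [hB]; ring
  have hsu : Summable u := Summable.of_norm_bounded (hsum.mul_left B) hbound
  have h1 := had_tendsto hf he h0 him hgrow z hz Fs hFs
  have h2 : Tendsto (fun n : ℕ => ∑ γ ∈ Fs n, u γ) atTop (𝓝 (∑' γ, u γ)) := by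
    have h3 : ∀ n : ℕ, ∑ γ ∈ Fs n, u γ = ∑' γ : ℝ, (if |γ| ≤ n then u γ else 0) := by
      intro n
      rw [tsum_eq_sum (s := Fs n)]
      · refine Finset.sum_congr rfl fun γ hγ => ?_
        rw [if_pos ((hFs n γ).1 hγ).1]
      · intro γ hγ
        split_ifs with h
        · rw [hFs, not_and, not_not] at hγ
          simp only [hu, hγ h]; simp
        · rfl
    simp_rw [h3]
    refine tendsto_tsum_of_dominated_convergence (hsum.mul_left B) (fun γ => ?_)
      (Eventually.of_forall fun n γ => ?_)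
    · obtain ⟨N, hN⟩ := exists_nat_ge |γ|
      refine tendsto_const_nhds.congr' ?_
      filter_upwards [eventually_ge_atTop N] with n hn
      rw [if_pos (hN.trans (by exact_mod_cast hn))]
    · split_ifs
      · exact hbound γ
      · rw [norm_zero]
        have hB0 : 0 ≤ B := by positivity
        positivity
  rw [← tendsto_nhds_unique h2 h1]
  exact hsu.hasSum

end

theorem exists_pow_factor : ∀ (n : ℕ) (f : ℂ → ℂ), Differentiable ℂ f →
    analyticOrderAt f 0 = n → ∃ g : ℂ → ℂ, Differentiable ℂ g ∧ g 0 ≠ 0 ∧ ∀ z, f z = z ^ n * g z := by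
  intro n
  induction n with
  | zero =>
    intro f hf h
    refine ⟨f, hf, ?_, fun z => by simp⟩
    exact ((hf.analyticAt 0).analyticOrderAt_eq_zero).1 (by simpa using h)
  | succ n ih =>
    intro f hf h
    have hf0 : f 0 = 0 := by
      apply apply_eq_zero_of_analyticOrderAt_ne_zero
      rw [h]; simp
    have hd : Differentiable ℂ (dslope f 0) :=
      differentiableOn_univ.1 ((Complex.differentiableOn_dslope univ_mem).2 hf.differentiableOn)
    have h1 : ∀ z, f z = z * dslope f 0 z := by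
      intro z
      have := sub_smul_dslope f 0 z
      rw [hf0, sub_zero, sub_zero, smul_eq_mul] at this
      exact this.symm
    have h2 : analyticOrderAt f 0 = analyticOrderAt (fun z : ℂ => z) 0 +
        analyticOrderAt (dslope f 0) 0 := by
      rw [← analyticOrderAt_mul (by fun_prop) (hd.analyticAt 0)]
      congr 1
      funext z
      exact h1 z
    have h3 : analyticOrderAt (fun z : ℂ => z) 0 = 1 := analyticOrderAt_id
    rw [h, h3] at h2
    have h4 : analyticOrderAt (dslope f 0) 0 = n := by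
      have h5 : ((n : ℕ∞) + 1) = 1 + analyticOrderAt (dslope f 0) 0 := by
        rw [← h2]; push_cast; rfl
      rw [add_comm] at h5
      exact (ENat.add_right_injective_of_ne_top (n := 1) (by simp) h5).symm
    obtain ⟨g, hg, hg0, hgz⟩ := ih _ hd h4
    exact ⟨g, hg, hg0, fun z => by rw [h1, hgz]; ring⟩

/-- main theorem -/
theorem had_main {f : ℂ → ℂ} (hf : Differentiable ℂ f) (he : ∀ z, f (-z) = f z)
    (hne : analyticOrderAt f 0 ≠ ⊤)
    (him : ∀ a, f a = 0 → a.re = 0) {C : ℝ}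
    (hgrow : ∀ z, ‖f z‖ ≤ Real.exp (C * (1 + ‖z‖) ^ (3 / 2 : ℝ))) :
    (∀ R : ℝ, {γ : ℝ | |γ| ≤ R ∧ om f γ ≠ 0}.Finite) ∧
    (Summable fun γ : ℝ => (om f γ : ℝ) / (1 + γ ^ 2)) ∧
    ∀ z : ℂ, 0 < z.re → HasSum (fun γ : ℝ => (om f γ : ℂ) * (z / (z ^ 2 + (γ : ℂ) ^ 2)))
      (logDeriv f z) := by
  obtain ⟨n, hn⟩ := ENat.ne_top_iff_exists.1 hne
  obtain ⟨g, hg, hg0, hgz⟩ := exists_pow_factor n f hf hn.symm
  -- evenness
  have hpar : ∀ z, z ≠ 0 → (-1) ^ n * g (-z) = g z := by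
    intro z hz
    have h1 := he z
    rw [hgz, hgz, neg_pow] at h1
    have h2 : z ^ n ≠ 0 := pow_ne_zero _ hz
    apply mul_left_cancel₀ h2
    linear_combination h1
  have hpar0 : (-1 : ℂ) ^ n * g (-0) = g 0 := by
    have h1 : Continuous fun z => (-1) ^ n * g (-z) - g z :=
      (continuous_const.mul (hg.continuous.comp continuous_neg)).sub hg.continuous
    have h2 : (fun z => (-1) ^ n * g (-z) - g z) = fun _ => 0 := by
      refine Continuous.ext_on (dense_compl_singleton (0 : ℂ)) h1 continuous_const fun z hz => ?_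
      simp only [hpar z hz, sub_self]
    have h3 : (-1) ^ n * g (-0) - g 0 = 0 := congrFun h2 0
    exact sub_eq_zero.1 h3
  have hn1 : (-1 : ℂ) ^ n = 1 := by
    rw [neg_zero] at hpar0
    exact mul_right_cancel₀ hg0 (by rw [one_mul]; exact hpar0)
  have hge : ∀ z, g (-z) = g z := by
    intro z
    by_cases hz : z = 0
    · rw [hz, neg_zero]
    · have := hpar z hz
      rwa [hn1, one_mul] at this
  have hgim : ∀ a, g a = 0 → a.re = 0 := fun a ha => him a (by rw [hgz, ha, mul_zero])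
  -- growth
  have hggrow : ∀ z, ‖g z‖ ≤ Real.exp ((|C| * 2 ^ (3 / 2 : ℝ)) * (1 + ‖z‖) ^ (3 / 2 : ℝ)) := by
    have hsph : ∀ z, ‖z‖ = 1 → ‖g z‖ ≤ Real.exp (|C| * 2 ^ (3 / 2 : ℝ)) := by
      intro z hz
      have h1 := hgrow z
      rw [hgz, norm_mul, norm_pow, hz, one_pow, one_mul] at h1
      refine h1.trans (Real.exp_le_exp.2 ?_)
      rw [show (1 : ℝ) + 1 = 2 by norm_num]
      exact mul_le_mul_of_nonneg_right (le_abs_self C) (by positivity)
    intro z
    have h0 : (1 : ℝ) ≤ (1 + ‖z‖) ^ (3 / 2 : ℝ) :=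
      Real.one_le_rpow (by linarith [norm_nonneg z]) (by norm_num)
    have h2 : (1 : ℝ) ≤ 2 ^ (3 / 2 : ℝ) := Real.one_le_rpow (by norm_num) (by norm_num)
    rcases le_or_gt ‖z‖ 1 with hz | hz
    · have h1 : ‖g z‖ ≤ Real.exp (|C| * 2 ^ (3 / 2 : ℝ)) := by
        refine Complex.norm_le_of_forall_mem_frontier_norm_le (U := ball 0 1) isBounded_ball
          hg.diffContOnCl (fun w hw => ?_) (z := z) ?_
        · rw [frontier_ball _ one_ne_zero, mem_sphere_zero_iff_norm] at hw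
          exact hsph w hw
        · rw [closure_ball _ one_ne_zero]
          exact mem_closedBall_zero_iff.2 hz
      refine h1.trans (Real.exp_le_exp.2 ?_)
      exact le_mul_of_one_le_right (by positivity) h0
    · have h1 := hgrow z
      rw [hgz, norm_mul, norm_pow] at h1
      have h3 : ‖g z‖ ≤ ‖z‖ ^ n * ‖g z‖ :=
        le_mul_of_one_le_left (norm_nonneg _) (one_le_pow₀ hz.le)
      refine (h3.trans h1).trans (Real.exp_le_exp.2 ?_)
      refine mul_le_mul_of_nonneg_right ?_ (by positivity)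
      exact (le_abs_self C).trans (le_mul_of_one_le_right (abs_nonneg C) h2)
  obtain ⟨g1, g2, g3⟩ := had_main0 hg hge hg0 hgim hggrow
  -- orders
  have hom : ∀ γ : ℝ, om f γ = om g γ + if γ = 0 then n else 0 := by
    intro γ
    have e : f = (fun z => z ^ n) * g := by funext z; exact hgz z
    have hgfin : analyticOrderAt g (γ * I) ≠ ⊤ := by
      intro htop
      have := (AnalyticOnNhd.analyticOrderAt_eq_top_iff_eq_zero (f := g) (γ * I : ℂ) (fun z => hg.analyticAt z)).1 htop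
      exact hg0 (by rw [this]; rfl)
    have hpow : analyticOrderAt (fun z : ℂ => z ^ n) (γ * I) = ((if γ = 0 then n else 0 : ℕ) : ℕ∞) := by
      split_ifs with h
      · subst h
        have h1 := analyticOrderAt_pow (f := fun z : ℂ => z) (z₀ := ((0 : ℝ) : ℂ) * I)
          (by fun_prop) n
        have h2 : analyticOrderAt (fun z : ℂ => z) (((0 : ℝ) : ℂ) * I) = 1 := by
          simp only [ofReal_zero, zero_mul]; exact analyticOrderAt_id
        rw [h2] at h1
        rw [show (fun z : ℂ => z ^ n) = (fun z : ℂ => z) ^ n from rfl, h1]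
        simp
      · have : AnalyticAt ℂ (fun z : ℂ => z ^ n) (γ * I) := by fun_prop
        rw [Nat.cast_zero, this.analyticOrderAt_eq_zero]
        have : (γ * I : ℂ) ≠ 0 := by simpa using h
        exact pow_ne_zero _ this
    unfold om analyticOrderNatAt
    rw [e, analyticOrderAt_mul (by fun_prop) (hg.analyticAt _), hpow, ENat.toNat_add (ENat.natCast_ne_top _) hgfin,
      ENat.toNat_natCast, add_comm]
  refine ⟨fun R => ?_, ?_, fun z hz => ?_⟩
  · refine ((g1 R).union (finite_singleton (0 : ℝ))).subset fun γ hγ => ?_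
    by_cases h : γ = 0
    · right; exact h
    · left
      refine ⟨hγ.1, ?_⟩
      have := hγ.2
      rw [hom, if_neg h, add_zero] at this
      exact this
  · have h1 : Summable fun γ : ℝ => (if γ = 0 then (n : ℝ) else 0) :=
      summable_of_hasFiniteSupport ((finite_singleton (0 : ℝ)).subset fun γ hγ => by
        by_contra h
        exact hγ (if_neg h))
    refine (g2.add h1).congr fun γ => ?_
    rw [hom]
    split_ifs with h
    · subst h; push_cast; ring
    · push_cast; ring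
  · have hz0 : z ≠ 0 := fun h => by rw [h] at hz; simp at hz
    have h1 : HasSum (fun γ : ℝ => (if γ = 0 then (n : ℂ) / z else 0)) ((n : ℂ) / z) :=
      hasSum_ite_eq 0 _
    have h2 := (g3 z hz).add h1
    have h3 : logDeriv f z = logDeriv g z + n / z := by
      have e : f = (fun z => z ^ n) * g := by funext z; exact hgz z
      have hgz0 : g z ≠ 0 := fun h => by
        have := hgim z h
        linarith
      have h4 := logDeriv_mul (f := fun z : ℂ => z ^ n) (g := g) z (pow_ne_zero _ hz0) hgz0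
        (by fun_prop) (hg z)
      have h5 : logDeriv (fun z : ℂ => z ^ n) z = n / z := by
        rw [logDeriv_apply, deriv_pow_field]
        rcases n with _ | n
        · simp
        · simp only [Nat.add_sub_cancel, pow_succ]
          field_simp
      rw [h5] at h4
      rw [e, add_comm, ← h4]
      rfl
    rw [h3]
    refine h2.congr_fun fun γ => ?_
    rw [hom]
    split_ifs with h
    · subst h
      push_cast
      field_simp
      ring
    · push_cast; ring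

end Pool.Agent.helper30.LR
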