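import Pool.Agent.helper30.LR.Core

noncomputable section

namespace Pool.Agent.helper30.LR

open Complex MeasureTheory Set Filter Topology ArithmeticFunction
open Pool.Agent.helper4.LRL (AA continuous_AA l2_integrable l2_bound)

/-- energy at distance one -/
def DD (G : Finset ℝ) : ℝ := ∑ γ ∈ G, ∑ γ' ∈ G, (mult γ : ℝ) * (mult γ' : ℝ) / (1 + (γ - γ') ^ 2)

theorem line_int (G : Finset ℝ) {a X c A D : ℝ} (ha : a ≠ 0) (hX : 0 < X) (hc : 0 < c)
    (hc1 : c ≤ 1) (hA : max 1 (1 / a ^ 2) ≤ A) (hD : DD G ≤ D) :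
    ∫ x in (-X)..X, ‖AA mult G (a * x)‖ ^ 2 * Real.exp (-(c * |x|)) ≤ 2 / c * A * D := by
  have h1 := l2_bound mult G ha hc hc1
  have h2 := l2_integrable mult G a hc
  have h0 : 0 ≤ DD G := Finset.sum_nonneg fun γ _ => Finset.sum_nonneg fun γ' _ => by positivity
  rw [intervalIntegral.integral_of_le (by linarith)]
  refine (setIntegral_le_integral h2 (Eventually.of_forall fun x => by positivity)).trans
    (h1.trans ?_)
  have : 0 ≤ max 1 (1 / a ^ 2) := le_trans zero_le_one (le_max_left _ _)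
  have hA0 : 0 ≤ A := this.trans hA
  calc 2 / c * max 1 (1 / a ^ 2) * DD G ≤ 2 / c * A * D := by
        gcongr

theorem prodAA {n : ℕ} (a : Fin (n + 2) → ℝ) (G : Fin (n + 2) → Finset ℝ) {Mx : ℝ}
    (hM : ∀ j, ∑ γ ∈ G j, (mult γ : ℝ) ≤ Mx) (x : ℝ) :
    ∏ j, ‖AA mult (G j) (a j * x)‖ ≤
      (‖AA mult (G 0) (a 0 * x)‖ ^ 2 + ‖AA mult (G 1) (a 1 * x)‖ ^ 2) / 2 * Mx ^ n := by
  rw [Fin.prod_univ_succ, Fin.prod_univ_succ, ← mul_assoc, Fin.succ_zero_eq_one]
  have h1 : ∏ i : Fin n, ‖AA mult (G i.succ.succ) (a i.succ.succ * x)‖ ≤ Mx ^ n := by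
    calc _ ≤ ∏ _i : Fin n, Mx :=
          Finset.prod_le_prod (fun i _ => norm_nonneg _) fun i _ =>
            (norm_AA_le _ _ _).trans (hM _)
      _ = Mx ^ n := by simp
  have h2 : 0 ≤ ∏ i : Fin n, ‖AA mult (G i.succ.succ) (a i.succ.succ * x)‖ :=
    Finset.prod_nonneg fun i _ => norm_nonneg _
  refine mul_le_mul ?_ h1 h2 (by positivity)
  nlinarith [sq_nonneg (‖AA mult (G 0) (a 0 * x)‖ - ‖AA mult (G 1) (a 1 * x)‖)]

theorem int_bound (hRH : RiemannHypothesis) : ∃ C : ℝ, 0 < C ∧ ∀ H : ℝ, 4 ≤ H → ∀ X : ℝ, 1 ≤ X →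
    ∀ (n : ℕ) (a : Fin (n + 2) → ℝ) (_ : ∀ j, a j ≠ 0) (G : Fin (n + 2) → Finset ℝ)
      (Mx A D : ℝ), 0 ≤ Mx →
    (∀ j, ∑ γ ∈ G j, (mult γ : ℝ) ≤ Mx) → (∀ j, max 1 (1 / a j ^ 2) ≤ A) → (∀ j, DD (G j) ≤ D) →
    ∫ x in (-X)..X, |EE H x| * ∏ j, ‖AA mult (G j) (a j * x)‖ ≤
      C * Mx ^ n * A * D * (H + X * (1 + X) * Real.exp (X / 2)) := by
  obtain ⟨C, hC, hE⟩ := EE_bound hRH
  refine ⟨8 * C, by positivity, fun H hH X hX n a ha G Mx A D hMx hM hA hD => ?_⟩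
  have hX0 : 0 < X := by linarith
  have hH0 : 0 < H := by linarith
  have hEc := EE_continuous hRH hH0
  have hAA : ∀ j, Continuous fun x : ℝ => AA mult (G j) (a j * x) := fun j =>
    continuous_AA mult (G j) (a j)
  have hA1 : 1 ≤ A := (le_max_left _ _).trans (hA 0)
  have hD0 : 0 ≤ D := le_trans (Finset.sum_nonneg fun γ _ => Finset.sum_nonneg fun γ' _ =>
    by positivity) (hD 0)
  set Y := 3 * ((1 + X) * Real.exp (X / 2)) with hY
  have hY0 : 0 ≤ Y := by positivity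
  -- pointwise bound
  have hpt : ∀ x ∈ Icc (-X) X, |EE H x| * ∏ j, ‖AA mult (G j) (a j * x)‖ ≤
      C * Mx ^ n / 2 * (H * (‖AA mult (G 0) (a 0 * x)‖ ^ 2 * Real.exp (-(1 / 4 * |x|))) +
        H * (‖AA mult (G 1) (a 1 * x)‖ ^ 2 * Real.exp (-(1 / 4 * |x|))) +
        (Y * (‖AA mult (G 0) (a 0 * x)‖ ^ 2 * Real.exp (-(1 / X * |x|))) +
        Y * (‖AA mult (G 1) (a 1 * x)‖ ^ 2 * Real.exp (-(1 / X * |x|))))) := by
    intro x hx
    have h1 := hE H hH x
    have h2 := prodAA a G hM x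
    have hxX : |x| ≤ X := abs_le.2 ⟨hx.1, hx.2⟩
    have h3 : (1 + |x|) * Real.exp (|x| / 2) ≤ Y * Real.exp (-(1 / X * |x|)) := by
      have h4 : 1 ≤ 3 * Real.exp (-(1 / X * |x|)) := by
        have h5 : Real.exp (-1) ≤ Real.exp (-(1 / X * |x|)) := by
          refine Real.exp_le_exp.2 (neg_le_neg ?_)
          rw [one_div, inv_mul_le_iff₀ hX0, mul_one]; exact hxX
        have h6 : 1 ≤ 3 * Real.exp (-1) := by
          have h7 : Real.exp 1 * Real.exp (-1) = 1 := by rw [← Real.exp_add]; simp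
          have h8 := Real.exp_one_lt_d9
          have h9 := Real.exp_pos (-1)
          nlinarith
        linarith
      have h7 : (1 + |x|) * Real.exp (|x| / 2) ≤ (1 + X) * Real.exp (X / 2) := by
        gcongr
      calc _ ≤ (1 + X) * Real.exp (X / 2) * 1 := by rw [mul_one]; exact h7
        _ ≤ (1 + X) * Real.exp (X / 2) * (3 * Real.exp (-(1 / X * |x|))) := by gcongr
        _ = _ := by rw [hY]; ring
    calc _ ≤ (C * (H * Real.exp (-(1 / 4 * |x|)) + Y * Real.exp (-(1 / X * |x|)))) *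
        ((‖AA mult (G 0) (a 0 * x)‖ ^ 2 + ‖AA mult (G 1) (a 1 * x)‖ ^ 2) / 2 * Mx ^ n) := by
          refine mul_le_mul (h1.trans (by gcongr)) h2
            (Finset.prod_nonneg fun j _ => norm_nonneg _) (by positivity)
      _ = _ := by ring
  have i0 : ∀ (j : Fin (n + 2)) (c : ℝ), IntervalIntegrable (fun x : ℝ =>
      ‖AA mult (G j) (a j * x)‖ ^ 2 * Real.exp (-(c * |x|))) volume (-X) X := by
    intro j c
    refine Continuous.intervalIntegrable ?_ _ _
    have := hAA j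
    fun_prop
  have i1 : ∀ (j : Fin (n + 2)) (c d : ℝ), IntervalIntegrable (fun x : ℝ =>
      d * (‖AA mult (G j) (a j * x)‖ ^ 2 * Real.exp (-(c * |x|)))) volume (-X) X := by
    intro j c d
    exact (i0 j c).const_mul d
  have hint := intervalIntegral.integral_mono_on (μ := volume) (a := -X) (b := X) (by linarith)
    (f := fun x => |EE H x| * ∏ j, ‖AA mult (G j) (a j * x)‖) (by
      refine Continuous.intervalIntegrable ?_ _ _
      refine hEc.abs.mul ?_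
      exact continuous_finsetProd _ fun j _ => (hAA j).norm)
    ((((i1 0 (1 / 4) H).add (i1 1 (1 / 4) H)).add ((i1 0 (1 / X) Y).add (i1 1 (1 / X) Y))).const_mul
      (C * Mx ^ n / 2)) hpt
  refine hint.trans ?_
  have hval : ∫ x in (-X)..X, C * Mx ^ n / 2 *
        (H * (‖AA mult (G 0) (a 0 * x)‖ ^ 2 * Real.exp (-(1 / 4 * |x|))) +
        H * (‖AA mult (G 1) (a 1 * x)‖ ^ 2 * Real.exp (-(1 / 4 * |x|))) +
        (Y * (‖AA mult (G 0) (a 0 * x)‖ ^ 2 * Real.exp (-(1 / X * |x|))) +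
        Y * (‖AA mult (G 1) (a 1 * x)‖ ^ 2 * Real.exp (-(1 / X * |x|))))) =
      C * Mx ^ n / 2 *
        (H * (∫ x in (-X)..X, ‖AA mult (G 0) (a 0 * x)‖ ^ 2 * Real.exp (-(1 / 4 * |x|))) +
        H * (∫ x in (-X)..X, ‖AA mult (G 1) (a 1 * x)‖ ^ 2 * Real.exp (-(1 / 4 * |x|))) +
        (Y * (∫ x in (-X)..X, ‖AA mult (G 0) (a 0 * x)‖ ^ 2 * Real.exp (-(1 / X * |x|))) +
        Y * (∫ x in (-X)..X, ‖AA mult (G 1) (a 1 * x)‖ ^ 2 * Real.exp (-(1 / X * |x|))))) := by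
    have j1 : IntervalIntegrable (fun x : ℝ =>
      H * (‖AA mult (G 0) (a 0 * x)‖ ^ 2 * Real.exp (-(1 / 4 * |x|))) +
      H * (‖AA mult (G 1) (a 1 * x)‖ ^ 2 * Real.exp (-(1 / 4 * |x|)))) volume (-X) X :=
        (i1 0 (1 / 4) H).add (i1 1 (1 / 4) H)
    have j2 : IntervalIntegrable (fun x : ℝ =>
      Y * (‖AA mult (G 0) (a 0 * x)‖ ^ 2 * Real.exp (-(1 / X * |x|))) +
      Y * (‖AA mult (G 1) (a 1 * x)‖ ^ 2 * Real.exp (-(1 / X * |x|)))) volume (-X) X :=
        (i1 0 (1 / X) Y).add (i1 1 (1 / X) Y)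
    rw [intervalIntegral.integral_const_mul, intervalIntegral.integral_add j1 j2,
      intervalIntegral.integral_add (i1 0 (1 / 4) H) (i1 1 (1 / 4) H),
      intervalIntegral.integral_add (i1 0 (1 / X) Y) (i1 1 (1 / X) Y),
      intervalIntegral.integral_const_mul, intervalIntegral.integral_const_mul,
      intervalIntegral.integral_const_mul, intervalIntegral.integral_const_mul]
  rw [hval]
  have hc : ∀ j : Fin (n + 2), ∫ x in (-X)..X, ‖AA mult (G j) (a j * x)‖ ^ 2 *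
      Real.exp (-(1 / 4 * |x|)) ≤ 8 * A * D := fun j => by
    have := line_int (G j) (ha j) hX0 (c := 1 / 4) (by norm_num) (by norm_num) (hA j) (hD j)
    norm_num at this ⊢
    exact this
  have hd : ∀ j : Fin (n + 2), ∫ x in (-X)..X, ‖AA mult (G j) (a j * x)‖ ^ 2 *
      Real.exp (-(1 / X * |x|)) ≤ 2 * X * A * D := fun j => by
    have := line_int (G j) (ha j) hX0 (c := 1 / X) (by positivity)
      (by rw [div_le_one hX0]; exact hX) (hA j) (hD j)
    rwa [show 2 / (1 / X) = 2 * X by field_simp] at this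
  calc _ ≤ C * Mx ^ n / 2 * (H * (8 * A * D) + H * (8 * A * D) +
        (Y * (2 * X * A * D) + Y * (2 * X * A * D))) := by
        gcongr
        · exact hc 0
        · exact hc 1
        · exact hd 0
        · exact hd 1
    _ = C * Mx ^ n * A * D * (8 * H + 6 * (X * (1 + X) * Real.exp (X / 2))) := by
        rw [hY]; ring
    _ ≤ C * Mx ^ n * A * D * (8 * (H + X * (1 + X) * Real.exp (X / 2))) := by
        have h9 : 0 ≤ X * (1 + X) * Real.exp (X / 2) := by positivity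
        gcongr
        linarith
    _ = _ := by ring

end Pool.Agent.helper30.LR
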