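import Pool.Agent.helper30.LR.Explicit

noncomputable section

namespace Pool.Agent.helper30.LR

open Complex MeasureTheory Set Filter Topology ArithmeticFunction

theorem GG_bound_log {z : ℂ} (h0 : 0 ≤ z.re) (h1 : z.re ≤ 1) :
    ‖GG (1 / 2 + z)‖ ≤ 18 + Real.log (|z.im| + 1) := by
  have hre : ((1 / 2 + z) / 2).re = (1 / 2 + z.re) / 2 := by simp
  have him : ((1 / 2 + z) / 2).im = z.im / 2 := by simp
  have h2 := digamma_log (s := (1 / 2 + z) / 2) (by rw [hre]; linarith) (by rw [hre]; linarith)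
  rw [him] at h2
  have h3 := log_pi_le
  have h6 : Real.log (|z.im / 2| + 1) ≤ Real.log (|z.im| + 1) := by
    refine Real.log_le_log (by positivity) ?_
    rw [abs_div, abs_two]
    linarith [abs_nonneg z.im]
  have h7 : 0 ≤ Real.log (|z.im / 2| + 1) := Real.log_nonneg (by linarith [abs_nonneg (z.im / 2)])
  have h4 : ‖digamma ((1 / 2 + z) / 2)‖ ≤ 33 + Real.log (|z.im| + 1) := by
    have h5 := norm_le_norm_add_norm_sub' (digamma ((1 / 2 + z) / 2))
      ((Real.log (|z.im / 2| + 1) : ℝ) : ℂ)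
    rw [Complex.norm_real, Real.norm_eq_abs] at h5
    rw [abs_of_nonneg h7] at h5
    linarith
  unfold GG
  have h5 := norm_add_le (-(Real.log Real.pi : ℂ) / 2) (digamma ((1 / 2 + z) / 2) / 2)
  have h8 : ‖(-(Real.log Real.pi : ℂ) / 2)‖ ≤ 1 := by
    rw [norm_div, norm_neg, Complex.norm_real, Real.norm_eq_abs, Complex.norm_ofNat]
    linarith
  have h9 : ‖digamma ((1 / 2 + z) / 2) / 2‖ ≤ (33 + Real.log (|z.im| + 1)) / 2 := by
    rw [norm_div, Complex.norm_ofNat]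
    linarith
  linarith

theorem re_pf (t γ : ℝ) : ((1 + t * I : ℂ) / ((1 + t * I) ^ 2 + (γ : ℂ) ^ 2)).re =
    1 / 2 * (1 / (1 + (t - γ) ^ 2) + 1 / (1 + (t + γ) ^ 2)) := by
  have h1 : (1 + (t - γ : ℝ) * I : ℂ) ≠ 0 := fun h => by
    have := congrArg Complex.re h
    norm_num at this
  have h2 : (1 + (t + γ : ℝ) * I : ℂ) ≠ 0 := fun h => by
    have := congrArg Complex.re h
    norm_num at this
  have e0 : (1 + t * I : ℂ) ^ 2 + (γ : ℂ) ^ 2 =
      (1 + (t - γ : ℝ) * I) * (1 + (t + γ : ℝ) * I) := by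
    push_cast
    linear_combination (γ : ℂ) ^ 2 * I_sq
  have e1 : (1 + t * I : ℂ) / ((1 + t * I) ^ 2 + (γ : ℂ) ^ 2) =
      (1 / (1 + (t - γ : ℝ) * I) + 1 / (1 + (t + γ : ℝ) * I)) / 2 := by
    rw [e0]
    have h3 : (1 + t * I : ℂ) = ((1 + (t - γ : ℝ) * I) + (1 + (t + γ : ℝ) * I)) / 2 := by
      push_cast; ring
    rw [h3]
    generalize (1 + (t - γ : ℝ) * I : ℂ) = u at h1 ⊢
    generalize (1 + (t + γ : ℝ) * I : ℂ) = v at h2 ⊢
    field_simp
    ring
  have key : ∀ y : ℝ, (1 / (1 + y * I) : ℂ).re = 1 / (1 + y ^ 2) := by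
    intro y
    rw [one_div, inv_re, normSq_apply]
    simp
    ring
  rw [e1, div_ofNat_re, add_re, key, key]
  ring

theorem local_count (hRH : RiemannHypothesis) : ∃ C : ℝ, 0 < C ∧ ∀ t : ℝ,
    (Summable fun γ : ℝ => (mult γ : ℝ) / (1 + (t - γ) ^ 2)) ∧
    ∑' γ : ℝ, (mult γ : ℝ) / (1 + (t - γ) ^ 2) ≤ C * Real.log (|t| + 2) := by
  obtain ⟨-, -, hz⟩ := hadXi hRH
  set L0 := ∑' n : ℕ, vonMangoldt n / Real.sqrt n * Real.exp (-Real.log n) with hL0
  have hL0' : 0 ≤ L0 := tsum_nonneg fun n => by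
    have := vonMangoldt_nonneg (n := n)
    positivity
  refine ⟨2 * (2 * (21 + L0) + 1), by positivity, fun t => ?_⟩
  have h1 := Complex.reCLM.hasSum (hz (1 + t * I) (by simp))
  have e : ∀ γ : ℝ, reCLM ((mult γ : ℂ) * ((1 + t * I) / ((1 + t * I) ^ 2 + (γ : ℂ) ^ 2))) =
      (mult γ : ℝ) * (1 / 2 * (1 / (1 + (t - γ) ^ 2) + 1 / (1 + (t + γ) ^ 2))) := by
    intro γ
    rw [reCLM_apply, ← re_pf]
    have : ((mult γ : ℂ)) = (((mult γ : ℝ)) : ℂ) := by push_cast; rfl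
    rw [this, re_ofReal_mul]
  have h2 : HasSum (fun γ : ℝ => 2 * ((mult γ : ℝ) *
      (1 / 2 * (1 / (1 + (t - γ) ^ 2) + 1 / (1 + (t + γ) ^ 2)))))
      (2 * reCLM (logDeriv xi (1 + t * I))) := by
    have := h1.mul_left 2
    simp_rw [e] at this
    exact this
  have hle : ∀ γ : ℝ, (mult γ : ℝ) / (1 + (t - γ) ^ 2) ≤
      2 * ((mult γ : ℝ) * (1 / 2 * (1 / (1 + (t - γ) ^ 2) + 1 / (1 + (t + γ) ^ 2)))) := by
    intro γ
    have h3 : 0 ≤ (mult γ : ℝ) * (1 / (1 + (t + γ) ^ 2)) := by positivity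
    have h4 : (mult γ : ℝ) / (1 + (t - γ) ^ 2) = (mult γ : ℝ) * (1 / (1 + (t - γ) ^ 2)) := by ring
    rw [h4]; nlinarith
  have hs : Summable fun γ : ℝ => (mult γ : ℝ) / (1 + (t - γ) ^ 2) :=
    Summable.of_nonneg_of_le (fun γ => by positivity) hle h2.summable
  refine ⟨hs, ?_⟩
  have h5 := hs.tsum_le_tsum hle h2.summable
  rw [h2.tsum_eq] at h5
  refine h5.trans ?_
  have h6 : (logDeriv xi (1 + t * I)).re ≤ 2 * (21 + L0) / 2 + Real.log (|t| + 1) := by
    refine (re_le_norm _).trans ?_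
    rw [logDeriv_xi (z := 1 + t * I) (by norm_num)]
    have a1 : ‖(1 / (1 / 2 + (1 + t * I)) : ℂ)‖ ≤ 1 := by
      rw [norm_div, norm_one]
      have : 1 ≤ ‖(1 / 2 + (1 + t * I) : ℂ)‖ := by
        have h := re_le_norm (1 / 2 + (1 + t * I) : ℂ)
        norm_num at h
        linarith
      rw [div_le_one (by linarith)]; exact this
    have a2 : ‖(1 / (1 + t * I - 1 / 2) : ℂ)‖ ≤ 2 := by
      rw [norm_div, norm_one]
      have : 1 / 2 ≤ ‖(1 + t * I - 1 / 2 : ℂ)‖ := by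
        have h := re_le_norm (1 + t * I - 1 / 2 : ℂ)
        norm_num at h
        linarith
      rw [div_le_iff₀ (by linarith)]; linarith
    have a3 := GG_bound_log (z := 1 + t * I) (by simp) (by simp)
    have him : (1 + t * I : ℂ).im = t := by simp
    rw [him] at a3
    have a4 := L_bound (z := 1 + t * I) (by simp)
    have a5 := norm_sub_le (1 / (1 / 2 + (1 + t * I)) + 1 / (1 + t * I - 1 / 2) +
      GG (1 / 2 + (1 + t * I))) (LSeries (fun n => (vonMangoldt n : ℂ)) (1 / 2 + (1 + t * I)))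
    have a6 := norm_add_le (1 / (1 / 2 + (1 + t * I)) + 1 / (1 + t * I - 1 / 2))
      (GG (1 / 2 + (1 + t * I)))
    have a7 := norm_add_le (1 / (1 / 2 + (1 + t * I)) : ℂ) (1 / (1 + t * I - 1 / 2))
    linarith
  rw [reCLM_apply]
  have h7 : Real.log (|t| + 1) ≤ Real.log (|t| + 2) :=
    Real.log_le_log (by positivity) (by linarith)
  have h8 : 1 / 2 ≤ Real.log (|t| + 2) := by
    have h9 : Real.log 2 ≤ Real.log (|t| + 2) :=
      Real.log_le_log (by norm_num) (by linarith [abs_nonneg t])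
    have := Real.log_two_gt_d9
    linarith
  nlinarith

/-- a zero on the line has positive multiplicity -/
theorem mult_pos {γ : ℝ} (h : riemannZeta (1 / 2 + γ * I) = 0) : 1 ≤ mult γ := by
  rw [Nat.one_le_iff_ne_zero, ← om_xi]
  have hre : 0 < (1 / 2 + (γ * I : ℂ)).re := by simp
  have h1 : 1 / 2 + (γ * I : ℂ) ≠ 1 := fun h => by
    have := congrArg Complex.re h
    norm_num at this
  have h2 : xi (γ * I) = 0 := by rw [xi_eq_zeta hre h1, h, mul_zero]
  have h3 : analyticOrderAt xi (γ * I) ≠ 0 := by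
    intro h0
    exact ((xi_diff.analyticAt _).analyticOrderAt_eq_zero.1 h0) h2
  have h4 : analyticOrderAt xi (γ * I) ≠ ⊤ := by
    intro h
    have h1 : AnalyticOnNhd ℂ xi univ := fun z _ => xi_diff.analyticAt z
    have h2 := h1.eqOn_zero_of_preconnected_of_eventuallyEq_zero isPreconnected_univ
      (mem_univ (γ * I : ℂ)) (analyticOrderAt_eq_top.1 h)
    exact xi_ne_zero_of_re (z := 1) (by norm_num) (h2 (mem_univ 1))
  unfold om analyticOrderNatAt
  rw [ne_eq, ENat.toNat_eq_zero, not_or]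
  exact ⟨h3, h4⟩

end Pool.Agent.helper30.LR
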