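import Pool.Agent.helper30.LR.IntBound
import Pool.Agent.helper37.LRM.Mass

noncomputable section

namespace Pool.Agent.helper30.LR

open Complex MeasureTheory Set Filter Topology ArithmeticFunction
open Pool.Agent.helper4.LRL (AA continuous_AA l2_integrable l2_bound)

theorem mass (hRH : RiemannHypothesis) :
    (∃ C : ℝ, 0 < C ∧ ∀ R : ℝ, 4 ≤ R → ∀ G : Finset ℝ, (∀ γ ∈ G, |γ| ≤ R) →
      ∑ γ ∈ G, (mult γ : ℝ) ≤ C * (R * Real.log R)) ∧
    (∃ c : ℝ, 0 < c ∧ ∃ T0 : ℝ, ∀ T : ℝ, T0 ≤ T → ∃ G : Finset ℝ, (∀ γ ∈ G, 0 < γ ∧ γ ≤ T) ∧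
      c * (T * Real.log T) ≤ ∑ γ ∈ G, (mult γ : ℝ)) := by
  refine Pool.Agent.helper37.LRM.mass_bounds gg gg_continuous gg_log mult mult_neg fun H hH => ?_
  have h := explicit hRH hH 0
  simpa using h

/-- energy bound -/
theorem DD_bound (hRH : RiemannHypothesis) : ∃ C : ℝ, 0 < C ∧ ∀ R : ℝ, 0 ≤ R → ∀ G : Finset ℝ,
    (∀ γ ∈ G, |γ| ≤ R) → DD G ≤ (∑ γ ∈ G, (mult γ : ℝ)) * (C * Real.log (R + 2)) := by
  obtain ⟨C, hC, hl⟩ := local_count hRH
  refine ⟨C, hC, fun R hR G hG => ?_⟩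
  unfold DD
  rw [Finset.sum_mul]
  refine Finset.sum_le_sum fun γ hγ => ?_
  have h1 : ∑ γ' ∈ G, (mult γ : ℝ) * (mult γ' : ℝ) / (1 + (γ - γ') ^ 2) =
      (mult γ : ℝ) * ∑ γ' ∈ G, (mult γ' : ℝ) / (1 + (γ - γ') ^ 2) := by
    rw [Finset.mul_sum]
    exact Finset.sum_congr rfl fun γ' _ => by ring
  rw [h1]
  refine mul_le_mul_of_nonneg_left ?_ (Nat.cast_nonneg _)
  refine ((hl γ).1.sum_le_tsum G fun γ' _ => by positivity).trans ((hl γ).2.trans ?_)
  have := hG γ hγ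
  have h0 := abs_nonneg γ
  gcongr

theorem theta_aux {θ : ℝ} (h0 : 0 < θ) (h1 : θ ≤ 1 / 4) :
    Real.exp θ ≤ (1 / 2 + 3 * θ) * (2 * (1 - θ)) := by
  have h2 := Real.add_one_le_exp (-θ)
  have h3 : Real.exp θ * Real.exp (-θ) = 1 := by rw [← Real.exp_add]; simp
  have h4 := Real.exp_pos θ
  have h5 : Real.exp θ * (1 - θ) ≤ 1 := by nlinarith
  have h6 : 1 ≤ (1 + 6 * θ) * (1 - θ) * (1 - θ) := by nlinarith [mul_pos h0 h0]
  have h7 : Real.exp θ * (1 - θ) ≤ ((1 + 6 * θ) * (1 - θ)) * (1 - θ) := h5.trans h6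
  have h8 := le_of_mul_le_mul_right h7 (by linarith)
  linarith

theorem exp_sq_aux {θ L : ℝ} (h0 : 0 < θ) (hL : 0 < L) :
    L ^ 2 * Real.exp (-(θ * L)) ≤ 2 / θ ^ 2 := by
  have h1 := Real.quadratic_le_exp_of_nonneg (x := θ * L) (by positivity)
  have h3 : Real.exp (θ * L) * Real.exp (-(θ * L)) = 1 := by rw [← Real.exp_add]; simp
  have h4 := Real.exp_pos (-(θ * L))
  have h5 : (θ * L) ^ 2 / 2 ≤ Real.exp (θ * L) := by nlinarith [mul_pos h0 hL]
  rw [le_div_iff₀ (by positivity)]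
  have h6 := mul_le_mul_of_nonneg_right h5 h4.le
  rw [h3] at h6
  nlinarith

/-- main theorem, first form -/
theorem main1 (hRH : RiemannHypothesis) {n : ℕ} (a : Fin (n + 2) → ℝ) (ha : ∀ j, a j ≠ 0)
    {K ε : ℝ} (hK : 1 ≤ K) (hε : 0 < ε) :
    ∃ T0 : ℝ, 4 ≤ T0 ∧ ∀ T : ℝ, T0 ≤ T → ∀ α : ℝ, |α| ≤ K * T → ∀ G : Fin (n + 2) → Finset ℝ,
      (∀ j, ∀ γ ∈ G j, |γ| ≤ K * T) →
      ∑ g ∈ Fintype.piFinset G, (∏ j, (mult (g j) : ℝ)) * (mult (∑ j, a j * g j + α) : ℝ) ≤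
        1 / 2 * ∏ j, ∑ γ ∈ G j, (mult γ : ℝ) + ε * (T * Real.log T) ^ (n + 2) := by
  obtain ⟨CA, hcore⟩ := core hRH
  obtain ⟨C1, hC1, hint⟩ := int_bound hRH
  obtain ⟨⟨CM, hCM, hmass⟩, -⟩ := mass hRH
  obtain ⟨CL, hCL, hDD⟩ := DD_bound hRH
  set A : ℝ := 1 + ∑ j, 1 / a j ^ 2 with hAd
  have hApos : 0 ≤ ∑ j, 1 / a j ^ 2 := Finset.sum_nonneg fun j _ => by positivity
  have hA : ∀ j, max 1 (1 / a j ^ 2) ≤ A := by
    intro j
    have h1 : 1 / a j ^ 2 ≤ ∑ j, 1 / a j ^ 2 :=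
      Finset.single_le_sum (f := fun j => 1 / a j ^ 2) (fun j _ => by positivity)
        (Finset.mem_univ j)
    refine max_le ?_ ?_ <;> linarith
  set Sa : ℝ := ∑ j, |a j| + 1 with hSa
  have hSapos : 0 ≤ ∑ j, |a j| := Finset.sum_nonneg fun j _ => abs_nonneg _
  set c1 : ℝ := 2 * CM * K with hc1
  have hc1pos : 0 < c1 := by positivity
  set θ : ℝ := min (1 / 4) (ε / (6 * c1 ^ (n + 2))) with hθd
  have hθ0 : 0 < θ := lt_min (by norm_num) (by positivity)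
  have hθ1 : θ ≤ 1 / 4 := min_le_left _ _
  have hθ2 : 3 * θ * c1 ^ (n + 2) ≤ ε / 2 := by
    have h1 : θ ≤ ε / (6 * c1 ^ (n + 2)) := min_le_right _ _
    rw [le_div_iff₀ (by positivity)] at h1
    linarith
  set ρ : ℝ := Real.sqrt θ with hρd
  have hρ0 : 0 < ρ := Real.sqrt_pos.2 hθ0
  have hρsq : ρ ^ 2 = θ := Real.sq_sqrt hθ0.le
  have hρ1 : ρ ≤ 1 := by
    rw [hρd, Real.sqrt_le_one]; linarith
  set κ : ℝ := Sa * K / ρ with hκd
  have hκ1 : 1 ≤ κ := by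
    rw [hκd, le_div_iff₀ hρ0]
    have : 1 ≤ Sa := by linarith
    nlinarith
  set C2 : ℝ := C1 * c1 ^ n * A * (4 * c1 * CL) * (κ + 12 / θ ^ 2) with hC2
  have hA0 : 0 ≤ A := by linarith
  have hC2pos : 0 ≤ C2 := by positivity
  set B : ℝ := |Real.log κ + CA| * c1 ^ (n + 2) + C2 with hB
  have hBpos : 0 ≤ B := by positivity
  refine ⟨max (max 4 K) (Real.exp (max 1 (4 * B / ε))), (le_max_left _ _).trans (le_max_left _ _),
    fun T hT α hα G hG => ?_⟩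
  have hT4 : 4 ≤ T := ((le_max_left _ _).trans (le_max_left _ _)).trans hT
  have hTK : K ≤ T := ((le_max_right _ _).trans (le_max_left _ _)).trans hT
  have hT0 : 0 < T := by linarith
  set L := Real.log T with hLd
  have hLe : max 1 (4 * B / ε) ≤ L := by
    rw [hLd, Real.le_log_iff_exp_le hT0]
    exact (le_max_right _ _).trans hT
  have hL1 : 1 ≤ L := (le_max_left _ _).trans hLe
  have hL2 : 4 * B / ε ≤ L := (le_max_right _ _).trans hLe
  have hL0 : 0 < L := by linarith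
  set Q := T * L with hQ
  have hQ0 : 0 < Q := by positivity
  -- masses
  have hR4 : 4 ≤ K * T := by nlinarith
  have hlogR : Real.log (K * T) ≤ 2 * L := by
    rw [Real.log_mul (by linarith) hT0.ne']
    have := Real.log_le_log (by linarith) hTK
    linarith
  have hM : ∀ j, ∑ γ ∈ G j, (mult γ : ℝ) ≤ c1 * Q := by
    intro j
    refine (hmass (K * T) hR4 (G j) (hG j)).trans ?_
    have h1 : K * T * Real.log (K * T) ≤ K * T * (2 * L) := by gcongr
    calc CM * (K * T * Real.log (K * T)) ≤ CM * (K * T * (2 * L)) := by gcongr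
      _ = _ := by rw [hc1, hQ]; ring
  have hM0 : ∀ j, 0 ≤ ∑ γ ∈ G j, (mult γ : ℝ) := fun j => Finset.sum_nonneg fun _ _ =>
    Nat.cast_nonneg _
  have hlogR2 : Real.log (K * T + 2) ≤ 4 * L := by
    have h1 : K * T + 2 ≤ (K * T) ^ 2 := by nlinarith
    have h2 := Real.log_le_log (by positivity) h1
    rw [Real.log_pow] at h2
    push_cast at h2
    linarith
  have hD : ∀ j, DD (G j) ≤ 4 * c1 * CL * Q * L := by
    intro j
    refine (hDD (K * T) (by positivity) (G j) (hG j)).trans ?_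
    have h0 : 0 ≤ Real.log (K * T + 2) := Real.log_nonneg (by linarith)
    calc (∑ γ ∈ G j, (mult γ : ℝ)) * (CL * Real.log (K * T + 2)) ≤
        (c1 * Q) * (CL * (4 * L)) := by
          gcongr
          exact hM j
      _ = _ := by ring
  -- the parameters
  set H := κ * T with hHd
  have hH4 : 4 ≤ H := by nlinarith
  set X := 2 * (1 - θ) * L with hXd
  have hX1 : 1 ≤ X := by nlinarith
  have hX0 : 0 < X := by linarith
  have hs : ∀ g ∈ Fintype.piFinset G, |∑ j, a j * g j + α| ≤ ρ * H := by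
    intro g hg
    rw [Fintype.mem_piFinset] at hg
    have h1 : |∑ j, a j * g j| ≤ ∑ j, |a j| * (K * T) := by
      refine (Finset.abs_sum_le_sum_abs _ _).trans (Finset.sum_le_sum fun j _ => ?_)
      rw [abs_mul]
      have := hG j (g j) (hg j)
      gcongr
    have h2 := abs_add_le (∑ j, a j * g j) α
    have h3 : ρ * H = Sa * K * T := by
      rw [hHd, hκd]; field_simp
    rw [h3, hSa]
    rw [← Finset.sum_mul] at h1
    nlinarith
  have hc := hcore H hH4 X hX0 (n + 2) a α G ρ hρ0.le hs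
  have hi := hint H hH4 X hX1 n a ha G (c1 * Q) A (4 * c1 * CL * Q * L) (by positivity) hM hA hD
  rw [hρsq] at hc
  -- size of the error integral
  have hexpX : Real.exp (X / 2) = T * Real.exp (-(θ * L)) := by
    rw [← Real.exp_log hT0, ← hLd, ← Real.exp_add]
    congr 1
    rw [hXd]; ring
  have hXerr : H + X * (1 + X) * Real.exp (X / 2) ≤ (κ + 12 / θ ^ 2) * T := by
    rw [hexpX, hHd]
    have h1 : X * (1 + X) ≤ 6 * L ^ 2 := by
      have hX2 : X ≤ 2 * L := by rw [hXd]; nlinarith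
      calc X * (1 + X) ≤ (2 * L) * (1 + 2 * L) := by gcongr
        _ ≤ 6 * L ^ 2 := by nlinarith
    have h2 := exp_sq_aux hθ0 hL0
    have h3 : X * (1 + X) * (T * Real.exp (-(θ * L))) ≤ 12 / θ ^ 2 * T := by
      calc _ ≤ 6 * L ^ 2 * (T * Real.exp (-(θ * L))) := by gcongr
        _ = 6 * T * (L ^ 2 * Real.exp (-(θ * L))) := by ring
        _ ≤ 6 * T * (2 / θ ^ 2) := by gcongr
        _ = _ := by ring
    linarith
  have hI : ∫ x in (-X)..X, |EE H x| * ∏ j, ‖AA mult (G j) (a j * x)‖ ≤ C2 * Q ^ (n + 2) := by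
    refine hi.trans ?_
    calc _ ≤ C1 * (c1 * Q) ^ n * A * (4 * c1 * CL * Q * L) * ((κ + 12 / θ ^ 2) * T) := by
          gcongr
      _ = C1 * c1 ^ n * A * (4 * c1 * CL) * (κ + 12 / θ ^ 2) * (Q ^ n * Q * (T * L)) := by ring
      _ = C2 * Q ^ (n + 2) := by rw [hC2, ← hQ]; ring
  set S := ∑ g ∈ Fintype.piFinset G, (∏ j, (mult (g j) : ℝ)) *
    (mult (∑ j, a j * g j + α) : ℝ) with hSd
  set P := ∏ j, ∑ γ ∈ G j, (mult γ : ℝ) with hPd
  have hP0 : 0 ≤ P := Finset.prod_nonneg fun j _ => hM0 j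
  have hP1 : P ≤ c1 ^ (n + 2) * Q ^ (n + 2) := by
    rw [← mul_pow]
    calc P ≤ ∏ _j : Fin (n + 2), (c1 * Q) := Finset.prod_le_prod (fun j _ => hM0 j) fun j _ => hM j
      _ = _ := by simp
  have hlogH : Real.log H = Real.log κ + L := by
    rw [hHd, Real.log_mul (by linarith) hT0.ne']
  rw [hlogH] at hc
  have h1 : X * Real.exp (-θ) * S ≤ L * P + B * Q ^ (n + 2) := by
    refine hc.trans ?_
    have h2 : (Real.log κ + CA) * P ≤ |Real.log κ + CA| * (c1 ^ (n + 2) * Q ^ (n + 2)) := by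
      calc _ ≤ |Real.log κ + CA| * P := by
            gcongr
            exact le_abs_self _
        _ ≤ _ := by gcongr
    rw [hB]
    nlinarith
  -- multiply by `e^θ`
  have h2 : X * S ≤ Real.exp θ * (L * P + B * Q ^ (n + 2)) := by
    have h3 : Real.exp θ * Real.exp (-θ) = 1 := by rw [← Real.exp_add]; simp
    have h4 := mul_le_mul_of_nonneg_left h1 (Real.exp_pos θ).le
    calc X * S = X * (Real.exp θ * Real.exp (-θ)) * S := by rw [h3, mul_one]
      _ = Real.exp θ * (X * Real.exp (-θ) * S) := by ring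
      _ ≤ _ := h4
  have h3 := theta_aux hθ0 hθ1
  have hY0 : 0 ≤ L * P + B * Q ^ (n + 2) := by positivity
  have h4 : X * S ≤ X * ((1 / 2 + 3 * θ) * (P + B * Q ^ (n + 2) / L)) := by
    calc X * S ≤ Real.exp θ * (L * P + B * Q ^ (n + 2)) := h2
      _ ≤ ((1 / 2 + 3 * θ) * (2 * (1 - θ))) * (L * P + B * Q ^ (n + 2)) := by gcongr
      _ = _ := by rw [hXd]; field_simp
  have h5 := le_of_mul_le_mul_left h4 hX0
  refine h5.trans ?_
  have h6 : B * Q ^ (n + 2) / L ≤ ε / 4 * Q ^ (n + 2) := by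
    rw [div_le_iff₀ hL0]
    have h7 : B ≤ ε / 4 * L := by
      rw [div_le_iff₀ hε] at hL2
      linarith
    have h8 : 0 ≤ Q ^ (n + 2) := by positivity
    nlinarith
  have h7 : 3 * θ * P ≤ ε / 2 * Q ^ (n + 2) := by
    calc 3 * θ * P ≤ 3 * θ * (c1 ^ (n + 2) * Q ^ (n + 2)) := by gcongr
      _ = (3 * θ * c1 ^ (n + 2)) * Q ^ (n + 2) := by ring
      _ ≤ _ := by gcongr
  have h8 : (1 / 2 + 3 * θ) * (B * Q ^ (n + 2) / L) ≤ 5 / 4 * (ε / 4 * Q ^ (n + 2)) := by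
    gcongr
    linarith
  have h9 : 0 ≤ ε * Q ^ (n + 2) := by positivity
  nlinarith

end Pool.Agent.helper30.LR
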