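import Pool.Agent.helper30.LR.Local
import Pool.Agent.helper4.LRL.Square
import Pool.Agent.helper44.LRP.Prime
import Pool.Agent.helper64.LRA.Arch
import Pool.Agent.helper26.LRS.Series

noncomputable section

namespace Pool.Agent.helper30.LR

open Complex MeasureTheory Set Filter Topology ArithmeticFunction
open Pool.Agent.helper4.LRL (AA continuous_AA l2_integrable l2_bound)

/-- the exponential sum over all ordinates -/
def BB (H x : ℝ) : ℝ :=
  ∑' γ : ℝ, (mult γ : ℝ) * (Real.exp (-(γ ^ 2 / H ^ 2)) * Real.cos (x * γ))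

/-- the archimedean part -/
def Ar (H x : ℝ) : ℝ := ∫ t : ℝ, Real.exp (-(t ^ 2 / H ^ 2)) * Real.cos (x * t) * gg t

/-- pole and prime part -/
def EE (H x : ℝ) : ℝ := BB H x - 1 / (2 * Real.pi) * Ar H x

theorem EE_eq (hRH : RiemannHypothesis) {H : ℝ} (hH : 0 < H) (x : ℝ) :
    EE H x = 2 * Real.exp (1 / (4 * H ^ 2)) * Real.cosh (x / 2) -
        ∑' n : ℕ, vonMangoldt n / Real.sqrt n * (2 * kk H x (Real.log n)) := by
  unfold EE BB Ar
  rw [(explicit hRH hH x).tsum_eq]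
  ring

theorem mass_summable (hRH : RiemannHypothesis) {H : ℝ} (hH : 0 < H) :
    Summable fun γ : ℝ => (mult γ : ℝ) * Real.exp (-(γ ^ 2 / H ^ 2)) := by
  have h := (explicit hRH hH 0).summable
  simpa using h

theorem BB_continuous (hRH : RiemannHypothesis) {H : ℝ} (hH : 0 < H) : Continuous (BB H) :=
  Pool.Agent.helper26.LRS.series_continuous mult hH (mass_summable hRH hH)

theorem gg_abs (t : ℝ) : |gg t| ≤ 37 * (1 + t ^ 2) ^ 2 := by
  have h1 := gg_log t
  have h2 : 0 ≤ Real.log (|t| + 1) := Real.log_nonneg (by linarith [abs_nonneg t])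
  have h3 : Real.log (|t| + 1) ≤ |t| := by
    have := Real.log_le_sub_one_of_pos (x := |t| + 1) (by positivity)
    linarith
  have h4 : |t| ≤ 1 + t ^ 2 := by
    rw [← sq_abs t]; nlinarith [sq_nonneg (|t| - 1), abs_nonneg t]
  have h5 : |gg t| ≤ 36 + |t| := by
    rw [abs_le] at h1 ⊢
    constructor <;> linarith [h1.1, h1.2]
  nlinarith [sq_nonneg t, sq_nonneg (t ^ 2)]

theorem Ar_continuous {H : ℝ} (hH : 0 < H) : Continuous (Ar H) := by
  unfold Ar
  have hb : ∀ t : ℝ, Real.exp (-(t ^ 2 / H ^ 2)) * |gg t| ≤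
      37 * (1 + 2 / (1 / (2 * H ^ 2))) ^ 2 * Real.exp (-(1 / (2 * H ^ 2) * t ^ 2)) := by
    intro t
    have h1 := gauss_poly (c := 1 / (2 * H ^ 2)) (by positivity) t
    have h2 := gg_abs t
    have e : Real.exp (-(t ^ 2 / H ^ 2)) = Real.exp (-(1 / (2 * H ^ 2) * t ^ 2)) *
        Real.exp (-(1 / (2 * H ^ 2) * t ^ 2)) := by
      rw [← Real.exp_add]; congr 1; field_simp; ring
    have e2 : Real.exp (1 / (2 * H ^ 2) * t ^ 2) * Real.exp (-(1 / (2 * H ^ 2) * t ^ 2)) = 1 := by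
      rw [← Real.exp_add]; simp
    calc Real.exp (-(t ^ 2 / H ^ 2)) * |gg t| ≤ Real.exp (-(t ^ 2 / H ^ 2)) *
          (37 * ((1 + 2 / (1 / (2 * H ^ 2))) ^ 2 * Real.exp (1 / (2 * H ^ 2) * t ^ 2))) := by
          gcongr
          exact h2.trans (by gcongr)
      _ = 37 * (1 + 2 / (1 / (2 * H ^ 2))) ^ 2 *
          (Real.exp (1 / (2 * H ^ 2) * t ^ 2) * Real.exp (-(1 / (2 * H ^ 2) * t ^ 2))) *
          Real.exp (-(1 / (2 * H ^ 2) * t ^ 2)) := by rw [e]; ring
      _ = _ := by rw [e2, mul_one]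
  refine continuous_of_dominated (bound := fun t => 37 * (1 + 2 / (1 / (2 * H ^ 2))) ^ 2 *
    Real.exp (-(1 / (2 * H ^ 2) * t ^ 2))) (fun x => ?_) (fun x => ?_) ?_ ?_
  · have := gg_continuous
    exact Continuous.aestronglyMeasurable (by fun_prop)
  · refine Eventually.of_forall fun t => ?_
    rw [norm_mul, norm_mul, Real.norm_eq_abs, Real.norm_eq_abs, Real.norm_eq_abs, Real.abs_exp]
    refine le_trans ?_ (hb t)
    have := Real.abs_cos_le_one (x * t)
    have h1 := Real.exp_pos (-(t ^ 2 / H ^ 2))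
    calc _ ≤ Real.exp (-(t ^ 2 / H ^ 2)) * 1 * |gg t| := by gcongr
      _ = _ := by ring
  · exact (gauss_int (by positivity)).const_mul _
  · exact Eventually.of_forall fun t => by fun_prop

theorem EE_continuous (hRH : RiemannHypothesis) {H : ℝ} (hH : 0 < H) : Continuous (EE H) :=
  (BB_continuous hRH hH).sub ((Ar_continuous hH).const_mul _)

theorem EE_bound (hRH : RiemannHypothesis) : ∃ C : ℝ, 0 < C ∧ ∀ H : ℝ, 4 ≤ H → ∀ x : ℝ,
    |EE H x| ≤ C * (H * Real.exp (-(1 / 4 * |x|)) + (1 + |x|) * Real.exp (|x| / 2)) := by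
  obtain ⟨CP, hCP, hP⟩ := Pool.Agent.helper44.LRP.prime_bound
  refine ⟨4 * CP + 6, by positivity, fun H hH x => ?_⟩
  have hH0 : 0 < H := by linarith
  have hx := abs_nonneg x
  rw [EE_eq hRH hH0]
  have h1 : ∑' n : ℕ, vonMangoldt n / Real.sqrt n * (2 * kk H x (Real.log n)) =
      H / (2 * Real.sqrt Real.pi) * ∑' n : ℕ, (vonMangoldt n : ℝ) / Real.sqrt n *
      (Real.exp (-(H ^ 2 * (Real.log n - x) ^ 2 / 4)) +
        Real.exp (-(H ^ 2 * (Real.log n + x) ^ 2 / 4))) := by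
    rw [← tsum_mul_left]
    refine tsum_congr fun n => ?_
    rw [kk]
    have : Real.sqrt Real.pi ≠ 0 := (Real.sqrt_pos.2 Real.pi_pos).ne'
    field_simp
    ring
  have h2 := (hP H hH x).2
  set S0 := ∑' n : ℕ, (vonMangoldt n : ℝ) / Real.sqrt n *
      (Real.exp (-(H ^ 2 * (Real.log n - x) ^ 2 / 4)) +
        Real.exp (-(H ^ 2 * (Real.log n + x) ^ 2 / 4))) with hS0
  have h3 : 0 ≤ S0 := tsum_nonneg fun n => by
    have := vonMangoldt_nonneg (n := n)
    positivity
  have hs : 1 ≤ Real.sqrt Real.pi := by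
    rw [Real.one_le_sqrt]; linarith [Real.pi_gt_three]
  have h4 : H / (2 * Real.sqrt Real.pi) ≤ H := by
    rw [div_le_iff₀ (by positivity)]; nlinarith
  have h5 : 0 ≤ H / (2 * Real.sqrt Real.pi) * S0 := by positivity
  have h6 : H / (2 * Real.sqrt Real.pi) * S0 ≤
      CP * (1 + |x|) * (H * Real.exp (-|x| / 2) + Real.exp (|x| / 2)) := by
    calc _ ≤ H * (CP * (1 + |x|) * (Real.exp (-|x| / 2) + Real.exp (|x| / 2) / H)) := by gcongr
      _ = _ := by field_simp
  have h7 : (1 + |x|) * Real.exp (-|x| / 2) ≤ 4 * Real.exp (-(1 / 4 * |x|)) := by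
    have e : Real.exp (-|x| / 2) = Real.exp (-(1 / 4 * |x|)) * Real.exp (-(1 / 4 * |x|)) := by
      rw [← Real.exp_add]; congr 1; ring
    have h8 := Real.add_one_le_exp (1 / 4 * |x|)
    have h9 : Real.exp (1 / 4 * |x|) * Real.exp (-(1 / 4 * |x|)) = 1 := by
      rw [← Real.exp_add]; simp
    have h10 := Real.exp_pos (-(1 / 4 * |x|))
    calc (1 + |x|) * Real.exp (-|x| / 2) ≤ (4 * Real.exp (1 / 4 * |x|)) *
          (Real.exp (-(1 / 4 * |x|)) * Real.exp (-(1 / 4 * |x|))) := by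
          rw [e]
          gcongr
          linarith
      _ = 4 * (Real.exp (1 / 4 * |x|) * Real.exp (-(1 / 4 * |x|))) * Real.exp (-(1 / 4 * |x|)) := by
          ring
      _ = _ := by rw [h9, mul_one]
  have h8 : 2 * Real.exp (1 / (4 * H ^ 2)) * Real.cosh (x / 2) ≤
      6 * ((1 + |x|) * Real.exp (|x| / 2)) := by
    have a1 : Real.exp (1 / (4 * H ^ 2)) ≤ 3 := by
      have : Real.exp (1 / (4 * H ^ 2)) ≤ Real.exp 1 := by
        refine Real.exp_le_exp.2 ?_
        rw [div_le_one (by positivity)]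
        nlinarith
      linarith [Real.exp_one_lt_d9]
    have a2 : Real.cosh (x / 2) ≤ Real.exp (|x| / 2) := by
      have b1 : |x / 2| = |x| / 2 := by rw [abs_div, abs_two]
      rw [← b1, ← Real.cosh_abs, Real.cosh_eq]
      have b2 : Real.exp (-|x / 2|) ≤ Real.exp |x / 2| :=
        Real.exp_le_exp.2 (by linarith [abs_nonneg (x / 2)])
      linarith
    have a3 := Real.cosh_pos (x / 2)
    calc _ ≤ 2 * 3 * Real.exp (|x| / 2) := by gcongr
      _ ≤ _ := by
        have := Real.exp_pos (|x| / 2)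
        nlinarith
  have h9 : 0 ≤ 2 * Real.exp (1 / (4 * H ^ 2)) * Real.cosh (x / 2) := by
    have := Real.cosh_pos (x / 2)
    positivity
  have h10 : 0 ≤ H * Real.exp (-(1 / 4 * |x|)) := by positivity
  have h11 : 0 ≤ (1 + |x|) * Real.exp (|x| / 2) := by positivity
  have h12 : H / (2 * Real.sqrt Real.pi) * S0 ≤ 4 * CP * (H * Real.exp (-(1 / 4 * |x|))) +
      CP * ((1 + |x|) * Real.exp (|x| / 2)) := by
    refine h6.trans ?_
    calc CP * (1 + |x|) * (H * Real.exp (-|x| / 2) + Real.exp (|x| / 2)) =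
        CP * H * ((1 + |x|) * Real.exp (-|x| / 2)) + CP * ((1 + |x|) * Real.exp (|x| / 2)) := by
          ring
      _ ≤ CP * H * (4 * Real.exp (-(1 / 4 * |x|))) + CP * ((1 + |x|) * Real.exp (|x| / 2)) := by
          gcongr
      _ = _ := by ring
  rw [h1, abs_le]
  constructor <;> nlinarith [mul_nonneg hCP.le h10, mul_nonneg hCP.le h11]

end Pool.Agent.helper30.LR
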