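import Pool.Agent.helper30.LR.Gauss

noncomputable section

namespace Pool.Agent.helper30.LR

open Complex MeasureTheory Set Filter Topology ArithmeticFunction

theorem laplace_cosh {z b : ℂ} (h : |b.re| < z.re) :
    IntegrableOn (fun l : ℝ => cexp (-z * l) * Complex.cosh (b * l)) (Ioi 0) ∧
    ∫ l in Ioi (0 : ℝ), cexp (-z * l) * Complex.cosh (b * l) = z / (z ^ 2 - b ^ 2) := by
  have h1 : (b - z).re < 0 := by
    have := (abs_lt.1 h).2
    simp; linarith
  have h2 : (-b - z).re < 0 := by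
    have := (abs_lt.1 h).1
    simp; linarith
  have h1' : b - z ≠ 0 := fun h => by rw [h] at h1; simp at h1
  have h2' : -b - z ≠ 0 := fun h => by rw [h] at h2; simp at h2
  have e : ∀ l : ℝ, cexp (-z * l) * Complex.cosh (b * l) =
      (1 / 2) * (cexp ((b - z) * l) + cexp ((-b - z) * l)) := by
    intro l
    rw [Complex.cosh, sub_mul, sub_mul, sub_eq_add_neg, sub_eq_add_neg, Complex.exp_add,
      Complex.exp_add, neg_mul, neg_mul]
    ring
  simp_rw [e]
  have i1 := integrableOn_exp_mul_complex_Ioi h1 0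
  have i2 := integrableOn_exp_mul_complex_Ioi h2 0
  refine ⟨(i1.add i2).const_mul _, ?_⟩
  rw [integral_const_mul, integral_add i1 i2, integral_exp_mul_complex_Ioi h1,
    integral_exp_mul_complex_Ioi h2]
  have h3 : z ^ 2 - b ^ 2 ≠ 0 := by
    have : z ^ 2 - b ^ 2 = (b - z) * (-b - z) := by ring
    rw [this]; exact mul_ne_zero h1' h2'
  simp only [ofReal_zero, mul_zero, Complex.exp_zero]
  rw [show z ^ 2 - b ^ 2 = (b - z) * (-b - z) by ring]
  field_simp
  ring

theorem ph_continuous (H x : ℝ) : Continuous (ph H x) := by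
  unfold ph
  fun_prop

theorem norm_cosh_le (z : ℂ) : ‖Complex.cosh z‖ ≤ Real.exp |z.re| := by
  rw [Complex.cosh, norm_div, Complex.norm_ofNat]
  have h1 := norm_add_le (cexp z) (cexp (-z))
  rw [Complex.norm_exp, Complex.norm_exp, neg_re] at h1
  have h2 : Real.exp z.re ≤ Real.exp |z.re| := Real.exp_le_exp.2 (le_abs_self _)
  have h3 : Real.exp (-z.re) ≤ Real.exp |z.re| := Real.exp_le_exp.2 (neg_le_abs _)
  linarith

/-- bound for the test function in the strip `|re z| ≤ 1` -/
theorem norm_ph_le {H : ℝ} (hH : 0 < H) (x : ℝ) {z : ℂ} (hz : |z.re| ≤ 1) :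
    ‖ph H x z‖ ≤ Real.exp (1 / H ^ 2 + |x|) * Real.exp (-(z.im ^ 2 / H ^ 2)) := by
  rw [ph, norm_mul, Complex.norm_exp]
  have h1 : (z ^ 2 / (H : ℂ) ^ 2).re = (z.re ^ 2 - z.im ^ 2) / H ^ 2 := by
    rw [← ofReal_pow, div_ofReal_re, sq, mul_re]
    ring
  have h2 := norm_cosh_le ((x : ℂ) * z)
  rw [re_ofReal_mul, abs_mul] at h2
  have h3 : z.re ^ 2 ≤ 1 := by
    have := sq_abs z.re
    nlinarith [abs_nonneg z.re]
  have h4 : |x| * |z.re| ≤ |x| := by
    have := mul_le_mul_of_nonneg_left hz (abs_nonneg x)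
    linarith
  rw [h1]
  calc Real.exp ((z.re ^ 2 - z.im ^ 2) / H ^ 2) * ‖Complex.cosh (x * z)‖
      ≤ Real.exp (1 / H ^ 2 - z.im ^ 2 / H ^ 2) * Real.exp |x| := by
        refine mul_le_mul ?_ (h2.trans (Real.exp_le_exp.2 h4)) (norm_nonneg _)
          (Real.exp_pos _).le
        refine Real.exp_le_exp.2 ?_
        rw [← sub_div]
        gcongr
    _ = _ := by rw [← Real.exp_add, ← Real.exp_add]; congr 1; ring

theorem ph_line_integrable {H : ℝ} (hH : 0 < H) (x : ℝ) :
    Integrable fun t : ℝ => ph H x (1 + t * I) := by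
  have e : ∀ t : ℝ, ph H x (1 + t * I) = (1 / 2) *
      (cexp ((1 + t * I) ^ 2 / (H : ℂ) ^ 2 + ((x : ℝ) : ℂ) * (1 + t * I)) +
        cexp ((1 + t * I) ^ 2 / (H : ℂ) ^ 2 + ((-x : ℝ) : ℂ) * (1 + t * I))) := by
    intro t
    rw [ph_expand]; ring
  simp_rw [e]
  exact ((integrable_line hH _).add (integrable_line hH _)).const_mul _

theorem integral_even {f : ℝ → ℂ} (hf : Integrable f) (he : ∀ x, f (-x) = f x) :
    ∫ x, f x = 2 * ∫ x in Ioi (0 : ℝ), f x := by
  rw [← intervalIntegral.integral_Iic_add_Ioi (b := 0) hf.integrableOn hf.integrableOn]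
  have h1 := integral_comp_neg_Iic 0 f
  simp only [he, neg_zero] at h1
  rw [h1]; ring

theorem kk_neg (H x l : ℝ) : kk H x (-l) = kk H x l := by
  unfold kk
  have e1 : (-l - x) ^ 2 = (l + x) ^ 2 := by ring
  have e2 : (-l + x) ^ 2 = (l - x) ^ 2 := by ring
  rw [e1, e2]; ring

/-- the partial fraction integral -/
theorem J_pf {H : ℝ} (hH : 0 < H) (x : ℝ) {b : ℂ} (hb : |b.re| < 1) :
    Integrable (fun t : ℝ => ((1 + t * I) / ((1 + t * I) ^ 2 - b ^ 2)) * ph H x (1 + t * I)) ∧
    ∫ t : ℝ, ((1 + t * I) / ((1 + t * I) ^ 2 - b ^ 2)) * ph H x (1 + t * I) =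
      Real.pi * ph H x b := by
  have hre : ∀ t : ℝ, (1 + t * I : ℂ).re = 1 := fun t => by simp
  have him : ∀ t : ℝ, (1 + t * I : ℂ).im = t := fun t => by simp
  set F : ℝ → ℝ → ℂ := fun t l =>
    ph H x (1 + t * I) * (cexp (-(1 + t * I) * l) * Complex.cosh (b * l)) with hF
  have g2 := (laplace_cosh (z := 1) (b := b) (by simpa using hb)).1
  have hint : Integrable (Function.uncurry F)
      ((volume : Measure ℝ).prod (volume.restrict (Ioi (0 : ℝ)))) := by
    have hp := (ph_line_integrable hH x).mul_prod g2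
    refine hp.mono ?_ (Eventually.of_forall ?_)
    · refine Continuous.aestronglyMeasurable ?_
      have := ph_continuous H x
      simp only [hF]
      unfold Function.uncurry
      fun_prop
    · rintro ⟨t, l⟩
      simp only [hF, Function.uncurry_apply_pair]
      rw [norm_mul, norm_mul, norm_mul, norm_mul, Complex.norm_exp, Complex.norm_exp]
      simp
  have hsw := integral_integral_swap hint
  have hL : ∀ t : ℝ, ∫ l in Ioi (0 : ℝ), F t l =
      ((1 + t * I) / ((1 + t * I) ^ 2 - b ^ 2)) * ph H x (1 + t * I) := by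
    intro t
    simp only [hF]
    rw [integral_const_mul, (laplace_cosh (z := 1 + t * I) (b := b) (by rw [hre]; exact hb)).2,
      mul_comm]
  have hR : ∀ l : ℝ, ∫ t : ℝ, F t l = 2 * Real.pi * (Complex.cosh (b * l) * (kk H x l : ℂ)) := by
    intro l
    have e : ∀ t : ℝ, F t l =
        (ph H x (1 + t * I) * cexp (-(l : ℂ) * (1 + t * I))) * Complex.cosh (b * l) := by
      intro t
      simp only [hF]
      rw [show -(1 + t * I) * (l : ℂ) = -(l : ℂ) * (1 + t * I) by ring]
      ring
    simp_rw [e]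
    rw [integral_mul_const, integral_ph_exp hH]
    push_cast; ring
  simp_rw [hL, hR] at hsw
  constructor
  · have := hint.integral_prod_left
    simp only [Function.uncurry_apply_pair] at this
    simp_rw [hL] at this
    exact this
  · rw [hsw, integral_const_mul]
    obtain ⟨hi, hv⟩ := integral_cosh_kk hH x b
    have h2 := integral_even hi (fun l => by
      rw [kk_neg]
      push_cast
      rw [mul_neg, Complex.cosh_neg])
    rw [hv] at h2
    rw [h2]; ring

end Pool.Agent.helper30.LR
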