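import Pool.Agent.helper30.LR.Zeros

noncomputable section

namespace Pool.Agent.helper30.LR

open Complex MeasureTheory Set Filter Topology ArithmeticFunction

theorem term_eq (n : ℕ) (z : ℂ) : LSeries.term (fun n => (vonMangoldt n : ℂ)) (1 / 2 + z) n =
    ((vonMangoldt n / Real.sqrt n : ℝ) : ℂ) * cexp (-(Real.log n : ℂ) * z) := by
  rcases eq_or_ne n 0 with rfl | hn
  · simp
  have hn' : (n : ℂ) ≠ 0 := by exact_mod_cast hn
  have hnr : (0 : ℝ) < n := by exact_mod_cast Nat.pos_of_ne_zero hn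
  rw [LSeries.term_of_ne_zero hn, Complex.cpow_add _ _ hn', Complex.cpow_def_of_ne_zero hn' z,
    ← Complex.natCast_log]
  have h1 : (n : ℂ) ^ (1 / 2 : ℂ) = (Real.sqrt n : ℂ) := by
    rw [Real.sqrt_eq_rpow, Complex.ofReal_cpow hnr.le]
    push_cast; rfl
  rw [h1]
  have h2 : (Real.sqrt n : ℂ) ≠ 0 := by exact_mod_cast (Real.sqrt_pos.2 hnr).ne'
  have h3 : cexp (-(Real.log n : ℂ) * z) = (cexp ((Real.log n : ℂ) * z))⁻¹ := by
    rw [neg_mul, Complex.exp_neg]
  rw [h3]
  have h4 := Complex.exp_ne_zero ((Real.log n : ℂ) * z)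
  push_cast
  field_simp

theorem summable_mangoldt : Summable fun n : ℕ =>
    vonMangoldt n / Real.sqrt n * Real.exp (-Real.log n) := by
  have h : LSeriesSummable (fun n => (vonMangoldt n : ℂ)) (1 / 2 + 1) :=
    LSeriesSummable_vonMangoldt (by norm_num)
  have h1 := h.norm
  refine h1.congr fun n => ?_
  rw [term_eq, norm_mul, Complex.norm_real, Complex.norm_exp]
  have h2 : 0 ≤ vonMangoldt n / Real.sqrt n := by
    have := vonMangoldt_nonneg (n := n)
    positivity
  rw [Real.norm_of_nonneg h2, mul_one, ← ofReal_neg, ofReal_re]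

theorem hasSum_primes {H : ℝ} (hH : 0 < H) (x : ℝ) :
    HasSum (fun n : ℕ => ((vonMangoldt n / Real.sqrt n : ℝ) : ℂ) *
        ((2 * Real.pi * kk H x (Real.log n) : ℝ) : ℂ))
      (∫ t : ℝ, LSeries (fun n => (vonMangoldt n : ℂ)) (1 / 2 + (1 + t * I)) *
        ph H x (1 + t * I)) := by
  set F : ℕ → ℝ → ℂ := fun n t => ((vonMangoldt n / Real.sqrt n : ℝ) : ℂ) *
    (ph H x (1 + t * I) * cexp (-(Real.log n : ℂ) * (1 + t * I))) with hF
  have hnorm : ∀ (n : ℕ) (t : ℝ), ‖ph H x (1 + t * I) * cexp (-(Real.log n : ℂ) * (1 + t * I))‖ =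
      Real.exp (-Real.log n) * ‖ph H x (1 + t * I)‖ := by
    intro n t
    rw [norm_mul, Complex.norm_exp, mul_comm]
    congr 2
    rw [← ofReal_neg, re_ofReal_mul]
    simp
  have hint0 : ∀ n : ℕ, Integrable fun t : ℝ =>
      ph H x (1 + t * I) * cexp (-(Real.log n : ℂ) * (1 + t * I)) := by
    intro n
    refine ((ph_line_integrable hH x).norm.const_mul (Real.exp (-Real.log n))).mono' ?_
      (Eventually.of_forall fun t => (hnorm n t).le)
    refine Continuous.aestronglyMeasurable ?_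
    have := ph_continuous H x
    fun_prop
  have hint : ∀ n : ℕ, Integrable (F n) := fun n => (hint0 n).const_mul _
  have hval : ∀ n : ℕ, ∫ t, F n t = ((vonMangoldt n / Real.sqrt n : ℝ) : ℂ) *
        ((2 * Real.pi * kk H x (Real.log n) : ℝ) : ℂ) := by
    intro n
    simp only [hF]
    rw [integral_const_mul, integral_ph_exp hH]
  have hsum : Summable fun n : ℕ => ∫ t, ‖F n t‖ := by
    refine (summable_mangoldt.mul_right (∫ t : ℝ, ‖ph H x (1 + t * I)‖)).congr fun n => ?_
    have h2 : 0 ≤ vonMangoldt n / Real.sqrt n := by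
      have := vonMangoldt_nonneg (n := n)
      positivity
    have e : ∀ t, ‖F n t‖ = vonMangoldt n / Real.sqrt n * Real.exp (-Real.log n) *
        ‖ph H x (1 + t * I)‖ := by
      intro t
      simp only [hF]
      rw [norm_mul, hnorm, Complex.norm_real, Real.norm_of_nonneg h2]
      ring
    simp_rw [e]
    rw [integral_const_mul]
  have hmain := hasSum_integral_of_summable_integral_norm hint hsum
  simp_rw [hval] at hmain
  have hts : ∀ t : ℝ, ∑' n, F n t = LSeries (fun n => (vonMangoldt n : ℂ)) (1 / 2 + (1 + t * I)) *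
      ph H x (1 + t * I) := by
    intro t
    rw [LSeries, ← tsum_mul_right]
    refine tsum_congr fun n => ?_
    rw [term_eq]
    simp only [hF]
    ring
  simp_rw [hts] at hmain
  exact hmain

/-- shift of the line of integration -/
theorem shift {F : ℂ → ℂ} (hF : ∀ z : ℂ, 0 ≤ z.re → z.re ≤ 1 → DifferentiableAt ℂ F z)
    {C c : ℝ} (hc : 0 < c)
    (hb : ∀ z : ℂ, 0 ≤ z.re → z.re ≤ 1 → ‖F z‖ ≤ C * Real.exp (-(c * z.im ^ 2))) :
    Integrable (fun t : ℝ => F (1 + t * I)) ∧ Integrable (fun t : ℝ => F (t * I)) ∧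
      ∫ t : ℝ, F (1 + t * I) = ∫ t : ℝ, F (t * I) := by
  have hcont : ∀ σ : ℝ, 0 ≤ σ → σ ≤ 1 → Continuous fun t : ℝ => F (σ + t * I) := by
    intro σ h0 h1
    rw [continuous_iff_continuousAt]
    intro t
    have : ContinuousAt F (σ + t * I) := (hF _ (by simp [h0]) (by simp [h1])).continuousAt
    exact ContinuousAt.comp (f := fun t : ℝ => (σ + t * I : ℂ)) this (by fun_prop)
  have hint : ∀ σ : ℝ, 0 ≤ σ → σ ≤ 1 → Integrable fun t : ℝ => F (σ + t * I) := by
    intro σ h0 h1
    refine ((gauss_int hc).const_mul C).mono' (hcont σ h0 h1).aestronglyMeasurable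
      (Eventually.of_forall fun t => ?_)
    have := hb (σ + t * I) (by simp [h0]) (by simp [h1])
    simpa using this
  have i1 := hint 1 zero_le_one le_rfl
  have i0 := hint 0 le_rfl zero_le_one
  simp only [ofReal_one, ofReal_zero, zero_add] at i1 i0
  refine ⟨i1, i0, ?_⟩
  -- limits
  have l1 := intervalIntegral_tendsto_integral i1 tendsto_neg_atTop_atBot tendsto_id
  have l0 := intervalIntegral_tendsto_integral i0 tendsto_neg_atTop_atBot tendsto_id
  simp only [id] at l1 l0
  have hhor : ∀ s : ℝ → ℝ, (∀ R, |s R| = |R|) →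
      Tendsto (fun R : ℝ => ∫ y : ℝ in (0 : ℝ)..1, F (y + (s R) * I)) atTop (𝓝 0) := by
    intro s hs
    have h1 : Tendsto (fun R : ℝ => C * Real.exp (-(c * R ^ 2))) atTop (𝓝 0) := by
      rw [← mul_zero C]
      refine Tendsto.const_mul _ ?_
      refine Real.tendsto_exp_neg_atTop_nhds_zero.comp ?_
      exact Tendsto.const_mul_atTop hc (tendsto_pow_atTop two_ne_zero)
    refine squeeze_zero_norm (fun R => ?_) h1
    have h2 := intervalIntegral.norm_integral_le_of_norm_le_const (a := 0) (b := 1)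
      (f := fun y : ℝ => F (y + (s R) * I)) (C := C * Real.exp (-(c * R ^ 2))) (by
        intro y hy
        rw [uIoc_of_le zero_le_one] at hy
        have := hb (y + (s R) * I) (by simp [hy.1.le]) (by simp [hy.2])
        have h3 : (y + (s R) * I : ℂ).im = s R := by simp
        rw [h3, ← sq_abs, hs, sq_abs] at this
        exact this)
    simpa using h2
  have ht := hhor id (fun _ => rfl)
  have hbm := hhor (fun R => -R) (fun R => abs_neg R)
  have hrect : ∀ R : ℝ, (∫ y : ℝ in (-R)..R, F (1 + y * I)) - (∫ y : ℝ in (-R)..R, F (y * I)) =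
      I * ((∫ y : ℝ in (0 : ℝ)..1, F (y + ((-R : ℝ) : ℂ) * I)) -
        ∫ y : ℝ in (0 : ℝ)..1, F (y + (R : ℂ) * I)) := by
    intro R
    have h := integral_boundary_rect_eq_zero_of_differentiableOn F
      (⟨0, -R⟩ : ℂ) (⟨1, R⟩ : ℂ) (by
        intro z hz
        rw [mem_reProdIm] at hz
        have h1 := hz.1
        simp only [uIcc_of_le (zero_le_one (α := ℝ))] at h1
        exact (hF z h1.1 h1.2).differentiableWithinAt)
    simp only [ofReal_one, ofReal_zero, zero_add, smul_eq_mul] at h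
    linear_combination (-I) * h + ((∫ y : ℝ in (-R)..R, F (1 + y * I)) -
      (∫ y : ℝ in (-R)..R, F (y * I))) * I_sq
  have h3 : Tendsto (fun R : ℝ => (∫ y : ℝ in (-R)..R, F (1 + y * I)) -
      (∫ y : ℝ in (-R)..R, F (y * I))) atTop (𝓝 (I * (0 - 0))) := by
    simp_rw [hrect]
    exact (hbm.sub ht).const_mul I
  have h4 := tendsto_nhds_unique (l1.sub l0) h3
  rw [sub_zero, mul_zero] at h4
  exact sub_eq_zero.1 h4

end Pool.Agent.helper30.LR
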