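import Pool.Agent.helper30.LR.Window

noncomputable section

namespace Pool.Agent.helper30.LR

open Complex MeasureTheory Set Filter Topology ArithmeticFunction

theorem mass'_split (A : Finset ℝ) (p : ℝ → Prop) [DecidablePred p] :
    mass' (A.filter p) + mass' (A.filter fun x => ¬ p x) = mass' A :=
  Finset.sum_filter_add_sum_filter_not A p _

/-- low quantile -/
theorem quantile_low (A : Finset ℝ) (f : ℝ → ℝ) {δ μ : ℝ} (hδ : 0 < δ) (hA : δ ≤ mass' A)
    (hf : Function.Injective f) (hμ : ∀ γ ∈ A, (mult γ : ℝ) ≤ μ) :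
    ∃ t : ℝ, δ ≤ mass' (A.filter fun x => f x ≤ t) ∧
      mass' A - δ - μ ≤ mass' (A.filter fun x => t < f x) := by
  set S := (A.image f).filter (fun t => δ ≤ mass' (A.filter fun x => f x ≤ t)) with hS
  have hAne : A.Nonempty := by
    rw [Finset.nonempty_iff_ne_empty]
    rintro rfl
    simp [mass'] at hA
    linarith
  have hSne : S.Nonempty := by
    refine ⟨(A.image f).max' (hAne.image f), ?_⟩
    rw [hS, Finset.mem_filter]
    refine ⟨Finset.max'_mem _ _, ?_⟩
    have : A.filter (fun x => f x ≤ (A.image f).max' (hAne.image f)) = A := by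
      rw [Finset.filter_eq_self]
      intro x hx
      exact Finset.le_max' _ _ (Finset.mem_image_of_mem f hx)
    rwa [this]
  set t := S.min' hSne with ht
  have htS : t ∈ S := Finset.min'_mem _ _
  have htS' := (Finset.mem_filter.1 htS)
  refine ⟨t, htS'.2, ?_⟩
  obtain ⟨g, hg, hgt⟩ := Finset.mem_image.1 htS'.1
  -- mass strictly below `t`
  have h1 : mass' (A.filter fun x => f x < t) ≤ δ := by
    by_contra hcon
    rw [not_le] at hcon
    have hne : (A.filter fun x => f x < t).Nonempty := by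
      rw [Finset.nonempty_iff_ne_empty]
      intro h0
      rw [h0] at hcon
      simp [mass'] at hcon
      linarith
    set s := ((A.filter fun x => f x < t).image f).max' (hne.image f) with hs
    have hsm : s ∈ (A.filter fun x => f x < t).image f := Finset.max'_mem _ _
    obtain ⟨y, hy, hys⟩ := Finset.mem_image.1 hsm
    rw [Finset.mem_filter] at hy
    have hst : s < t := by rw [← hys]; exact hy.2
    have hsS : s ∈ S := by
      rw [hS, Finset.mem_filter]
      refine ⟨by rw [← hys]; exact Finset.mem_image_of_mem f hy.1, ?_⟩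
      refine hcon.le.trans (le_of_eq ?_)
      congr 1
      refine Finset.filter_congr fun x hx => ?_
      constructor
      · intro h
        exact Finset.le_max' _ _ (Finset.mem_image_of_mem f (Finset.mem_filter.2 ⟨hx, h⟩))
      · intro h; exact h.trans_lt hst
    exact absurd (Finset.min'_le S s hsS) (not_le.2 hst)
  have h2 := mass'_split A (fun x => f x < t)
  have h3 := mass'_split (A.filter fun x => ¬ f x < t) (fun x => f x = t)
  have h4 : mass' ((A.filter fun x => ¬ f x < t).filter fun x => f x = t) ≤ μ := by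
    have h5 : (A.filter fun x => ¬ f x < t).filter (fun x => f x = t) ⊆ {g} := by
      intro x hx
      rw [Finset.mem_filter] at hx
      rw [Finset.mem_singleton]
      exact hf (hx.2.trans hgt.symm)
    refine (Finset.sum_le_sum_of_subset_of_nonneg h5 fun _ _ _ => Nat.cast_nonneg _).trans ?_
    rw [Finset.sum_singleton]
    exact hμ g hg
  have h6 : (A.filter fun x => ¬ f x < t).filter (fun x => ¬ f x = t) =
      A.filter fun x => t < f x := by
    ext x
    simp only [Finset.mem_filter, not_lt]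
    constructor
    · rintro ⟨⟨h1, h2⟩, h3⟩; exact ⟨h1, lt_of_le_of_ne h2 (Ne.symm h3)⟩
    · rintro ⟨h1, h2⟩; exact ⟨⟨h1, h2.le⟩, h2.ne'⟩
  rw [h6] at h3
  linarith

/-- high quantile -/
theorem quantile_high (A : Finset ℝ) (f : ℝ → ℝ) {δ μ : ℝ} (hδ : 0 < δ) (hA : δ ≤ mass' A)
    (hf : Function.Injective f) (hμ : ∀ γ ∈ A, (mult γ : ℝ) ≤ μ) :
    ∃ t : ℝ, δ ≤ mass' (A.filter fun x => t ≤ f x) ∧
      mass' A - δ - μ ≤ mass' (A.filter fun x => f x < t) := by
  obtain ⟨t, h1, h2⟩ := quantile_low A (fun x => -f x) hδ hA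
    (fun x y h => hf (neg_injective h)) hμ
  refine ⟨-t, ?_, ?_⟩
  · refine h1.trans (le_of_eq ?_)
    congr 1
    refine Finset.filter_congr fun x _ => ?_
    constructor <;> intro h <;> linarith
  · refine h2.trans (le_of_eq ?_)
    congr 1
    refine Finset.filter_congr fun x _ => ?_
    constructor <;> intro h <;> linarith

theorem vals_swap (a b : ℝ) (A B : Finset ℝ) : vals a b A B = vals b a B A := by
  unfold vals
  ext x
  simp only [Finset.mem_image, Finset.mem_product, Prod.exists]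
  constructor
  · rintro ⟨p, q, ⟨h1, h2⟩, h3⟩; exact ⟨q, p, ⟨h2, h1⟩, by rw [← h3]; ring⟩
  · rintro ⟨p, q, ⟨h1, h2⟩, h3⟩; exact ⟨q, p, ⟨h2, h1⟩, by rw [← h3]; ring⟩

/-- sets of ordinates have large sumsets -/
theorem sumset1 (hRH : RiemannHypothesis) {a b K η ε : ℝ} (ha : a ≠ 0) (hb : b ≠ 0) (hK : 1 ≤ K)
    (hη : 0 < η) (hε : 0 < ε) : ∃ T0 : ℝ, 4 ≤ T0 ∧ ∀ T : ℝ, T0 ≤ T → ∀ A B : Finset ℝ,
      (∀ γ ∈ A, |γ| ≤ K * T) → (∀ γ ∈ B, |γ| ≤ K * T) → η * (T * Real.log T) ≤ mass' A →
      η * (T * Real.log T) ≤ mass' B →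
      2 * mass' A + 2 * mass' B - ε * (T * Real.log T) ≤ ((vals a b A B).card : ℝ) := by
  set δ : ℝ := min η (ε / 16) with hδd
  have hδ0 : 0 < δ := lt_min hη (by positivity)
  have hδ1 : δ ≤ η := min_le_left _ _
  have hδ2 : δ ≤ ε / 16 := min_le_right _ _
  obtain ⟨T1, hT1, h1⟩ := window hRH ha hb hK hδ0 (by positivity : 0 < ε / 4)
  obtain ⟨T2, hT2, h2⟩ := window hRH hb ha hK hδ0 (by positivity : 0 < ε / 4)
  obtain ⟨CL, hCL, hl⟩ := local_count hRH
  refine ⟨max (max T1 T2) (max (K + 2) (3 * CL / δ)), ?_, fun T hT A B hA hB hAm hBm => ?_⟩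
  · exact hT1.trans ((le_max_left _ _).trans (le_max_left _ _))
  have hTT1 : T1 ≤ T := ((le_max_left _ _).trans (le_max_left _ _)).trans hT
  have hTT2 : T2 ≤ T := ((le_max_right _ _).trans (le_max_left _ _)).trans hT
  have hTK : K + 2 ≤ T := ((le_max_left _ _).trans (le_max_right _ _)).trans hT
  have hTC : 3 * CL / δ ≤ T := ((le_max_right _ _).trans (le_max_right _ _)).trans hT
  have hT4 : 4 ≤ T := hT1.trans hTT1
  have hL : 0 < Real.log T := Real.log_pos (by linarith)
  set Q := T * Real.log T with hQ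
  have hQ0 : 0 < Q := by positivity
  -- single multiplicities
  have hmu : ∀ γ : ℝ, |γ| ≤ K * T → (mult γ : ℝ) ≤ δ * Q := by
    intro γ hγ
    have h3 := (hl γ).1.sum_le_tsum {γ} (fun γ' _ => by positivity)
    rw [Finset.sum_singleton, sub_self] at h3
    have h4 : (mult γ : ℝ) ≤ CL * Real.log (|γ| + 2) := by
      have h5 := h3.trans (hl γ).2
      norm_num at h5
      exact h5
    have h5 : Real.log (|γ| + 2) ≤ 3 * Real.log T := by
      have h6 : |γ| + 2 ≤ T ^ 3 := by
        have : K * T + 2 ≤ T ^ 3 := by nlinarith [sq_nonneg T]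
        linarith
      have h7 := Real.log_le_log (by positivity) h6
      rw [Real.log_pow] at h7
      push_cast at h7
      exact h7
    rw [div_le_iff₀ hδ0] at hTC
    calc (mult γ : ℝ) ≤ CL * Real.log (|γ| + 2) := h4
      _ ≤ CL * (3 * Real.log T) := by gcongr
      _ = 3 * CL * Real.log T := by ring
      _ ≤ (T * δ) * Real.log T := by gcongr
      _ = δ * Q := by rw [hQ]; ring
  have hδA : δ * Q ≤ mass' A := le_trans (by gcongr) hAm
  have hδB : δ * Q ≤ mass' B := le_trans (by gcongr) hBm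
  obtain ⟨u, hu1, hu2⟩ := quantile_high A (fun x => a * x) (δ := δ * Q) (μ := δ * Q)
    (by positivity) hδA (mul_right_injective₀ ha) (fun γ hγ => hmu γ (hA γ hγ))
  obtain ⟨v, hv1, hv2⟩ := quantile_low B (fun x => b * x) (δ := δ * Q) (μ := δ * Q)
    (by positivity) hδB (mul_right_injective₀ hb) (fun γ hγ => hmu γ (hB γ hγ))
  -- the two windows
  have w1 := h1 T hTT1 (A.filter fun x => a * x < u) (B.filter fun x => b * x ≤ v)
    (fun γ hγ => hA γ (Finset.mem_filter.1 hγ).1) (fun γ hγ => hB γ (Finset.mem_filter.1 hγ).1) hv1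
  have w2 := h2 T hTT2 (B.filter fun x => v < b * x) (A.filter fun x => u ≤ a * x)
    (fun γ hγ => hB γ (Finset.mem_filter.1 hγ).1) (fun γ hγ => hA γ (Finset.mem_filter.1 hγ).1) hu1
  rw [vals_swap] at w2
  set W1 := vals a b (A.filter fun x => a * x < u) (B.filter fun x => b * x ≤ v) with hW1
  set W2 := vals a b (A.filter fun x => u ≤ a * x) (B.filter fun x => v < b * x) with hW2
  have hdisj : Disjoint W1 W2 := by
    rw [Finset.disjoint_left]
    intro x hx1 hx2
    simp only [hW1, hW2, vals, Finset.mem_image, Finset.mem_product, Finset.mem_filter,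
      Prod.exists] at hx1 hx2
    obtain ⟨p, q, ⟨⟨-, h3⟩, -, h4⟩, h5⟩ := hx1
    obtain ⟨p', q', ⟨⟨-, h6⟩, -, h7⟩, h8⟩ := hx2
    linarith
  have hsub : W1 ∪ W2 ⊆ vals a b A B := by
    intro x hx
    rw [Finset.mem_union] at hx
    simp only [hW1, hW2, vals, Finset.mem_image, Finset.mem_product, Finset.mem_filter,
      Prod.exists] at hx ⊢
    rcases hx with ⟨p, q, ⟨⟨h3, -⟩, h4, -⟩, h5⟩ | ⟨p, q, ⟨⟨h3, -⟩, h4, -⟩, h5⟩
    · exact ⟨p, q, ⟨h3, h4⟩, h5⟩
    · exact ⟨p, q, ⟨h3, h4⟩, h5⟩
  have hcard : (W1.card : ℝ) + W2.card ≤ (vals a b A B).card := by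
    have := Finset.card_le_card hsub
    rw [Finset.card_union_of_disjoint hdisj] at this
    exact_mod_cast this
  have h5 : δ * Q ≤ ε / 16 * Q := by gcongr
  linarith

end Pool.Agent.helper30.LR
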