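import Pool.Agent.helper30.LR.Main

noncomputable section

namespace Pool.Agent.helper30.LR

open Complex MeasureTheory Set Filter Topology ArithmeticFunction

/-- total multiplicity of a finite set -/
def mass' (A : Finset ℝ) : ℝ := ∑ γ ∈ A, (mult γ : ℝ)

theorem mass'_nonneg (A : Finset ℝ) : 0 ≤ mass' A := Finset.sum_nonneg fun _ _ => Nat.cast_nonneg _

/-- the set of values `aγ + bγ'` -/
def vals (a b : ℝ) (A B : Finset ℝ) : Finset ℝ := (A ×ˢ B).image fun p => a * p.1 + b * p.2

theorem sum_three (A B : Finset ℝ) (F : ℝ → ℝ → ℝ → ℝ) :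
    ∑ g ∈ Fintype.piFinset ![A, B, B], F (g 0) (g 1) (g 2) =
      ∑ p ∈ A ×ˢ B, ∑ y' ∈ B, F p.1 p.2 y' := by
  rw [← Finset.sum_product']
  refine Finset.sum_nbij' (fun g => ((g 0, g 1), g 2)) (fun p => ![p.1.1, p.1.2, p.2])
    ?_ ?_ ?_ ?_ ?_
  · intro g hg
    rw [Fintype.mem_piFinset] at hg
    have h0 := hg 0
    have h1 := hg 1
    have h2 := hg 2
    simp at h0 h1 h2
    simp [h0, h1, h2]
  · intro p hp
    simp only [Finset.mem_product] at hp
    rw [Fintype.mem_piFinset]
    intro i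
    fin_cases i
    · simpa using hp.1.1
    · simpa using hp.1.2
    · simpa using hp.2
  · intro g _
    funext i
    fin_cases i <;> simp
  · intro p _
    simp
  · intro g _
    rfl

theorem energy_le {a b : ℝ} (ha : a ≠ 0) (A B : Finset ℝ) :
    (mass' A * mass' B) ^ 2 ≤ ((vals a b A B).card : ℝ) *
      ∑ p ∈ A ×ˢ B, ∑ y' ∈ B, (mult p.1 : ℝ) * mult p.2 * mult y' *
        mult (p.1 + b / a * p.2 + -(b / a) * y') := by
  set f : ℝ × ℝ → ℝ := fun p => a * p.1 + b * p.2 with hf
  set w : ℝ × ℝ → ℝ := fun p => (mult p.1 : ℝ) * mult p.2 with hw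
  set r : ℝ → ℝ := fun u => ∑ p ∈ (A ×ˢ B).filter (fun p => f p = u), w p with hr
  have hmaps : ∀ p ∈ A ×ˢ B, f p ∈ vals a b A B := fun p hp => Finset.mem_image_of_mem _ hp
  have h1 : ∑ u ∈ vals a b A B, r u = mass' A * mass' B := by
    simp only [hr]
    rw [Finset.sum_fiberwise_of_maps_to hmaps, Finset.sum_product, mass', mass',
      Finset.sum_mul_sum]
  have h2 : ∑ u ∈ vals a b A B, r u ^ 2 = ∑ p ∈ A ×ˢ B, w p * r (f p) := by
    rw [← Finset.sum_fiberwise_of_maps_to hmaps]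
    refine Finset.sum_congr rfl fun u _ => ?_
    rw [sq, hr]
    simp only
    rw [Finset.sum_mul]
    refine Finset.sum_congr rfl fun p hp => ?_
    rw [(Finset.mem_filter.1 hp).2]
  have h3 : ∀ p ∈ A ×ˢ B, w p * r (f p) ≤ ∑ y' ∈ B, (mult p.1 : ℝ) * mult p.2 * mult y' *
        mult (p.1 + b / a * p.2 + -(b / a) * y') := by
    intro p _
    have h4 : r (f p) ≤ ∑ y' ∈ B, (mult y' : ℝ) * mult (p.1 + b / a * p.2 + -(b / a) * y') := by
      simp only [hr]
      rw [Finset.sum_filter, Finset.sum_product_right]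
      refine Finset.sum_le_sum fun y' _ => ?_
      have h5 : ∀ x' ∈ A, (if f (x', y') = f p then w (x', y') else 0) =
          (if x' = p.1 + b / a * p.2 + -(b / a) * y' then (mult y' : ℝ) * mult x' else 0) := by
        intro x' _
        have h6 : f (x', y') = f p ↔ x' = p.1 + b / a * p.2 + -(b / a) * y' := by
          simp only [hf]
          constructor
          · intro h
            have h7 : a * x' = a * (p.1 + b / a * p.2 + -(b / a) * y') := by
              have : a * (p.1 + b / a * p.2 + -(b / a) * y') = a * p.1 + b * p.2 - b * y' := by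
                field_simp
                ring
              rw [this]; linarith
            exact mul_left_cancel₀ ha h7
          · intro h
            rw [h]; field_simp; ring
        by_cases hc : x' = p.1 + b / a * p.2 + -(b / a) * y'
        · rw [if_pos (h6.2 hc), if_pos hc]
          simp only [hw]; ring
        · rw [if_neg (fun h => hc (h6.1 h)), if_neg hc]
      rw [Finset.sum_congr rfl h5, Finset.sum_ite_eq']
      split_ifs
      · exact le_rfl
      · positivity
    have h5 : 0 ≤ w p := by simp only [hw]; positivity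
    refine (mul_le_mul_of_nonneg_left h4 h5).trans (le_of_eq ?_)
    rw [Finset.mul_sum]
    refine Finset.sum_congr rfl fun y' _ => ?_
    simp only [hw]; ring
  have h4 := sq_sum_le_card_mul_sum_sq (s := vals a b A B) (f := r)
  rw [h1, h2] at h4
  refine h4.trans (mul_le_mul_of_nonneg_left ?_ (Nat.cast_nonneg _))
  exact Finset.sum_le_sum h3

/-- window lemma -/
theorem window (hRH : RiemannHypothesis) {a b K η ε : ℝ} (ha : a ≠ 0) (hb : b ≠ 0) (hK : 1 ≤ K)
    (hη : 0 < η) (hε : 0 < ε) : ∃ T0 : ℝ, 4 ≤ T0 ∧ ∀ T : ℝ, T0 ≤ T → ∀ A B : Finset ℝ,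
      (∀ γ ∈ A, |γ| ≤ K * T) → (∀ γ ∈ B, |γ| ≤ K * T) → η * (T * Real.log T) ≤ mass' B →
      2 * mass' A - ε * (T * Real.log T) ≤ ((vals a b A B).card : ℝ) := by
  have hba : b / a ≠ 0 := div_ne_zero hb ha
  obtain ⟨T0, hT0, h⟩ := main1 hRH (n := 1) ![1, b / a, -(b / a)] (by
    intro j; fin_cases j
    · simp
    · simpa using hba
    · simpa using hba) hK (ε := ε * η ^ 2 / 4) (by positivity)
  refine ⟨T0, hT0, fun T hT A B hA hB hBm => ?_⟩
  have hT4 : 4 ≤ T := hT0.trans hT
  have hL : 0 < Real.log T := Real.log_pos (by linarith)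
  set Q := T * Real.log T with hQ
  have hQ0 : 0 < Q := by positivity
  have h1 := h T hT 0 (by simp; positivity) ![A, B, B] (by
    intro j; fin_cases j
    · simpa using hA
    · simpa using hB
    · simpa using hB)
  have h2 : ∑ g ∈ Fintype.piFinset ![A, B, B], (∏ j, (mult (g j) : ℝ)) *
      (mult (∑ j, ![1, b / a, -(b / a)] j * g j + 0) : ℝ) =
      ∑ p ∈ A ×ˢ B, ∑ y' ∈ B, (mult p.1 : ℝ) * mult p.2 * mult y' *
        mult (p.1 + b / a * p.2 + -(b / a) * y') := by
    rw [← sum_three A B (fun x y z => (mult x : ℝ) * mult y * mult z *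
        mult (x + b / a * y + -(b / a) * z))]
    refine Finset.sum_congr rfl fun g _ => ?_
    rw [Fin.prod_univ_three, Fin.sum_univ_three]
    simp
  have h3 : ∏ j, ∑ γ ∈ ![A, B, B] j, (mult γ : ℝ) = mass' A * mass' B * mass' B := by
    rw [Fin.prod_univ_three]
    simp [mass']
  rw [h2, h3] at h1
  have h4 := (energy_le (b := b) ha A B).trans
    (mul_le_mul_of_nonneg_left h1 (Nat.cast_nonneg _))
  set U : ℝ := ((vals a b A B).card : ℝ) with hU
  set α := mass' A with hα
  set β := mass' B with hβ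
  have hα0 : 0 ≤ α := mass'_nonneg A
  have hβ0 : 0 < β := lt_of_lt_of_le (by positivity) hBm
  have hU0 : 0 ≤ U := Nat.cast_nonneg _
  -- `U (α/2 + σ Q) ≥ α²`
  have h5 : α ^ 2 ≤ U * (α / 2 + ε / 4 * Q) := by
    have h6 : (η * Q) ^ 2 ≤ β ^ 2 := by gcongr
    have h7 : ε * η ^ 2 / 4 * Q ^ (1 + 2) ≤ ε / 4 * Q * β ^ 2 := by
      calc _ = ε / 4 * Q * (η * Q) ^ 2 := by ring
        _ ≤ _ := by gcongr
    have h8 : α ^ 2 * β ^ 2 ≤ U * (α / 2 + ε / 4 * Q) * β ^ 2 := by
      calc α ^ 2 * β ^ 2 = (α * β) ^ 2 := by ring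
        _ ≤ U * (1 / 2 * (α * β * β) + ε * η ^ 2 / 4 * Q ^ (1 + 2)) := h4
        _ ≤ U * (1 / 2 * (α * β * β) + ε / 4 * Q * β ^ 2) := by gcongr
        _ = _ := by ring
    exact le_of_mul_le_mul_right h8 (by positivity)
  by_contra hcon
  rw [not_le] at hcon
  have h6 : 0 < α / 2 + ε / 4 * Q := by positivity
  have h7 : U * (α / 2 + ε / 4 * Q) < (2 * α - ε * Q) * (α / 2 + ε / 4 * Q) :=
    mul_lt_mul_of_pos_right hcon h6
  have h8 : 0 < ε ^ 2 * Q ^ 2 := by positivity
  nlinarith

end Pool.Agent.helper30.LR
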