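import Pool.Agent.helper30.LR.Had
import Pool.Agent.helper30.LR.Dig
import Pool.Agent.helper70.ZetaLines

/-!
# The entire function `ξ(1/2+z)` and its logarithmic derivative
-/

noncomputable section

namespace Pool.Agent.helper30.LR

open Complex Metric Filter Topology Set ArithmeticFunction
open Pool.Agent.helper70 (completedZeta0_bounded norm_Gamma_le_re ZZ norm_zeta_le ZZ_pos)

/-- `s(1-s)Λ(s)` at `s = 1/2 + z` -/
def xi (z : ℂ) : ℂ := (1 / 4 - z ^ 2) * completedRiemannZeta₀ (1 / 2 + z) - 1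

theorem xi_diff : Differentiable ℂ xi := by
  unfold xi
  have : Differentiable ℂ fun z : ℂ => completedRiemannZeta₀ (1 / 2 + z) :=
    differentiable_completedZeta₀.comp (by fun_prop)
  exact (((differentiable_const _).sub (differentiable_pow 2)).mul this).sub_const _

theorem xi_even (z : ℂ) : xi (-z) = xi z := by
  unfold xi
  have h := completedRiemannZeta₀_one_sub (1 / 2 + z)
  rw [show (1 : ℂ) - (1 / 2 + z) = 1 / 2 + -z by ring] at h
  rw [h]; ring

theorem xi_eq {z : ℂ} (h0 : 1 / 2 + z ≠ 0) (h1 : 1 / 2 + z ≠ 1) :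
    xi z = (1 / 2 + z) * (1 - (1 / 2 + z)) * completedRiemannZeta (1 / 2 + z) := by
  rw [completedRiemannZeta_eq]
  unfold xi
  have h2 : (1 : ℂ) - (1 / 2 + z) ≠ 0 := sub_ne_zero.2 (Ne.symm h1)
  set s := 1 / 2 + z with hs
  have h3 : (1 / 4 : ℂ) - z ^ 2 = s * (1 - s) := by rw [hs]; ring
  rw [h3]
  field_simp
  ring

theorem xi_eq_zeta {z : ℂ} (h0 : 0 < (1 / 2 + z).re) (h1 : 1 / 2 + z ≠ 1) :
    xi z = (1 / 2 + z) * (1 - (1 / 2 + z)) * Gammaℝ (1 / 2 + z) * riemannZeta (1 / 2 + z) := by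
  have h2 : 1 / 2 + z ≠ 0 := fun h => by rw [h] at h0; simp at h0
  rw [xi_eq h2 h1, riemannZeta_def_of_ne_zero h2]
  have h3 := Gammaℝ_ne_zero_of_re_pos h0
  rw [mul_assoc ((1 / 2 + z) * (1 - (1 / 2 + z))), mul_div_cancel₀ _ h3]

theorem xi_ne_zero_of_re {z : ℂ} (hz : 1 / 2 < z.re) : xi z ≠ 0 := by
  have h0 : 0 < (1 / 2 + z).re := by simp; linarith
  by_cases h1 : 1 / 2 + z = 1
  · have h2 : z = 1 / 2 := by linear_combination h1
    rw [h2] at hz; norm_num at hz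
  · rw [xi_eq_zeta h0 h1]
    have h2 : 1 / 2 + z ≠ 0 := fun h => by rw [h] at h0; simp at h0
    have h3 : (1 : ℂ) - (1 / 2 + z) ≠ 0 := sub_ne_zero.2 (Ne.symm h1)
    have h4 : riemannZeta (1 / 2 + z) ≠ 0 :=
      riemannZeta_ne_zero_of_one_le_re (by simp; linarith)
    exact mul_ne_zero (mul_ne_zero (mul_ne_zero h2 h3) (Gammaℝ_ne_zero_of_re_pos h0)) h4

theorem xi_im (hRH : RiemannHypothesis) (a : ℂ) (ha : xi a = 0) : a.re = 0 := by
  -- `|re a| ≤ 1/2`
  have hle : a.re ≤ 1 / 2 := by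
    by_contra h
    exact xi_ne_zero_of_re (not_le.1 h) ha
  have hge : -(1 / 2) ≤ a.re := by
    by_contra h
    have h1 : 1 / 2 < (-a).re := by simp; linarith
    exact xi_ne_zero_of_re h1 (by rw [xi_even]; exact ha)
  have h0 : 1 / 2 + a ≠ 0 := by
    intro h
    have : xi a = -1 := by
      unfold xi
      have h2 : a = -(1 / 2) := by linear_combination h
      rw [h2]; ring
    rw [ha] at this
    norm_num at this
  have h1 : 1 / 2 + a ≠ 1 := by
    intro h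
    have : xi a = -1 := by
      unfold xi
      have h2 : a = 1 / 2 := by linear_combination h
      rw [h2]; ring
    rw [ha] at this
    norm_num at this
  rw [xi_eq h0 h1] at ha
  have h2 : (1 : ℂ) - (1 / 2 + a) ≠ 0 := sub_ne_zero.2 (Ne.symm h1)
  have h3 : completedRiemannZeta (1 / 2 + a) = 0 := by
    rcases mul_eq_zero.1 ha with h | h
    · exact absurd h (mul_ne_zero h0 h2)
    · exact h
  have h4 : riemannZeta (1 / 2 + a) = 0 := by
    rw [riemannZeta_def_of_ne_zero h0, h3, zero_div]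
  have h5 := hRH (1 / 2 + a) h4 ?_ h1
  · simp at h5; linarith
  · rintro ⟨n, hn⟩
    have h6 := congrArg Complex.re hn
    simp at h6
    have : (0 : ℝ) ≤ n := Nat.cast_nonneg n
    linarith

/-- multiplicity of `1/2 + iγ` as a zero of `ζ` -/
def mult (γ : ℝ) : ℕ := analyticOrderNatAt riemannZeta (1 / 2 + γ * I)

theorem om_xi (γ : ℝ) : om xi γ = mult γ := by
  have hre : 0 < (1 / 2 + (γ * I : ℂ)).re := by simp
  have h1 : 1 / 2 + (γ * I : ℂ) ≠ 1 := fun h => by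
    have := congrArg Complex.re h
    norm_num at this
  set A : ℂ → ℂ := fun z => (1 / 2 + z) * (1 - (1 / 2 + z)) * Gammaℝ (1 / 2 + z) with hA
  set B : ℂ → ℂ := riemannZeta ∘ (fun z => 1 / 2 + z) with hB
  have hU : {z : ℂ | 0 < (1 / 2 + z).re} ∩ {z | 1 / 2 + z ≠ 1} ∈ 𝓝 (γ * I : ℂ) := by
    refine IsOpen.mem_nhds ?_ ⟨hre, h1⟩
    exact (isOpen_lt continuous_const (by fun_prop)).inter
      (isOpen_ne_fun (by fun_prop) continuous_const)
  have hev : xi =ᶠ[𝓝 (γ * I : ℂ)] A * B := by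
    filter_upwards [hU] with z hz
    exact xi_eq_zeta hz.1 hz.2
  have hGd : ∀ s : ℂ, 0 < s.re → DifferentiableAt ℂ Gammaℝ s := by
    intro s hs
    have : Gammaℝ = fun s => ((Gammaℝ s)⁻¹)⁻¹ := by funext s; rw [inv_inv]
    rw [this]
    exact (differentiable_Gammaℝ_inv s).inv (inv_ne_zero (Gammaℝ_ne_zero_of_re_pos hs))
  have hGa : AnalyticAt ℂ Gammaℝ (1 / 2 + γ * I) := by
    rw [Complex.analyticAt_iff_eventually_differentiableAt]
    have : {s : ℂ | 0 < s.re} ∈ 𝓝 (1 / 2 + γ * I : ℂ) :=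
      (isOpen_lt continuous_const continuous_re).mem_nhds hre
    filter_upwards [this] with s hs using hGd s hs
  have hAa : AnalyticAt ℂ A (γ * I) := by
    have h3 : AnalyticAt ℂ (fun z : ℂ => Gammaℝ (1 / 2 + z)) (γ * I) :=
      hGa.fun_comp (by fun_prop)
    exact (by fun_prop : AnalyticAt ℂ (fun z : ℂ => (1 / 2 + z) * (1 - (1 / 2 + z))) (γ * I)).mul h3
  have hA0 : A (γ * I) ≠ 0 := by
    have h2 : 1 / 2 + (γ * I : ℂ) ≠ 0 := fun h => by rw [h] at hre; simp at hre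
    have h3 : (1 : ℂ) - (1 / 2 + γ * I) ≠ 0 := sub_ne_zero.2 (Ne.symm h1)
    exact mul_ne_zero (mul_ne_zero h2 h3) (Gammaℝ_ne_zero_of_re_pos hre)
  have hza : AnalyticAt ℂ riemannZeta (1 / 2 + γ * I) := by
    rw [Complex.analyticAt_iff_eventually_differentiableAt]
    filter_upwards [isOpen_ne.mem_nhds h1] with s hs using differentiableAt_riemannZeta hs
  have hBa : AnalyticAt ℂ B (γ * I) := hza.fun_comp (by fun_prop)
  unfold om mult analyticOrderNatAt
  rw [analyticOrderAt_congr hev, analyticOrderAt_mul hAa hBa, (hAa.analyticOrderAt_eq_zero).2 hA0,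
    zero_add, hB, analyticOrderAt_comp_of_deriv_ne_zero (by fun_prop) (by simp)]

/-! ### growth -/

theorem Gamma_le_exp {x : ℝ} (hx : 1 ≤ x) : Real.Gamma x ≤ Real.exp (2 * x ^ (3 / 2 : ℝ)) := by
  have hx0 : 0 < x := by linarith
  have hG := Real.Gamma_pos_of_pos hx0
  have hlog : Real.log (Real.Gamma x) ≤ (x - 1) * Real.log x := by
    rcases eq_or_lt_of_le hx with h | h
    · rw [← h]; simp
    · obtain ⟨c, hc, hceq⟩ := exists_deriv_eq_slope (Real.log ∘ Real.Gamma) (a := 1) (b := x) h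
        (fun y hy => (differentiableAt_logGamma (by linarith [hy.1])).continuousAt.continuousWithinAt)
        (fun y hy => (differentiableAt_logGamma (by linarith [hy.1])).differentiableWithinAt)
      have h1 : psiR c ≤ Real.log x :=
        (psiR_bounds (by linarith [hc.1])).2.trans (Real.log_le_log (by linarith [hc.1]) hc.2.le)
      unfold psiR at h1
      rw [hceq] at h1
      simp only [Function.comp_apply, Real.Gamma_one, Real.log_one, sub_zero] at h1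
      rw [div_le_iff₀ (by linarith)] at h1
      linarith
  rw [← Real.exp_log hG]
  refine Real.exp_le_exp.2 (hlog.trans ?_)
  have h1 : Real.log x ≤ 2 * x ^ (1 / 2 : ℝ) := by
    have := Real.log_le_rpow_div hx0.le (by norm_num : (0 : ℝ) < 1 / 2)
    linarith
  have h2 : x ^ (3 / 2 : ℝ) = x * x ^ (1 / 2 : ℝ) := by
    rw [show (3 / 2 : ℝ) = 1 + 1 / 2 by norm_num, Real.rpow_add hx0, Real.rpow_one]
  rw [h2]
  have h3 : 0 ≤ Real.log x := Real.log_nonneg hx
  nlinarith [Real.rpow_nonneg hx0.le (1 / 2 : ℝ)]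

theorem norm_Gammaℝ_le {s : ℂ} (hs : 2 ≤ s.re) :
    ‖Gammaℝ s‖ ≤ Real.exp (2 * (s.re) ^ (3 / 2 : ℝ)) := by
  rw [Gammaℝ_def, norm_mul]
  have h1 : ‖(Real.pi : ℂ) ^ (-s / 2)‖ ≤ 1 := by
    rw [Complex.norm_cpow_eq_rpow_re_of_pos Real.pi_pos]
    refine Real.rpow_le_one_of_one_le_of_nonpos (by linarith [Real.pi_gt_three]) ?_
    simp; linarith
  have h2 : ‖Complex.Gamma (s / 2)‖ ≤ Real.exp (2 * (s.re) ^ (3 / 2 : ℝ)) := by
    have h3 := norm_Gamma_le_re (w := s / 2) (by simp; linarith)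
    have h4 : (s / 2).re = s.re / 2 := by simp
    rw [h4] at h3
    refine h3.trans ((Gamma_le_exp (by linarith)).trans (Real.exp_le_exp.2 ?_))
    have : (s.re / 2) ^ (3 / 2 : ℝ) ≤ s.re ^ (3 / 2 : ℝ) :=
      Real.rpow_le_rpow (by linarith) (by linarith) (by norm_num)
    linarith
  calc _ ≤ 1 * Real.exp (2 * (s.re) ^ (3 / 2 : ℝ)) :=
        mul_le_mul h1 h2 (norm_nonneg _) zero_le_one
    _ = _ := one_mul _

theorem xi_growth : ∃ C : ℝ, ∀ z, ‖xi z‖ ≤ Real.exp (C * (1 + ‖z‖) ^ (3 / 2 : ℝ)) := by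
  obtain ⟨C0, hC0, hC⟩ := completedZeta0_bounded 2
  set K := C0 + ZZ + 2 with hK
  have hZ := ZZ_pos
  have hK1 : 1 ≤ K := by linarith
  refine ⟨K + 6, ?_⟩
  have key : ∀ z : ℂ, 0 ≤ z.re → ‖xi z‖ ≤ Real.exp ((K + 6) * (1 + ‖z‖) ^ (3 / 2 : ℝ)) := by
    intro z hz
    set r := 1 + ‖z‖ with hr
    have hr1 : 1 ≤ r := by linarith [norm_nonneg z]
    have hr0 : 0 < r := by linarith
    have hrr : r ≤ r ^ (3 / 2 : ℝ) := by
      nth_rewrite 1 [← Real.rpow_one r]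
      exact Real.rpow_le_rpow_of_exponent_le hr1 (by norm_num)
    have hr1' : 1 ≤ r ^ (3 / 2 : ℝ) := hr1.trans hrr
    have hK' : K ≤ Real.exp (K * r ^ (3 / 2 : ℝ)) := by
      have h1 := Real.add_one_le_exp (K * r ^ (3 / 2 : ℝ))
      nlinarith
    have hr2 : r ^ 2 ≤ Real.exp (2 * r ^ (3 / 2 : ℝ)) := by
      have h1 : r ≤ Real.exp (r ^ (3 / 2 : ℝ)) := by
        have := Real.add_one_le_exp (r ^ (3 / 2 : ℝ))
        linarith
      calc r ^ 2 ≤ (Real.exp (r ^ (3 / 2 : ℝ))) ^ 2 := by gcongr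
        _ = _ := by rw [← Real.exp_nat_mul]; norm_num
    rcases le_or_gt z.re (3 / 2) with h | h
    · have h1 : ‖completedRiemannZeta₀ (1 / 2 + z)‖ ≤ C0 := hC _ (by
        simp only [add_re]
        norm_num
        rw [abs_le]; constructor <;> linarith)
      have h2 : ‖(1 / 4 - z ^ 2 : ℂ)‖ ≤ r ^ 2 := by
        have h3 := norm_sub_le (1 / 4 : ℂ) (z ^ 2)
        rw [norm_pow] at h3
        have h4 : ‖(1 / 4 : ℂ)‖ = 1 / 4 := by norm_num
        rw [h4] at h3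
        nlinarith [norm_nonneg z]
      have h3 : ‖xi z‖ ≤ K * r ^ 2 := by
        unfold xi
        refine (norm_sub_le _ _).trans ?_
        rw [norm_mul, norm_one]
        have h4 : ‖(1 / 4 - z ^ 2 : ℂ)‖ * ‖completedRiemannZeta₀ (1 / 2 + z)‖ ≤ r ^ 2 * C0 :=
          mul_le_mul h2 h1 (norm_nonneg _) (by positivity)
        nlinarith [one_le_pow₀ hr1 (n := 2)]
      refine h3.trans ?_
      calc K * r ^ 2 ≤ Real.exp (K * r ^ (3 / 2 : ℝ)) * Real.exp (2 * r ^ (3 / 2 : ℝ)) :=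
            mul_le_mul hK' hr2 (by positivity) (Real.exp_pos _).le
        _ = Real.exp (K * r ^ (3 / 2 : ℝ) + 2 * r ^ (3 / 2 : ℝ)) := (Real.exp_add _ _).symm
        _ ≤ _ := Real.exp_le_exp.2 (by nlinarith)
    · have hre : 2 ≤ (1 / 2 + z).re := by simp; linarith
      have h1 : 1 / 2 + z ≠ 1 := fun h1 => by rw [h1] at hre; norm_num at hre
      rw [xi_eq_zeta (by linarith) h1]
      have hle : (1 / 2 + z).re ≤ r := by
        have := re_le_norm z
        simp; linarith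
      have h2 : ‖(1 / 2 + z : ℂ)‖ ≤ r := by
        have h3 := norm_add_le (1 / 2 : ℂ) z
        have h4 : ‖(1 / 2 : ℂ)‖ = 1 / 2 := by norm_num
        linarith
      have h3 : ‖(1 - (1 / 2 + z) : ℂ)‖ ≤ r := by
        have e : (1 - (1 / 2 + z) : ℂ) = 1 / 2 - z := by ring
        have h3 := norm_sub_le (1 / 2 : ℂ) z
        have h4 : ‖(1 / 2 : ℂ)‖ = 1 / 2 := by norm_num
        rw [e]; linarith
      have h4 := norm_Gammaℝ_le hre
      have h5 : Real.exp (2 * (1 / 2 + z).re ^ (3 / 2 : ℝ)) ≤ Real.exp (2 * r ^ (3 / 2 : ℝ)) := by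
        refine Real.exp_le_exp.2 ?_
        have : (1 / 2 + z).re ^ (3 / 2 : ℝ) ≤ r ^ (3 / 2 : ℝ) :=
          Real.rpow_le_rpow (by linarith) hle (by norm_num)
        linarith
      have h6 := norm_zeta_le (s := 1 / 2 + z) (by linarith)
      rw [norm_mul, norm_mul, norm_mul]
      calc ‖(1 / 2 + z : ℂ)‖ * ‖(1 - (1 / 2 + z) : ℂ)‖ * ‖Gammaℝ (1 / 2 + z)‖ *
            ‖riemannZeta (1 / 2 + z)‖ ≤ r * r * Real.exp (2 * r ^ (3 / 2 : ℝ)) * K := by
            gcongr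
            · exact h4.trans h5
            · linarith
        _ = K * r ^ 2 * Real.exp (2 * r ^ (3 / 2 : ℝ)) := by ring
        _ ≤ Real.exp (K * r ^ (3 / 2 : ℝ)) * Real.exp (2 * r ^ (3 / 2 : ℝ)) *
            Real.exp (2 * r ^ (3 / 2 : ℝ)) := by gcongr
        _ = Real.exp (K * r ^ (3 / 2 : ℝ) + 2 * r ^ (3 / 2 : ℝ) + 2 * r ^ (3 / 2 : ℝ)) := by
            rw [Real.exp_add, Real.exp_add]
        _ ≤ _ := Real.exp_le_exp.2 (by nlinarith)
  intro z
  rcases le_total 0 z.re with h | h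
  · exact key z h
  · have := key (-z) (by simp; linarith)
    rwa [xi_even, norm_neg] at this

theorem xi_order0 : analyticOrderAt xi 0 ≠ ⊤ := by
  intro h
  have h1 : AnalyticOnNhd ℂ xi univ := fun z _ => xi_diff.analyticAt z
  have h2 := h1.eqOn_zero_of_preconnected_of_eventuallyEq_zero isPreconnected_univ (mem_univ 0)
    (analyticOrderAt_eq_top.1 h)
  exact xi_ne_zero_of_re (z := 1) (by norm_num) (h2 (mem_univ 1))

/-- logarithmic derivative of the archimedean factor -/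
def GG (s : ℂ) : ℂ := -(Real.log Real.pi : ℂ) / 2 + digamma (s / 2) / 2

theorem alg_aux {z : ℂ} {lp dG dz : ℂ} (h0 : 1 / 2 + z ≠ 0) (hzm : z - 1 / 2 ≠ 0)
    {G P Z : ℂ} (hG : G ≠ 0) (hP : P ≠ 0) (hZ : Z ≠ 0) :
    ((1 * (1 - (1 / 2 + z)) + (1 / 2 + z) * (-1)) * (P * G) +
        (1 / 2 + z) * (1 - (1 / 2 + z)) * (P * lp * (-1 / 2) * G + P * (dG * (1 / 2)))) * Z +
        (1 / 2 + z) * (1 - (1 / 2 + z)) * (P * G) * dz =
      (1 / (1 / 2 + z) + 1 / (z - 1 / 2) + (-lp / 2 + dG / G / 2) - -dz / Z) *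
        ((1 / 2 + z) * (1 - (1 / 2 + z)) * (P * G) * Z) := by
  have h5 : (1 : ℂ) - (1 / 2 + z) = -(z - 1 / 2) := by ring
  rw [h5]
  generalize hu : (1 / 2 + z : ℂ) = u at h0 ⊢
  generalize hv : (z - 1 / 2 : ℂ) = v at hzm ⊢
  field_simp
  ring

theorem logDeriv_xi {z : ℂ} (hz : 1 / 2 < z.re) :
    logDeriv xi z = 1 / (1 / 2 + z) + 1 / (z - 1 / 2) + GG (1 / 2 + z) -
      LSeries (fun n => (vonMangoldt n : ℂ)) (1 / 2 + z) := by
  have hre : 1 < (1 / 2 + z).re := by simp; linarith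
  have h0 : 1 / 2 + z ≠ 0 := fun h => by rw [h] at hre; norm_num at hre
  have h1 : 1 / 2 + z ≠ 1 := fun h => by rw [h] at hre; norm_num at hre
  have h1' : (1 : ℂ) - (1 / 2 + z) ≠ 0 := sub_ne_zero.2 (Ne.symm h1)
  have hzm : z - 1 / 2 ≠ 0 := fun h => h1' (by linear_combination -h)
  have hG0 : Gammaℝ (1 / 2 + z) ≠ 0 := Gammaℝ_ne_zero_of_re_pos (by linarith)
  have hz0 : riemannZeta (1 / 2 + z) ≠ 0 := riemannZeta_ne_zero_of_one_le_re hre.le
  have hd : ∀ m : ℕ, (1 / 2 + z) / 2 ≠ -m := fun m h => by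
    have h1 := congrArg Complex.re h
    simp at h1
    have : (0 : ℝ) ≤ m := Nat.cast_nonneg m
    linarith
  have hGd : HasDerivAt Complex.Gamma (deriv Complex.Gamma ((1 / 2 + z) / 2)) ((1 / 2 + z) / 2) :=
    (Complex.differentiableAt_Gamma _ hd).hasDerivAt
  have hlin : HasDerivAt (fun w : ℂ => (1 / 2 + w)) 1 z := (hasDerivAt_id z).const_add _
  have hlin2 : HasDerivAt (fun w : ℂ => (1 / 2 + w) / 2) (1 / 2) z := hlin.div_const 2
  have e1 : HasDerivAt (fun w : ℂ => Complex.Gamma ((1 / 2 + w) / 2))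
      (deriv Complex.Gamma ((1 / 2 + z) / 2) * (1 / 2)) z := hGd.comp z hlin2
  have e2 : HasDerivAt (fun w : ℂ => (Real.pi : ℂ) ^ (-(1 / 2 + w) / 2))
      ((Real.pi : ℂ) ^ (-(1 / 2 + z) / 2) * Complex.log Real.pi * (-1 / 2)) z := by
    have h2 : HasDerivAt (fun w : ℂ => -(1 / 2 + w) / 2) (-1 / 2) z := hlin.neg.div_const 2
    exact h2.const_cpow (Or.inl (by exact_mod_cast Real.pi_ne_zero))
  have e3 : HasDerivAt (fun w : ℂ => riemannZeta (1 / 2 + w))
      (deriv riemannZeta (1 / 2 + z)) z := by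
    have := (differentiableAt_riemannZeta h1).hasDerivAt.comp z hlin
    rw [mul_one] at this
    exact this
  have e4 : HasDerivAt (fun w : ℂ => (1 / 2 + w) * (1 - (1 / 2 + w)))
      (1 * (1 - (1 / 2 + z)) + (1 / 2 + z) * (-1)) z := hlin.mul (hlin.const_sub 1)
  have hU : {w : ℂ | 0 < (1 / 2 + w).re} ∩ {w | 1 / 2 + w ≠ 1} ∈ 𝓝 z := by
    refine IsOpen.mem_nhds ?_ ⟨by simp; linarith, h1⟩
    exact (isOpen_lt continuous_const (by fun_prop)).inter
      (isOpen_ne_fun (by fun_prop) continuous_const)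
  have hev : xi =ᶠ[𝓝 z] fun w => (1 / 2 + w) * (1 - (1 / 2 + w)) *
      ((Real.pi : ℂ) ^ (-(1 / 2 + w) / 2) * Complex.Gamma ((1 / 2 + w) / 2)) *
        riemannZeta (1 / 2 + w) := by
    filter_upwards [hU] with w hw
    rw [xi_eq_zeta hw.1 hw.2, Gammaℝ_def]
  have e5 := ((e4.mul (e2.mul e1)).mul e3)
  have hxi := (e5.congr_of_eventuallyEq hev).deriv
  have hGam : Complex.Gamma ((1 / 2 + z) / 2) ≠ 0 := Complex.Gamma_ne_zero hd
  have hpi : (Real.pi : ℂ) ^ (-(1 / 2 + z) / 2) ≠ 0 := by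
    rw [Complex.cpow_ne_zero_iff]
    left; exact_mod_cast Real.pi_ne_zero
  have hL : LSeries (fun n => (vonMangoldt n : ℂ)) (1 / 2 + z) =
      -deriv riemannZeta (1 / 2 + z) / riemannZeta (1 / 2 + z) :=
    LSeries_vonMangoldt_eq_deriv_riemannZeta_div hre
  rw [logDeriv_apply, hxi, hL, GG, digamma_def, logDeriv_apply, hev.self_of_nhds]
  simp only [Pi.mul_apply]
  rw [← Complex.ofReal_log Real.pi_pos.le]
  have h6 : (1 / 2 + z) * (1 - (1 / 2 + z)) *
      ((Real.pi : ℂ) ^ (-(1 / 2 + z) / 2) * Complex.Gamma ((1 / 2 + z) / 2)) *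
        riemannZeta (1 / 2 + z) ≠ 0 :=
    mul_ne_zero (mul_ne_zero (mul_ne_zero h0 h1') (mul_ne_zero hpi hGam)) hz0
  rw [div_eq_iff h6]
  exact alg_aux h0 hzm hGam hpi hz0

end Pool.Agent.helper30.LR
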