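import Pool.Agent.helper30.LR.Pf
import Pool.Agent.helper30.LR.Xi

noncomputable section

namespace Pool.Agent.helper30.LR

open Complex MeasureTheory Set Filter Topology ArithmeticFunction

theorem hadXi (hRH : RiemannHypothesis) :
    (∀ R : ℝ, {γ : ℝ | |γ| ≤ R ∧ mult γ ≠ 0}.Finite) ∧
    (Summable fun γ : ℝ => (mult γ : ℝ) / (1 + γ ^ 2)) ∧
    ∀ z : ℂ, 0 < z.re → HasSum (fun γ : ℝ => (mult γ : ℂ) * (z / (z ^ 2 + (γ : ℂ) ^ 2)))
      (logDeriv xi z) := by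
  obtain ⟨C, hC⟩ := xi_growth
  have h := had_main xi_diff xi_even xi_order0 (xi_im hRH) hC
  simpa only [om_xi] using h

theorem mult_neg (γ : ℝ) : mult (-γ) = mult γ := by
  rw [← om_xi, ← om_xi]; exact om_neg xi_even γ

theorem gauss_poly {c : ℝ} (hc : 0 < c) (t : ℝ) :
    (1 + t ^ 2) ^ 2 ≤ (1 + 2 / c) ^ 2 * Real.exp (c * t ^ 2) := by
  have h1 := Real.add_one_le_exp (c * t ^ 2 / 2)
  have h2 : 1 + t ^ 2 ≤ (1 + 2 / c) * Real.exp (c * t ^ 2 / 2) := by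
    have h3 : t ^ 2 = 2 / c * (c * t ^ 2 / 2) := by field_simp
    have h4 : 0 < 2 / c := by positivity
    have h5 : 0 ≤ c * t ^ 2 / 2 := by positivity
    nlinarith [mul_le_mul_of_nonneg_left h1 h4.le]
  have e : Real.exp (c * t ^ 2) = Real.exp (c * t ^ 2 / 2) ^ 2 := by
    rw [← Real.exp_nat_mul]; congr 1; push_cast; ring
  rw [e, ← mul_pow]
  gcongr

theorem gauss_int {c : ℝ} (hc : 0 < c) : Integrable fun t : ℝ => Real.exp (-(c * t ^ 2)) := by
  have := integrable_exp_neg_mul_sq hc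
  simpa only [neg_mul] using this

/-- Gaussian bound for polynomially weighted test function -/
theorem ph_poly {H : ℝ} (hH : 0 < H) (x : ℝ) {z : ℂ} (hz : |z.re| ≤ 1) :
    (1 + z.im ^ 2) ^ 2 * ‖ph H x z‖ ≤
      (1 + 2 / (1 / (2 * H ^ 2))) ^ 2 * Real.exp (1 / H ^ 2 + |x|) *
        Real.exp (-(1 / (2 * H ^ 2) * z.im ^ 2)) := by
  have h1 := gauss_poly (c := 1 / (2 * H ^ 2)) (by positivity) z.im
  have h2 := norm_ph_le hH x hz
  have e : Real.exp (-(z.im ^ 2 / H ^ 2)) = Real.exp (-(1 / (2 * H ^ 2) * z.im ^ 2)) *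
      Real.exp (-(1 / (2 * H ^ 2) * z.im ^ 2)) := by
    rw [← Real.exp_add]; congr 1; field_simp; ring
  have e2 : Real.exp (1 / (2 * H ^ 2) * z.im ^ 2) * Real.exp (-(1 / (2 * H ^ 2) * z.im ^ 2)) = 1 := by
    rw [← Real.exp_add]; simp
  rw [e] at h2
  calc _ ≤ ((1 + 2 / (1 / (2 * H ^ 2))) ^ 2 * Real.exp (1 / (2 * H ^ 2) * z.im ^ 2)) *
        (Real.exp (1 / H ^ 2 + |x|) * (Real.exp (-(1 / (2 * H ^ 2) * z.im ^ 2)) *
      Real.exp (-(1 / (2 * H ^ 2) * z.im ^ 2)))) := by gcongr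
    _ = (1 + 2 / (1 / (2 * H ^ 2))) ^ 2 * Real.exp (1 / H ^ 2 + |x|) *
        (Real.exp (1 / (2 * H ^ 2) * z.im ^ 2) * Real.exp (-(1 / (2 * H ^ 2) * z.im ^ 2))) *
        Real.exp (-(1 / (2 * H ^ 2) * z.im ^ 2)) := by ring
    _ = _ := by rw [e2, mul_one]

theorem mult_countable (hRH : RiemannHypothesis) : {γ : ℝ | mult γ ≠ 0}.Countable := by
  obtain ⟨hfin, -, -⟩ := hadXi hRH
  have h : {γ : ℝ | mult γ ≠ 0} ⊆ ⋃ n : ℕ, {γ : ℝ | |γ| ≤ n ∧ mult γ ≠ 0} := by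
    intro γ hγ
    obtain ⟨n, hn⟩ := exists_nat_ge |γ|
    exact mem_iUnion.2 ⟨n, hn, hγ⟩
  exact (countable_iUnion fun n : ℕ => (hfin n).countable).mono h

theorem hasSum_zeros (hRH : RiemannHypothesis) {H : ℝ} (hH : 0 < H) (x : ℝ) :
    HasSum (fun γ : ℝ => (mult γ : ℂ) * (Real.pi * ph H x (γ * I)))
      (∫ t : ℝ, logDeriv xi (1 + t * I) * ph H x (1 + t * I)) := by
  obtain ⟨-, hsum, hz⟩ := hadXi hRH
  set S : Set ℝ := {γ : ℝ | mult γ ≠ 0} with hS
  have : Countable S := (mult_countable hRH).to_subtype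
  set F : S → ℝ → ℂ := fun γ t =>
    (mult γ : ℂ) * (((1 + t * I) / ((1 + t * I) ^ 2 - ((γ : ℝ) * I : ℂ) ^ 2)) * ph H x (1 + t * I))
    with hF
  have hJ := fun γ : ℝ => J_pf hH x (b := (γ : ℂ) * I) (by simp)
  have hint : ∀ γ : S, Integrable (F γ) := fun γ => (hJ γ).1.const_mul _
  have hval : ∀ γ : S, ∫ t, F γ t = (mult γ : ℂ) * (Real.pi * ph H x ((γ : ℝ) * I)) := by
    intro γ
    simp only [hF]
    rw [integral_const_mul, (hJ γ).2]
  have hpt : ∀ γ t : ℝ, ‖((1 + t * I) / ((1 + t * I) ^ 2 - ((γ : ℝ) * I : ℂ) ^ 2))‖ ≤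
      12 * (1 + t ^ 2) ^ 2 / (1 + γ ^ 2) := by
    intro γ t
    have hre : (1 + t * I : ℂ).re = 1 := by simp
    have him : (1 + t * I : ℂ).im = t := by simp
    have h := norm_pf (z := 1 + t * I) (by rw [hre]; exact one_pos) γ
    rw [hre, him] at h
    have e : (1 + t * I : ℂ) ^ 2 - ((γ : ℝ) * I : ℂ) ^ 2 = (1 + t * I) ^ 2 + (γ : ℂ) ^ 2 := by
      rw [mul_pow, I_sq]; ring
    rw [e]
    refine h.trans ?_
    have h1 : ‖(1 + t * I : ℂ)‖ ≤ 2 * (1 + t ^ 2) := by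
      have := norm_add_le (1 : ℂ) (t * I)
      rw [norm_one, norm_mul, norm_I, mul_one, Complex.norm_real, Real.norm_eq_abs] at this
      have h2 : |t| ≤ 1 + t ^ 2 := by
        rw [← sq_abs t]; nlinarith [sq_nonneg (|t| - 1)]
      nlinarith [sq_nonneg t]
    refine div_le_div_of_nonneg_right ?_ (by positivity)
    calc ‖(1 + t * I : ℂ)‖ * (4 + (2 + 4 * t ^ 2) / 1 ^ 2) ≤
        (2 * (1 + t ^ 2)) * (6 * (1 + t ^ 2)) := by
          gcongr
          rw [one_pow, div_one]; nlinarith [sq_nonneg t]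
      _ = 12 * (1 + t ^ 2) ^ 2 := by ring
  set D := (1 + 2 / (1 / (2 * H ^ 2))) ^ 2 * Real.exp (1 / H ^ 2 + |x|) with hD
  have hsumF : Summable fun γ : S => ∫ t, ‖F γ t‖ := by
    have h1 : Summable fun γ : S => (mult γ : ℝ) / (1 + (γ : ℝ) ^ 2) *
        (12 * D * ∫ t : ℝ, Real.exp (-(1 / (2 * H ^ 2) * t ^ 2))) :=
      ((hsum.subtype S).mul_right _)
    refine Summable.of_nonneg_of_le (fun γ => integral_nonneg fun t => norm_nonneg _)
      (fun γ => ?_) h1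
    have h2 : ∀ t : ℝ, ‖F γ t‖ ≤ (mult γ : ℝ) / (1 + (γ : ℝ) ^ 2) * (12 * D) *
        Real.exp (-(1 / (2 * H ^ 2) * t ^ 2)) := by
      intro t
      simp only [hF]
      rw [norm_mul, norm_mul, Complex.norm_natCast]
      have h3 := hpt γ t
      have h4 := ph_poly hH x (z := 1 + t * I) (by simp)
      have him : (1 + t * I : ℂ).im = t := by simp
      rw [him] at h4
      have hpos : (0 : ℝ) < 1 + (γ : ℝ) ^ 2 := by positivity
      calc _ ≤ (mult γ : ℝ) * (12 * (1 + t ^ 2) ^ 2 / (1 + (γ : ℝ) ^ 2) * ‖ph H x (1 + t * I)‖) := by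
            gcongr
        _ = (mult γ : ℝ) / (1 + (γ : ℝ) ^ 2) * 12 * ((1 + t ^ 2) ^ 2 * ‖ph H x (1 + t * I)‖) := by
            field_simp
        _ ≤ (mult γ : ℝ) / (1 + (γ : ℝ) ^ 2) * 12 *
            (D * Real.exp (-(1 / (2 * H ^ 2) * t ^ 2))) := by gcongr
        _ = _ := by ring
    have h5 := integral_mono (hint γ).norm
      ((gauss_int (c := 1 / (2 * H ^ 2)) (by positivity)).const_mul
        ((mult γ : ℝ) / (1 + (γ : ℝ) ^ 2) * (12 * D))) h2
    rw [integral_const_mul] at h5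
    rw [← mul_assoc]
    exact h5
  have hmain := hasSum_integral_of_summable_integral_norm hint hsumF
  simp_rw [hval] at hmain
  have hts : ∀ t : ℝ, ∑' γ : S, F γ t = logDeriv xi (1 + t * I) * ph H x (1 + t * I) := by
    intro t
    have h1 := (hz (1 + t * I) (by simp)).mul_right (ph H x (1 + t * I))
    have h2 := (hasSum_subtype_iff_of_support_subset (s := S) (by
      intro γ hγ
      rw [Function.mem_support] at hγ
      intro h0
      apply hγ
      rw [h0]; simp)).2 h1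
    rw [← h2.tsum_eq]
    refine tsum_congr fun γ => ?_
    simp only [hF, Function.comp_apply]
    rw [mul_pow, I_sq]
    ring_nf
  simp_rw [hts] at hmain
  refine (hasSum_subtype_iff_of_support_subset (s := S) ?_).1 hmain
  intro γ hγ
  rw [Function.mem_support] at hγ
  intro h0
  apply hγ
  rw [h0]; simp

end Pool.Agent.helper30.LR
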